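import Pool.Agent.H822.TH.Hor

/-!
# Hypersurfaces transverse to planes: the angle
-/

set_option autoImplicit false

open scoped ContDiff
open Set Filter Topology Function Metric
open Pool.Agent.GR.Flow Pool.Agent.H822.Par

namespace Pool.Agent.H822.TH

open Pool.Agent.H822.SM

variable {B : Type} [NormedAddCommGroup B] [NormedSpace ℝ B] [FiniteDimensional ℝ B]
  {F : B × ℂ → ℝ} {R : ℝ}

theorem inv_single {M : Type} [NormedAddCommGroup M] [NormedSpace ℝ M] [FiniteDimensional ℝ M]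
    {W : M → M} (h1 : ContDiff ℝ ∞ W) (h2 : ∀ q v, fderiv ℝ W q v = 0 → v = 0)
    (h3 : Bijective W) : ∃ N : M → M, ContDiff ℝ ∞ N ∧ (∀ q, N (W q) = q) ∧ ∀ q, W (N q) = q := by
  obtain ⟨N, hN, e1, e2⟩ := BK.inv_fam (P := ℝ) (Φ := fun _ => W) (h1.comp contDiff_snd)
    (fun _ => h2) fun _ => h3
  exact ⟨N 0, hN.comp (contDiff_const.prodMk contDiff_id), e1 0, e2 0⟩

/-- the parametrisation and the angle -/
theorem HData.exists_angle (h : HData F R) [Nontrivial B] :
    ∃ (W : B × ℂ → B × ℂ) (Λ : B × ℂ → ℂ) (R' : ℝ), R ≤ R' ∧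
      ContDiff ℝ ∞ W ∧ (∀ q v, fderiv ℝ W q v = 0 → v = 0) ∧ Bijective W ∧
      (∀ q, (W q).1 = q.1) ∧ (∀ q, F (W q) = 0 ↔ q.2.re = 0) ∧ (∀ q, R < ‖q.2‖ → W q = q) ∧
      ContDiff ℝ ∞ Λ ∧ (∀ q, R' < ‖q‖ → Λ q = 0) ∧
      ∀ q, F q = 0 → Complex.exp (Λ q) = grad F q := by
  have hprop : ProperSpace (B × ℂ) := FiniteDimensional.proper_real _
  obtain ⟨η, b₁, hd⟩ := exists_dir B
  obtain ⟨W, hW1, hW2, hW3, hW4, hW5, hW6⟩ := h.exists_param hd
  obtain ⟨N, hN, hN1, hN2⟩ := inv_single hW1 hW2 hW3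
  -- the radius from which on the gradient is one
  obtain ⟨R₀, hR₀⟩ := ((isCompact_closedBall (0 : B × ℂ) R).image
    hN.continuous).isBounded.exists_norm_le
  set R₁ : ℝ := max R₀ 1 with hR₁
  have hR₁0 : 0 < R₁ := lt_of_lt_of_le one_pos (le_max_right _ _)
  have hone : ∀ q, R₁ < ‖q‖ → grad F (W q) = 1 := by
    intro q hq
    refine h.grad_off ?_
    by_contra hcon
    have h1 := hR₀ _ ⟨W q, by simpa using not_lt.1 hcon, rfl⟩
    rw [hN1] at h1
    linarith [le_max_left R₀ 1]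
  -- the kernel
  let K : Submodule ℝ B := LinearMap.ker (η : B →ₗ[ℝ] ℝ)
  have hK : ∀ b : K, η (b : B) = 0 := fun b => b.2
  let g : K → ℂ → B × ℂ := fun b w => ((b : B) + w.re • b₁, (w.im : ℂ) * Complex.I)
  have hg : ContDiff ℝ ∞ (fun q : K × ℂ => g q.1 q.2) := by
    have e1 : ContDiff ℝ ∞ fun q : K × ℂ => (q.1 : B) := K.subtypeL.contDiff.comp contDiff_fst
    have e2 : ContDiff ℝ ∞ fun q : K × ℂ => q.2.re := Complex.reCLM.contDiff.comp contDiff_snd
    have e3 : ContDiff ℝ ∞ fun q : K × ℂ => ((q.2.im : ℝ) : ℂ) :=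
      Complex.ofRealCLM.contDiff.comp (Complex.imCLM.contDiff.comp contDiff_snd)
    exact (e1.add (e2.smul contDiff_const)).prodMk (e3.mul contDiff_const)
  have hgη : ∀ b w, η (g b w).1 = w.re := by
    intro b w
    change η ((b : B) + w.re • b₁) = w.re
    rw [map_add, hK, map_smul, hd.one, smul_eq_mul, mul_one, zero_add]
  have hg2 : ∀ b w, ‖(g b w).2‖ = |w.im| := by
    intro b w
    change ‖((w.im : ℂ) * Complex.I)‖ = _
    rw [norm_mul, Complex.norm_I, mul_one, Complex.norm_real, Real.norm_eq_abs]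
  have hgre : ∀ b w, (g b w).2.re = 0 := by
    intro b w
    change ((w.im : ℂ) * Complex.I).re = 0
    simp
  have hgn1 : ∀ b w, |w.re| ≤ ‖g b w‖ := by
    intro b w
    rw [← hgη b w]
    exact (hd.le _).trans (norm_fst_le _)
  have hgn2 : ∀ b w, |w.im| ≤ ‖g b w‖ := by
    intro b w
    rw [← hg2 b w]
    exact norm_snd_le _
  let f : K → ℂ → ℂ := fun b w => grad F (W (g b w))
  have hf : ContDiff ℝ ∞ (fun q : K × ℂ => f q.1 q.2) :=
    (grad_smooth h.smooth).comp (hW1.comp hg)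
  have hfne : ∀ b w, f b w ≠ 0 := fun b w => h.trans _ ((hW5 _).2 (hgre b w))
  have hoff : ∀ b w, 2 * R₁ < ‖w‖ → f b w = 1 := by
    intro b w hw
    refine hone _ ?_
    by_contra hcon
    have h1 := (hgn1 b w).trans (not_lt.1 hcon)
    have h2 := (hgn2 b w).trans (not_lt.1 hcon)
    have h3 := Complex.norm_le_abs_re_add_abs_im w
    linarith
  set R₂ : ℝ := R₁ + R₁ * ‖b₁‖ with hR₂
  have hQ : ∀ b : K, b ∉ {b : K | ‖(b : B)‖ ≤ R₂} → ∀ w, f b w = 1 := by
    intro b hb w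
    refine hone _ ?_
    by_contra hcon
    apply hb
    have h1 := (hgn1 b w).trans (not_lt.1 hcon)
    have h2 : ‖(g b w).1‖ ≤ R₁ := (norm_fst_le _).trans (not_lt.1 hcon)
    have h3 : (b : B) = (g b w).1 - w.re • b₁ := by
      change (b : B) = (b : B) + w.re • b₁ - w.re • b₁
      rw [add_sub_cancel_right]
    change ‖(b : B)‖ ≤ R₂
    rw [h3]
    refine (norm_sub_le _ _).trans (add_le_add h2 ?_)
    rw [norm_smul, Real.norm_eq_abs]
    gcongr
  obtain ⟨L₀, hL1, hL2, hL3, hL4⟩ := exists_log hf hfne (R := 2 * R₁) (by linarith) hoff hQ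
  -- the projection to the kernel
  let pK : B →L[ℝ] K := (ContinuousLinearMap.id ℝ B - η.smulRight b₁).codRestrict K (by
    intro b
    rw [LinearMap.mem_ker]
    change η (b - η b • b₁) = 0
    rw [map_sub, map_smul, hd.one, smul_eq_mul, mul_one, sub_self])
  have hpK : ∀ b, (pK b : B) = b - η b • b₁ := fun b => rfl
  let u : B × ℂ → ℂ := fun q => (η q.1 : ℂ) + (q.2.im : ℂ) * Complex.I
  have hure : ∀ q, (u q).re = η q.1 := fun q => by simp [u]
  have huim : ∀ q, (u q).im = q.2.im := fun q => by simp [u]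
  have hgu : ∀ q : B × ℂ, q.2.re = 0 → g (pK q.1) (u q) = q := by
    intro q hq
    refine Prod.ext ?_ ?_
    · change (pK q.1 : B) + (u q).re • b₁ = q.1
      rw [hpK, hure, sub_add_cancel]
    · change ((u q).im : ℂ) * Complex.I = q.2
      rw [huim]
      apply Complex.ext
      · simp [hq]
      · simp
  let L : B × ℂ → ℂ := fun q => L₀ (pK q.1) (u q)
  have hLs : ContDiff ℝ ∞ L := by
    have e1 : ContDiff ℝ ∞ fun q : B × ℂ => pK q.1 := pK.contDiff.comp contDiff_fst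
    have e2 : ContDiff ℝ ∞ u := by
      have e3 : ContDiff ℝ ∞ fun q : B × ℂ => ((η q.1 : ℝ) : ℂ) :=
        Complex.ofRealCLM.contDiff.comp (η.contDiff.comp contDiff_fst)
      have e4 : ContDiff ℝ ∞ fun q : B × ℂ => ((q.2.im : ℝ) : ℂ) :=
        Complex.ofRealCLM.contDiff.comp (Complex.imCLM.contDiff.comp contDiff_snd)
      exact e3.add (e4.mul contDiff_const)
    exact hL1.comp (e1.prodMk e2)
  have hLexp : ∀ q : B × ℂ, q.2.re = 0 → Complex.exp (L q) = grad F (W q) := by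
    intro q hq
    change Complex.exp (L₀ (pK q.1) (u q)) = _
    rw [hL2]
    change grad F (W (g (pK q.1) (u q))) = _
    rw [hgu q hq]
  set R₄ : ℝ := 2 * R₁ + R₂ + 2 * R₁ * ‖b₁‖ with hR₄
  have hR₂0 : 0 ≤ R₂ := by positivity
  have hLoff : ∀ q : B × ℂ, q.2.re = 0 → R₄ < ‖q‖ → L q = 0 := by
    intro q hq hn
    have hb0 : 0 ≤ 2 * R₁ * ‖b₁‖ := by positivity
    by_cases h1 : 2 * R₁ < ‖u q‖
    · exact hL3 _ _ h1
    · have h2 : |η q.1| ≤ 2 * R₁ := by
        rw [← hure q]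
        exact (Complex.abs_re_le_norm _).trans (not_lt.1 h1)
      have h3 : |q.2.im| ≤ 2 * R₁ := by
        rw [← huim q]
        exact (Complex.abs_im_le_norm _).trans (not_lt.1 h1)
      refine hL4 _ (fun hcon => ?_) _
      have hcon' : ‖(pK q.1 : B)‖ ≤ R₂ := hcon
      rw [hpK] at hcon'
      have h4 : ‖q.1‖ ≤ R₂ + 2 * R₁ * ‖b₁‖ := by
        calc ‖q.1‖ = ‖(q.1 - η q.1 • b₁) + η q.1 • b₁‖ := by rw [sub_add_cancel]
          _ ≤ ‖q.1 - η q.1 • b₁‖ + ‖η q.1 • b₁‖ := norm_add_le _ _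
          _ ≤ R₂ + 2 * R₁ * ‖b₁‖ := by
            refine add_le_add hcon' ?_
            rw [norm_smul, Real.norm_eq_abs]
            gcongr
      have h5 : ‖q.2‖ ≤ 2 * R₁ := by
        refine (Complex.norm_le_abs_re_add_abs_im _).trans ?_
        rw [hq, abs_zero, zero_add]
        exact h3
      have h6 : ‖q‖ ≤ R₄ := by
        rw [Prod.norm_def]
        refine max_le (by linarith) (by linarith)
      linarith
  -- the cut off
  obtain ⟨R₅, hR₅⟩ := ((isCompact_closedBall (0 : B × ℂ) R₄).image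
    hW1.continuous).isBounded.exists_norm_le
  set R₆ : ℝ := max (max R₅ 1) R with hR₆
  have hR₆0 : 0 < R₆ := lt_of_lt_of_le one_pos ((le_max_right _ _).trans (le_max_left _ _))
  let χ : ContDiffBump (0 : B × ℂ) := ⟨R₆, R₆ + 1, hR₆0, by linarith⟩
  refine ⟨W, fun q => ((χ q : ℝ) : ℂ) * L (N q), R₆ + 1, (le_max_right _ _).trans (by linarith),
    hW1, hW2, hW3, hW4, hW5, hW6, ?_, fun q hq => ?_, fun q hq => ?_⟩
  · exact (Complex.ofRealCLM.contDiff.comp χ.contDiff).mul (hLs.comp hN)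
  · have : χ q = 0 := χ.zero_of_le_dist (by
      rw [dist_zero_right]
      exact hq.le)
    change ((χ q : ℝ) : ℂ) * L (N q) = 0
    rw [this, Complex.ofReal_zero, zero_mul]
  · have h1 : (N q).2.re = 0 := by
      rw [← hW5, hN2]
      exact hq
    have h2 := hLexp _ h1
    rw [hN2] at h2
    change Complex.exp (((χ q : ℝ) : ℂ) * L (N q)) = grad F q
    by_cases h3 : R₄ < ‖N q‖
    · have h4 := hLoff _ h1 h3
      rw [h4, Complex.exp_zero] at h2
      rw [h4, mul_zero, Complex.exp_zero]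
      exact h2
    · have h4 : ‖W (N q)‖ ≤ R₅ := hR₅ _ ⟨N q, by simpa using not_lt.1 h3, rfl⟩
      rw [hN2] at h4
      have h5 : χ q = 1 := χ.one_of_mem_closedBall (by
        rw [mem_closedBall_zero_iff]
        exact h4.trans ((le_max_left _ _).trans (le_max_left _ _)))
      rw [h5, Complex.ofReal_one, one_mul]
      exact h2

end Pool.Agent.H822.TH
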