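import Pool.Agent.H822.SM.LUDefs

/-!
# Long hypersurfaces: definitions

The model of `ℝⁿ` is `B × ℂ`, where `B = ℝ^{n-2}`. A family of long hypersurfaces is given by a
family of functions `F_p` on `B × ℂ`: the hypersurface is `A_p = {F_p = 0}`, which is equal to the
hyperplane `{(b, z) | re z = 0}` near infinity.
-/

set_option autoImplicit false

open scoped ContDiff
open Set Filter Topology Function

namespace Pool.Agent.H822.TH

open Pool.Agent.H822.LD

variable {B : Type} [NormedAddCommGroup B] [NormedSpace ℝ B]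
  {P : Type} [NormedAddCommGroup P] [NormedSpace ℝ P]
  {C : Type} [NormedAddCommGroup C] [NormedSpace ℝ C]

/-- A smooth family of functions `F_p`, with parameters in `P`, which is equal to the real part of
`z` off a compact subset of `P × (B × ℂ)`, such that `dF_p ≠ 0` at the points of
`A_p = {F_p = 0}`. So `A_p` is a smooth hypersurface, the hyperplane `re z = 0` near infinity. -/
structure LongFamily (F : P → B × ℂ → ℝ) : Prop where
  smooth : ContDiff ℝ ∞ (fun x : P × (B × ℂ) => F x.1 x.2)
  flat : ∃ K : Set (P × (B × ℂ)), IsCompact K ∧ ∀ p q, (p, q) ∉ K → F p q = q.2.re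
  regular : ∀ p q, F p q = 0 → fderiv ℝ (F p) q ≠ 0

/-- the hypersurface `{F = 0}` is transverse to the fibres of the map `f` -/
def Transverse (F : B × ℂ → ℝ) (f : B × ℂ → C) : Prop :=
  ∀ q, F q = 0 → ∃ v, fderiv ℝ f q v = 0 ∧ fderiv ℝ F q v ≠ 0

/-- the diffeomorphisms `φ_p` map the hyperplane `re z = 0` onto `A_p` -/
def Straightens (φ : P → Equiv.Perm (B × ℂ)) (F : P → B × ℂ → ℝ) : Prop :=
  ∀ p q, F p (φ p q) = 0 ↔ q.2.re = 0

/-- the family is unknotted: a smooth family of diffeomorphisms with compact support maps the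
hyperplane onto the hypersurfaces `A_p` -/
def Unknotted (F : P → B × ℂ → ℝ) : Prop :=
  ∃ φ : P → Equiv.Perm (B × ℂ), Diffs φ ∧ Straightens φ F

/-- there is a smooth family of submersions `f_p : B × ℂ → C`, equal to the linear map `π` off a
compact set, whose fibres are transverse to `A_p` -/
def HasSubmersions (π : B × ℂ →L[ℝ] C) (F : P → B × ℂ → ℝ) : Prop :=
  ∃ f : P → B × ℂ → C, ContDiff ℝ ∞ (fun x : P × (B × ℂ) => f x.1 x.2) ∧
    (∃ K : Set (P × (B × ℂ)), IsCompact K ∧ ∀ p q, (p, q) ∉ K → f p q = π q) ∧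
    (∀ p q, Surjective (fderiv ℝ (f p) q)) ∧ ∀ p, Transverse (F p) (f p)

/-- the projection `(b, z) ↦ b`, whose fibres are the planes `{b} × ℂ` -/
noncomputable abbrev toBase (B : Type) [NormedAddCommGroup B] [NormedSpace ℝ B] : B × ℂ →L[ℝ] B :=
  ContinuousLinearMap.fst ℝ B ℂ

/-- the projection `(b, z) ↦ (b, im z)` to the hyperplane -/
noncomputable abbrev toPlane (B : Type) [NormedAddCommGroup B] [NormedSpace ℝ B] :
    B × ℂ →L[ℝ] B × ℝ :=
  (ContinuousLinearMap.fst ℝ B ℂ).prod (Complex.imCLM.comp (ContinuousLinearMap.snd ℝ B ℂ))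

/-- The family is null-homotopic: a smooth family of diffeomorphisms with compact support, which is
homotopic to the constant family of the identity, maps the hyperplane onto the hypersurfaces `A_p`.
-/
def NullHomotopic (F : P → B × ℂ → ℝ) : Prop :=
  ∃ φ : P → Equiv.Perm (B × ℂ), Diffs φ ∧ Htp φ 1 ∧ Straightens φ F

/-- The functions `f_p` have no critical points and are equal to the linear function `μ` off a
compact set, and at no point of `A_p` is the differential of `F_p` a positive multiple of the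
differential of `f_p` (all critical points of the restriction of `f_p` to `A_p` have the same
sign). -/
structure OneSided (μ : B × ℂ →L[ℝ] ℝ) (F f : P → B × ℂ → ℝ) : Prop where
  smooth : ContDiff ℝ ∞ (fun x : P × (B × ℂ) => f x.1 x.2)
  flat : ∃ K : Set (P × (B × ℂ)), IsCompact K ∧ ∀ p q, (p, q) ∉ K → f p q = μ q
  regular : ∀ p q, fderiv ℝ (f p) q ≠ 0
  oneSided : ∀ p q, F p q = 0 → ∀ c : ℝ, 0 < c → fderiv ℝ (F p) q ≠ c • fderiv ℝ (f p) q

/-- There are vector fields `V_p`, equal to a constant `e` off a compact set, without bounded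
orbits, which are nowhere tangent to the hypersurfaces `A_p`. -/
def HasFields (F : P → B × ℂ → ℝ) : Prop :=
  ∃ (e : B × ℂ) (V : P → B × ℂ → B × ℂ),
    ContDiff ℝ ∞ (fun x : P × (B × ℂ) => V x.1 x.2) ∧
    (∃ K : Set (P × (B × ℂ)), IsCompact K ∧ ∀ p q, (p, q) ∉ K → V p q = e) ∧
    (∀ p (γ : ℝ → B × ℂ), (∀ t, HasDerivAt γ (V p (γ t)) t) → ¬ Bornology.IsBounded (range γ)) ∧
    ∀ p q, F p q = 0 → fderiv ℝ (F p) q (V p q) ≠ 0

/-- the directions of the planes `{b} × ℂ` -/
noncomputable abbrev planes (B : Type) [NormedAddCommGroup B] [NormedSpace ℝ B] : Submodule ℝ (B × ℂ) :=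
  LinearMap.ker (toBase B : B × ℂ →ₗ[ℝ] B)

end Pool.Agent.H822.TH
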