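import Pool.Agent.H822.SM.Smale

/-!
# Wave maps agree on half planes with compactly supported diffeomorphisms
-/

set_option autoImplicit false

open scoped ContDiff
open Set Filter Topology Function Metric
open Pool.Agent.GR.Flow Pool.Agent.H822.Par
open Pool.Agent.H822.Td (et et_smooth et_zero et_one det_smooth det_off et_deriv)

namespace Pool.Agent.H822.TH

open Pool.Agent.H822.SM

variable {P : Type} [NormedAddCommGroup P] [NormedSpace ℝ P] [FiniteDimensional ℝ P]

theorem fix_wave {V : P → ℂ → ℂ} {R : ℝ} (hV : VFam (1 : ℂ) V R) {W : P → ℂ → ℂ}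
    (hW : IsWave Complex.reCLM 1 V R W) {Q : Set P} (hQ : IsCompact Q)
    (hWQ : ∀ p, p ∉ Q → ∀ z, W p z = z) (a : ℝ) :
    ∃ Φ : P → ℂ → ℂ, DFam Φ ∧ ∀ p z, z.re ≤ a → Φ p z = W p z := by
  have hRpos := hV.pos
  have hWs : ∀ q, ContDiff ℝ ∞ (W q) := fun q => hW.smooth.comp
    (contDiff_const.prodMk contDiff_id)
  have hred : ∀ q, (∀ z, W q z = z) ∨ ∃ q' ∈ Q, W q' = W q := by
    intro p
    by_cases hp : p ∈ Q
    · exact Or.inr ⟨p, hp, rfl⟩
    · exact Or.inl (hWQ p hp)
  have hWR : ∀ q z, R < |z.im| → W q z = z := fun q z hz => hW.tube q z (tubeC hz)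
  obtain ⟨m₀, hm₀⟩ := hW.out _ hQ
  -- a bound of the real part
  obtain ⟨b₀, hb₀⟩ := ((hQ.prod (isCompact_closedBall (0 : ℂ) (|a| + R + R))).image
    (Complex.continuous_re.comp hW.smooth.continuous)).isBounded.exists_norm_le
  set m : ℝ := max (max m₀ (R + 1)) (max a b₀) with hm
  have hm0 : m₀ ≤ m := (le_max_left _ _).trans (le_max_left _ _)
  have hmR : R < m := lt_of_lt_of_le (by linarith) ((le_max_right m₀ _).trans (le_max_left _ _))
  have hma : a ≤ m := (le_max_left _ _).trans (le_max_right _ _)
  have hmb : b₀ ≤ m := (le_max_right _ _).trans (le_max_right _ _)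
  have hbd : ∀ q z, z.re ≤ a → (W q z).re ≤ m := by
    intro q z hz
    by_cases h1 : R < |z.im|
    · rw [hWR q z h1]
      exact hz.trans hma
    by_cases h2 : z.re < -R
    · rw [hW.left q z h2]
      exact hz.trans hma
    by_cases hq : q ∈ Q
    · have h3 : z ∈ closedBall (0 : ℂ) (|a| + R + R) := by
        rw [mem_closedBall_zero_iff]
        have h4 := Complex.norm_le_abs_re_add_abs_im z
        have h5 : |z.re| ≤ |a| + R := by
          rw [abs_le]
          constructor
          · linarith [abs_nonneg a, not_lt.1 h2]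
          · linarith [le_abs_self a]
        linarith [not_lt.1 h1]
      have h4 := hb₀ _ ⟨(q, z), ⟨hq, h3⟩, rfl⟩
      exact ((le_abs_self _).trans h4).trans hmb
    · rw [hWQ q hq]
      exact hz.trans hma
  have hout : ∀ q z, m ≤ z.re → R < (W q z).re ∧
      ∀ r : ℝ, 0 ≤ r → W q (z + r • (1 : ℂ)) = W q z + r • (1 : ℂ) := by
    intro q z hz
    rcases hred q with h3 | ⟨q', hq', h3⟩
    · rw [h3]
      refine ⟨by linarith, fun r _ => ?_⟩
      rw [h3]
    · rw [← h3]
      exact hm₀ q' hq' z (hm0.trans hz)
  -- the right side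
  let c : ℝ → ℂ := fun y => (m : ℂ) + y * Complex.I
  have hcre : ∀ y, (c y).re = m := fun y => by simp [c]
  have hcim : ∀ y, (c y).im = y := fun y => by simp [c]
  have hcs : ContDiff ℝ ∞ c :=
    contDiff_const.add (Complex.ofRealCLM.contDiff.mul contDiff_const)
  let B : P → ℝ → ℂ := fun q y => W q (c y) - c y
  have hB : ContDiff ℝ ∞ (fun x : P × ℝ => B x.1 x.2) :=
    (hW.smooth.comp (contDiff_fst.prodMk (hcs.comp contDiff_snd))).sub (hcs.comp contDiff_snd)
  have hWB : ∀ q z, m ≤ z.re → W q z = z + B q z.im := by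
    intro q z hz
    have e1 := (hout q (c z.im) (by rw [hcre])).2 (z.re - m) (by linarith)
    have e2 : c z.im + (z.re - m) • (1 : ℂ) = z := by
      apply Complex.ext
      · simp [c]
      · simp [c]
    have e3 : (z.re - m) • (1 : ℂ) = z - c z.im := by
      rw [← e2]
      simp [c]
    rw [e2, e3] at e1
    rw [e1]
    show W q (c z.im) + (z - c z.im) = z + (W q (c z.im) - c z.im)
    ring
  have hBoff : ∀ q y, R < |y| → B q y = 0 := fun q y hy => by
    show W q (c y) - c y = 0
    rw [hWR q _ (by rwa [hcim]), sub_self]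
  have hBred : ∀ q, (∀ y, B q y = 0) ∨ ∃ q' ∈ Q, B q' = B q := by
    intro q
    rcases hred q with h3 | ⟨q', hq', h3⟩
    · left
      intro y
      show W q (c y) - c y = 0
      rw [h3, sub_self]
    · right
      refine ⟨q', hq', ?_⟩
      funext y
      show W q' (c y) - c y = W q (c y) - c y
      rw [h3]
  have hBq : ∀ q, ContDiff ℝ ∞ (B q) := fun q => hB.comp (contDiff_const.prodMk contDiff_id)
  have hcd : ∀ y, HasDerivAt c Complex.I y := by
    intro y
    have e1 : HasDerivAt (fun y : ℝ => (m : ℂ) + y * Complex.I) (1 * Complex.I) y :=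
      ((hasDerivAt_id y).ofReal_comp.mul_const Complex.I).const_add _
    rwa [one_mul] at e1
  have hBd : ∀ q y, deriv (B q) y = fderiv ℝ (W q) (c y) Complex.I - Complex.I := by
    intro q y
    have e1 : HasDerivAt (fun y => W q (c y) - c y)
        (fderiv ℝ (W q) (c y) Complex.I - Complex.I) y :=
      (((hWs q).differentiable (by simp) (c y)).hasFDerivAt.comp_hasDerivAt y (hcd y)).sub (hcd y)
    exact e1.deriv
  have hW1' : ∀ q y, fderiv ℝ (W q) (c y) 1 = 1 := by
    intro q y
    have e1 := hW.orbit q (c y) 0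
    rw [zero_smul, add_zero, hV.off q _ (norm_gt dirC (lt_of_lt_of_le
      (hout q (c y) (by rw [hcre])).1 (le_abs_self _)))] at e1
    have e2 : HasDerivAt (fun t : ℝ => c y + t • (1 : ℂ)) ((1 : ℝ) • (1 : ℂ)) 0 :=
      ((hasDerivAt_id (0 : ℝ)).smul_const _).const_add (c y)
    rw [one_smul] at e2
    have e3 : HasFDerivAt (W q) (fderiv ℝ (W q) (c y)) (c y + (0 : ℝ) • (1 : ℂ)) := by
      rw [zero_smul, add_zero]
      exact ((hWs q).differentiable (by simp) (c y)).hasFDerivAt
    exact (e3.comp_hasDerivAt 0 e2).unique e1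
  have hBpos : ∀ q y, 0 < 1 + (deriv (B q) y).im := by
    intro q y
    have e1 : Continuous (fun y => 1 + (deriv (B q) y).im) :=
      continuous_const.add (Complex.continuous_im.comp ((hBq q).continuous_deriv (by simp)))
    refine pos_of_ne e1 (fun y h0 => ?_) (z₀ := R + 1) ?_ y
    · rw [hBd] at h0
      simp only [Complex.sub_im, Complex.I_im, add_sub_cancel] at h0
      have e2 : fderiv ℝ (W q) (c y) (Complex.I -
          (fderiv ℝ (W q) (c y) Complex.I).re • (1 : ℂ)) = 0 := by
        rw [map_sub, map_smul, hW1']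
        apply Complex.ext
        · simp
        · simp [h0]
      have e3 := congrArg Complex.im (hW.inj q _ _ e2)
      simp at e3
    · have e2 : B q =ᶠ[𝓝 (R + 1)] fun _ => 0 := by
        have : ∀ᶠ x in 𝓝 (R + 1), R < |x| :=
          continuousAt_const.eventually_lt continuous_abs.continuousAt (by
            rw [abs_of_pos (by linarith)]
            linarith)
        filter_upwards [this] with x hx using hBoff q x hx
      rw [e2.deriv_eq]
      simp
  obtain ⟨ε, hε, hbi⟩ := exists_beta hB hQ hBoff hBred hBpos m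
  have hbs : ContDiff ℝ ∞ (fun x : P × ℂ => bet (B x.1) ε m x.2) := by
    have e1 : ContDiff ℝ ∞ (fun x : P × ℂ => x.2.re) :=
      Complex.reCLM.contDiff.comp contDiff_snd
    have e2 : ContDiff ℝ ∞ (fun x : P × ℂ => x.2.im) :=
      Complex.imCLM.contDiff.comp contDiff_snd
    exact contDiff_snd.add ((et_smooth.comp (contDiff_const.mul (e1.sub contDiff_const))).smul
      (hB.comp (contDiff_fst.prodMk e2)))
  obtain ⟨N, hN, hN1, hN2⟩ := BK.inv_fam hW.smooth hW.inj hW.bij
  have hNW : ∀ q z, W q z = z → N q z = z := fun q z hz => by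
    have := hN1 q z
    rwa [hz] at this
  have hD : DFam fun p z => N p (bet (B p) ε m z) := by
    refine ⟨hN.comp (contDiff_fst.prodMk hbs), fun q z v hv => ?_,
      Q ×ˢ closedBall (0 : ℂ) (R + (|m| + 1 / ε) + R), hQ.prod (isCompact_closedBall _ _),
      fun p z hz => ?_⟩
    · refine inj_comp (hN.comp (contDiff_const.prodMk contDiff_id))
        (hbs.comp (contDiff_const.prodMk contDiff_id))
        (fun z v hv => inj_of_right (hWs q) (hN.comp (contDiff_const.prodMk contDiff_id))
          (hN2 q) z v hv) (hbi q) z v hv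
    · show N p (bet (B p) ε m z) = z
      by_cases hp : p ∈ Q
      · have hz' : R + (|m| + 1 / ε) + R < ‖z‖ := by
          by_contra hcon
          exact hz ⟨hp, by simpa using not_lt.1 hcon⟩
        by_cases hzi : R < |z.im|
        · have e1 : bet (B p) ε m z = z := by
            rw [bet, hBoff _ _ hzi, smul_zero, add_zero]
          rw [e1]
          exact hNW _ _ (hWR _ _ hzi)
        · have e1 : R + (|m| + 1 / ε) < |z.re| := by
            have := Complex.norm_le_abs_re_add_abs_im z
            linarith [not_lt.1 hzi]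
          have hε' : 0 < 1 / ε := by positivity
          by_cases h0 : 0 ≤ z.re
          · rw [abs_of_nonneg h0] at e1
            have e2 : 1 ≤ ε * (z.re - m) := by
              have e3 : 1 / ε ≤ z.re - m := by linarith [le_abs_self m]
              rwa [div_le_iff₀' hε] at e3
            have e4 : bet (B p) ε m z = W p z := by
              rw [bet, et_one e2, one_smul, hWB]
              linarith [le_abs_self m]
            rw [e4, hN1]
          · rw [abs_of_neg (not_le.1 h0)] at e1
            have e2 : ε * (z.re - m) ≤ 0 := by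
              have : z.re - m ≤ 0 := by linarith [not_le.1 h0]
              exact mul_nonpos_of_nonneg_of_nonpos hε.le this
            have e4 : bet (B p) ε m z = z := by
              rw [bet, et_zero e2, zero_smul, add_zero]
            rw [e4]
            exact hNW _ _ (hW.left _ _ (by
              show z.re < -R
              linarith [abs_nonneg m]))
      · have e1 : bet (B p) ε m z = z := by
          have : B p z.im = 0 := by
            show W p (c z.im) - c z.im = 0
            rw [hWQ p hp, sub_self]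
          rw [bet, this, smul_zero, add_zero]
        rw [e1]
        exact hNW _ _ (hWQ p hp z)
  obtain ⟨Φ, hΦ, h1, h2⟩ := hD.exists_inv
  refine ⟨Φ, hΦ, fun p z hz => ?_⟩
  have e1 : bet (B p) ε m (W p z) = W p z := by
    have e2 : ε * ((W p z).re - m) ≤ 0 :=
      mul_nonpos_of_nonneg_of_nonpos hε.le (by linarith [hbd p z hz])
    rw [bet, et_zero e2, zero_smul, add_zero]
  have e2 := h1 p (W p z)
  simp only [e1, hN1] at e2
  exact e2

end Pool.Agent.H822.TH
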