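import Pool.Agent.H822.TH.Ang

/-!
# Hypersurfaces transverse to planes are straightened by diffeomorphisms parallel to the planes
-/

set_option autoImplicit false

open scoped ContDiff
open Set Filter Topology Function Metric
open Pool.Agent.GR.Flow Pool.Agent.H822.Par

namespace Pool.Agent.H822.TH

open Pool.Agent.H822.SM

section shear

variable {P : Type} [NormedAddCommGroup P] [NormedSpace ℝ P]

/-- the shear with a compactly supported function -/
theorem exists_shear {τ : P → ℝ → ℝ} (hτ : ContDiff ℝ ∞ (fun q : P × ℝ => τ q.1 q.2))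
    {K : Set P} (hK : IsCompact K) {R : ℝ} (h1 : ∀ p, p ∉ K → ∀ y, τ p y = 0)
    (h2 : ∀ p y, R < |y| → τ p y = 0) :
    ∃ S : P → ℂ → ℂ, DFam S ∧ (∀ p (z : ℂ), z.re = 0 → S p z = z + ((τ p z.im : ℝ) : ℂ)) ∧
      ∃ T : ℝ, ∀ p y, τ p y ≤ T := by
  obtain ⟨T, hT⟩ := ((hK.prod (isCompact_Icc (a := -R) (b := R))).image
    hτ.continuous).isBounded.exists_norm_le
  have hTb : ∀ p y, |τ p y| ≤ max T 0 := by
    intro p y
    by_cases hp : p ∈ K
    · by_cases hy : R < |y|
      · rw [h2 p y hy, abs_zero]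
        exact le_max_right _ _
      · exact (hT _ ⟨(p, y), ⟨hp, abs_le.1 (not_lt.1 hy)⟩, rfl⟩).trans (le_max_left _ _)
    · rw [h1 p hp, abs_zero]
      exact le_max_right _ _
  let ρ : ContDiffBump (0 : ℝ) := ⟨1, 2, one_pos, one_lt_two⟩
  have hρ : ContDiff ℝ ∞ (fun x => ρ x) := ρ.contDiff
  obtain ⟨C, hC⟩ := hρ.lipschitzWith_of_hasCompactSupport ρ.hasCompactSupport (by simp)
  have hρd : ∀ x, |deriv (fun x => ρ x) x| ≤ C := by
    intro x
    have := norm_deriv_le_of_lipschitz (x₀ := x) hC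
    rwa [Real.norm_eq_abs] at this
  set ε : ℝ := (2 * (1 + C * max T 0))⁻¹ with hε
  have hC0 : (0 : ℝ) ≤ C := C.2
  have hT0 : 0 ≤ max T 0 := le_max_right _ _
  have hden : 0 < 2 * (1 + C * max T 0) := by positivity
  have hε0 : 0 < ε := inv_pos.2 hden
  let S : P → ℂ → ℂ := fun p z => z + (((ρ (ε * z.re)) * τ p z.im : ℝ) : ℂ)
  have hSs : ContDiff ℝ ∞ (fun q : P × ℂ => S q.1 q.2) := by
    have e1 : ContDiff ℝ ∞ fun q : P × ℂ => q.2.re := Complex.reCLM.contDiff.comp contDiff_snd
    have e2 : ContDiff ℝ ∞ fun q : P × ℂ => q.2.im := Complex.imCLM.contDiff.comp contDiff_snd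
    have e3 : ContDiff ℝ ∞ fun q : P × ℂ => ρ (ε * q.2.re) * τ q.1 q.2.im :=
      (hρ.comp (contDiff_const.mul e1)).mul (hτ.comp (contDiff_fst.prodMk e2))
    exact contDiff_snd.add (Complex.ofRealCLM.contDiff.comp e3)
  have hτp : ∀ p, ContDiff ℝ ∞ (τ p) := fun p => hτ.comp (contDiff_const.prodMk contDiff_id)
  refine ⟨S, ⟨hSs, fun p z v hv => ?_, K ×ˢ closedBall (0 : ℂ) (2 / ε + |R|),
    hK.prod (isCompact_closedBall _ _), fun p z hz => ?_⟩, fun p z hz => ?_, max T 0,
    fun p y => (le_abs_self _).trans (hTb p y)⟩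
  · -- the derivative
    have e1 : HasFDerivAt (fun z : ℂ => ε * z.re) (ε • Complex.reCLM) z :=
      Complex.reCLM.hasFDerivAt.const_mul ε
    have e2 : HasFDerivAt (fun z : ℂ => ρ (ε * z.re))
        (deriv (fun x => ρ x) (ε * z.re) • (ε • Complex.reCLM)) z :=
      HasDerivAt.comp_hasFDerivAt z (h₂ := fun x => ρ x)
        ((hρ.differentiable (by simp) (ε * z.re)).hasDerivAt) e1
    have e3 : HasFDerivAt (fun z : ℂ => τ p z.im) (deriv (τ p) z.im • Complex.imCLM) z :=
      HasDerivAt.comp_hasFDerivAt z (h₂ := τ p)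
        (((hτp p).differentiable (by simp) z.im).hasDerivAt) Complex.imCLM.hasFDerivAt
    have e4 := e2.mul e3
    have e5 : HasFDerivAt (S p) _ z := (hasFDerivAt_id z).add (Complex.ofRealCLM.hasFDerivAt.comp z e4)
    rw [e5.fderiv] at hv
    have hi := congrArg Complex.im hv
    have hr := congrArg Complex.re hv
    simp only [ContinuousLinearMap.add_apply, ContinuousLinearMap.comp_apply,
      ContinuousLinearMap.smul_apply, ContinuousLinearMap.id_apply, smul_eq_mul,
      Complex.add_re, Complex.add_im, Complex.zero_re, Complex.zero_im,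
      Complex.ofRealCLM_apply, Complex.ofReal_re, Complex.ofReal_im, add_zero,
      Complex.reCLM_apply, Complex.imCLM_apply] at hi hr
    rw [hi] at hr
    have h3 : v.re * (1 + τ p z.im * (deriv (fun x => ρ x) (ε * z.re) * ε)) = 0 := by
      linarith
    have h4 : 0 < 1 + τ p z.im * (deriv (fun x => ρ x) (ε * z.re) * ε) := by
      have h5 : |τ p z.im * (deriv (fun x => ρ x) (ε * z.re) * ε)| ≤ 1 / 2 := by
        rw [abs_mul, abs_mul, abs_of_pos hε0]
        calc |τ p z.im| * (|deriv (fun x => ρ x) (ε * z.re)| * ε)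
            ≤ max T 0 * (C * ε) := by
              gcongr
              · exact hTb p _
              · exact hρd _
          _ = (C * max T 0) * ε := by ring
          _ ≤ (1 + C * max T 0) * ε := by gcongr; linarith
          _ = 1 / 2 := by
            have h7 : (1 + (C : ℝ) * max T 0) ≠ 0 := by positivity
            rw [hε, mul_inv, mul_comm (2 : ℝ)⁻¹, ← mul_assoc, mul_inv_cancel₀ h7]
            norm_num
      linarith [neg_abs_le (τ p z.im * (deriv (fun x => ρ x) (ε * z.re) * ε))]
    have h6 := (mul_eq_zero.1 h3).resolve_right h4.ne'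
    exact Complex.ext h6 hi
  · have h3 : ρ (ε * z.re) * τ p z.im = 0 := by
      by_cases hp : p ∈ K
      · have hz' : 2 / ε + |R| < ‖z‖ := by
          by_contra hcon
          exact hz ⟨hp, by simpa using not_lt.1 hcon⟩
        by_cases hi : R < |z.im|
        · rw [h2 p _ hi, mul_zero]
        · have h4 : 2 / ε < |z.re| := by
            have := Complex.norm_le_abs_re_add_abs_im z
            linarith [not_lt.1 hi, le_abs_self R]
          have h5 : ρ (ε * z.re) = 0 := by
            refine ρ.zero_of_le_dist ?_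
            rw [dist_zero_right, Real.norm_eq_abs, abs_mul, abs_of_pos hε0]
            rw [div_lt_iff₀' hε0] at h4
            exact h4.le
          rw [h5, zero_mul]
      · rw [h1 p hp, mul_zero]
    change z + ((ρ (ε * z.re) * τ p z.im : ℝ) : ℂ) = z
    rw [h3, Complex.ofReal_zero, add_zero]
  · change z + ((ρ (ε * z.re) * τ p z.im : ℝ) : ℂ) = z + ((τ p z.im : ℝ) : ℂ)
    have h3 : ρ (ε * z.re) = 1 := by
      refine ρ.one_of_mem_closedBall ?_
      rw [hz, mul_zero]
      exact mem_closedBall_self ρ.rIn_pos.le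
    rw [h3, one_mul]

end shear

variable {B : Type} [NormedAddCommGroup B] [NormedSpace ℝ B] [FiniteDimensional ℝ B]
  {F : B × ℂ → ℝ} {R : ℝ}

/-- **hypersurfaces transverse to planes** -/
theorem HData.straighten (h : HData F R) [Nontrivial B] :
    ∃ Φ : B → ℂ → ℂ, DFam Φ ∧ ∀ b z, F (b, Φ b z) = 0 ↔ z.re = 0 := by
  have hprop : ProperSpace B := FiniteDimensional.proper_real _
  obtain ⟨W, Λ, R', hRR', hW1, hW2, hW3, hW4, hW5, hW6, hΛ, hΛoff, hΛexp⟩ := h.exists_angle
  have hR'0 : 0 < R' := h.pos.trans_le hRR'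
  let X : B → ℂ → ℂ := fun b z => Complex.exp (Λ (b, z))
  have hadm : ∀ b, Adm R' fun z => Λ (b, z) := fun b =>
    ⟨hΛ.comp (contDiff_const.prodMk contDiff_id),
      fun z hz => hΛoff _ (hz.trans_le (norm_snd_le (b, z)))⟩
  have hV : VFam (1 : ℂ) X R' := by
    refine ⟨hR'0, hΛ.cexp, fun b z hz => ?_, fun b => nt_exp hR'0 (hadm b)⟩
    exact (hadm b).exp_off hz
  obtain ⟨V, hV'⟩ := hV.exists_wave dirC
  have hVline : ∀ b, (∀ z, X b z = 1) → ∀ z, V b z = z := by
    intro q hq z
    refine wave_unique dirC (hV.slice q) (hV'.orbit q) (W' := fun z => z) (fun z t => ?_) (R := R')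
      (fun z hz => hV'.left _ _ hz) z
    rw [hq]
    have e2 : HasDerivAt (fun t : ℝ => z + t • (1 : ℂ)) ((1 : ℝ) • (1 : ℂ)) t :=
      ((hasDerivAt_id t).smul_const _).const_add z
    rwa [one_smul] at e2
  have hVQ : ∀ b, b ∉ closedBall (0 : B) R' → ∀ z, V b z = z := by
    intro b hb
    refine hVline b fun z => ?_
    rw [mem_closedBall_zero_iff, not_le] at hb
    change Complex.exp (Λ (b, z)) = 1
    rw [hΛoff _ (hb.trans_le (norm_fst_le (b, z))), Complex.exp_zero]
  have hVs : ∀ b, ContDiff ℝ ∞ (V b) := fun b => hV'.smooth.comp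
    (contDiff_const.prodMk contDiff_id)
  obtain ⟨N, hN, hN1, hN2⟩ := BK.inv_fam hV'.smooth hV'.inj hV'.bij
  -- the curves
  let ι : ℝ → ℂ := fun y => (y : ℂ) * Complex.I
  have hιre : ∀ y, (ι y).re = 0 := fun y => by simp [ι]
  have hιim : ∀ y, (ι y).im = y := fun y => by simp [ι]
  have hιn : ∀ y, ‖ι y‖ = |y| := fun y => by simp [ι]
  have hιs : ContDiff ℝ ∞ ι := Complex.ofRealCLM.contDiff.mul contDiff_const
  have hιd : ∀ y, HasDerivAt ι Complex.I y := by
    intro y
    have e1 : HasDerivAt (fun y : ℝ => (y : ℂ) * Complex.I) (1 * Complex.I) y :=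
      (hasDerivAt_id y).ofReal_comp.mul_const Complex.I
    rwa [one_mul] at e1
  have hιz : ∀ z : ℂ, z.re = 0 → ι z.im = z := fun z hz => by
    apply Complex.ext
    · rw [hιre, hz]
    · rw [hιim]
  let a : B → ℝ → ℂ := fun b y => (W (b, ι y)).2
  have haW : ∀ b y, W (b, ι y) = (b, a b y) := fun b y => Prod.ext (hW4 _) rfl
  have haF : ∀ b y, F (b, a b y) = 0 := fun b y => by
    rw [← haW]
    exact (hW5 _).2 (hιre y)
  have has : ContDiff ℝ ∞ (fun q : B × ℝ => a q.1 q.2) :=
    contDiff_snd.comp (hW1.comp (contDiff_fst.prodMk (hιs.comp contDiff_snd)))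
  let c : B → ℝ → ℂ := fun b y => N b (a b y)
  have hcs : ContDiff ℝ ∞ (fun q : B × ℝ => c q.1 q.2) := hN.comp (contDiff_fst.prodMk has)
  have hVc : ∀ b y, V b (c b y) = a b y := fun b y => hN2 b _
  have hcb : ∀ b, ContDiff ℝ ∞ (c b) := fun b => hcs.comp (contDiff_const.prodMk contDiff_id)
  have haι : ∀ b y, R' < |y| → a b y = ι y := by
    intro b y hy
    change (W (b, ι y)).2 = ι y
    rw [hW6 (b, ι y) (hRR'.trans_lt (by rwa [hιn]))]
  have hcι : ∀ b y, R' < |y| → c b y = ι y := by
    intro b y hy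
    change N b (a b y) = ι y
    rw [haι b y hy]
    have h1 : V b (ι y) = ι y := hV'.tube b _ (tubeC (by rwa [hιim]))
    have h2 := hN1 b (ι y)
    rwa [h1] at h2
  let Y : B → ℝ → ℝ := fun b y => (c b y).im
  have hYs : ContDiff ℝ ∞ (fun q : B × ℝ => Y q.1 q.2) := Complex.imCLM.contDiff.comp hcs
  have hYi : ∀ b y v, fderiv ℝ (Y b) y v = 0 → v = 0 := by
    intro b y v hv
    by_contra hv0
    -- derivatives of the curves
    set w : B × ℂ := fderiv ℝ W (b, ι y) (0, Complex.I) with hw
    have hpath : HasDerivAt (fun y : ℝ => ((b, ι y) : B × ℂ)) (0, Complex.I) y :=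
      (hasDerivAt_const y b).prodMk (hιd y)
    have hWp : HasDerivAt (fun y : ℝ => W (b, ι y)) w y :=
      HasFDerivAt.comp_hasDerivAt (f := fun y : ℝ => ((b, ι y) : B × ℂ)) y
        ((hW1.differentiable (by simp) (b, ι y)).hasFDerivAt) hpath
    have hw1 : w.1 = 0 := by
      have e1 : HasDerivAt (fun y : ℝ => (W (b, ι y)).1) w.1 y :=
        (ContinuousLinearMap.fst ℝ B ℂ).hasFDerivAt.comp_hasDerivAt y hWp
      have e2 : (fun y : ℝ => (W (b, ι y)).1) = fun _ => b := funext fun y => hW4 _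
      rw [e2] at e1
      exact e1.unique (hasDerivAt_const y b)
    have ha' : HasDerivAt (a b) w.2 y :=
      (ContinuousLinearMap.snd ℝ B ℂ).hasFDerivAt.comp_hasDerivAt y hWp
    have hw2 : w.2 ≠ 0 := by
      intro h0
      have e1 : w = 0 := Prod.ext hw1 h0
      have e2 := hW2 _ _ e1
      have e3 := congrArg Prod.snd e2
      simp at e3
    have hc' : HasDerivAt (c b) (deriv (c b) y) y :=
      ((hcb b).differentiable (by simp) y).hasDerivAt
    have hY' : HasDerivAt (Y b) (deriv (c b) y).im y :=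
      Complex.imCLM.hasFDerivAt.comp_hasDerivAt y hc'
    have him : (deriv (c b) y).im = 0 := by
      have e1 : fderiv ℝ (Y b) y v = v * (deriv (c b) y).im := by
        rw [hY'.hasFDerivAt.fderiv]
        simp
      rw [e1] at hv
      exact (mul_eq_zero.1 hv).resolve_left hv0
    have hVd : fderiv ℝ (V b) (c b y) (deriv (c b) y) = w.2 := by
      have e1 := ((hVs b).differentiable (by simp) (c b y)).hasFDerivAt.comp_hasDerivAt y hc'
      have e2 : (fun y => V b (c b y)) = a b := funext (hVc b)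
      have e3 : HasDerivAt (fun y => V b (c b y)) (fderiv ℝ (V b) (c b y) (deriv (c b) y)) y := e1
      rw [e2] at e3
      exact e3.unique ha'
    have hV1 : fderiv ℝ (V b) (c b y) 1 = grad F (b, a b y) := by
      have e1 := hV'.orbit b (c b y) 0
      rw [zero_smul, add_zero] at e1
      have e2 : HasDerivAt (fun t : ℝ => c b y + t • (1 : ℂ)) ((1 : ℝ) • (1 : ℂ)) 0 :=
        ((hasDerivAt_id (0 : ℝ)).smul_const _).const_add (c b y)
      rw [one_smul] at e2
      have e3 : HasFDerivAt (V b) (fderiv ℝ (V b) (c b y)) (c b y + (0 : ℝ) • (1 : ℂ)) := by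
        rw [zero_smul, add_zero]
        exact ((hVs b).differentiable (by simp) (c b y)).hasFDerivAt
      have e4 := (e3.comp_hasDerivAt 0 e2).unique e1
      rw [e4]
      change Complex.exp (Λ (b, V b (c b y))) = _
      rw [hVc, hΛexp _ (haF b y)]
    have hlin : w.2 = (deriv (c b) y).re • grad F (b, a b y) := by
      rw [← hVd, ← hV1, ← map_smul]
      congr 1
      apply Complex.ext
      · simp
      · simp [him]
    have hF0 : fderiv ℝ F (b, a b y) (0, w.2) = 0 := by
      have e1 : HasDerivAt (fun y : ℝ => F (W (b, ι y))) (fderiv ℝ F (W (b, ι y)) w) y :=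
        HasFDerivAt.comp_hasDerivAt (f := fun y : ℝ => W (b, ι y)) y
          ((h.smooth.differentiable (by simp) (W (b, ι y))).hasFDerivAt) hWp
      have e2 : (fun y : ℝ => F (W (b, ι y))) = fun _ => 0 := by
        funext y
        rw [haW, haF]
      rw [e2] at e1
      have e3 := e1.unique (hasDerivAt_const y 0)
      rw [haW] at e3
      have e4 : w = (0, w.2) := Prod.ext hw1 rfl
      rwa [e4] at e3
    rw [fderiv_plane, hlin] at hF0
    simp only [Complex.real_smul, Complex.mul_re, Complex.mul_im, Complex.ofReal_re,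
      Complex.ofReal_im, zero_mul, sub_zero, add_zero] at hF0
    have hG := h.trans _ (haF b y)
    have hG2 : 0 < Complex.normSq (grad F (b, a b y)) := Complex.normSq_pos.2 hG
    rw [Complex.normSq_apply] at hG2
    have h5 : (deriv (c b) y).re * ((grad F (b, a b y)).re * (grad F (b, a b y)).re
        + (grad F (b, a b y)).im * (grad F (b, a b y)).im) = 0 := by linarith
    have h6 := (mul_eq_zero.1 h5).resolve_right hG2.ne'
    rw [h6, zero_smul] at hlin
    exact hw2 hlin
  have hYoff : ∀ b y, R' < |y| → Y b y = y := by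
    intro b y hy
    change (c b y).im = y
    rw [hcι b y hy, hιim]
  have hYb : ∀ b, Bijective (Y b) := by
    intro b
    refine BK.bij_of_local (hYs.comp (contDiff_const.prodMk contDiff_id)) (hYi b)
      (isCompact_closedBall (0 : ℝ) R') fun y hy => hYoff b y ?_
    rwa [mem_closedBall_zero_iff, not_le, Real.norm_eq_abs] at hy
  obtain ⟨Z, hZ, hZ1, hZ2⟩ := BK.inv_fam hYs hYi hYb
  -- the graph
  let τ : B → ℝ → ℝ := fun b y => (c b (Z b y)).re
  have hτ : ContDiff ℝ ∞ (fun q : B × ℝ => τ q.1 q.2) :=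
    Complex.reCLM.contDiff.comp (hcs.comp (contDiff_fst.prodMk hZ))
  have hZoff : ∀ b y, R' < |y| → Z b y = y := by
    intro b y hy
    have := hZ1 b y
    rwa [hYoff b y hy] at this
  have hτ1 : ∀ b, b ∉ closedBall (0 : B) R' → ∀ y, τ b y = 0 := by
    intro b hb y
    have hb' : R' < ‖b‖ := by
      rwa [mem_closedBall_zero_iff, not_le] at hb
    have h1 : c b (Z b y) = a b (Z b y) := by
      have h2 := hVc b (Z b y)
      rwa [hVQ b hb] at h2
    change (c b (Z b y)).re = 0
    rw [h1]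
    have h3 := haF b (Z b y)
    rwa [h.off _ ((hRR'.trans_lt hb').trans_le (norm_fst_le (b, a b (Z b y))))] at h3
  have hτ2 : ∀ b y, R' < |y| → τ b y = 0 := by
    intro b y hy
    change (c b (Z b y)).re = 0
    rw [hZoff b y hy, hcι b y hy, hιre]
  obtain ⟨S, hS, hS1, T, hT⟩ := exists_shear hτ (isCompact_closedBall (0 : B) R') hτ1 hτ2
  obtain ⟨Ψ, hΨ, hΨ1⟩ := fix_wave hV hV' (isCompact_closedBall (0 : B) R') hVQ T
  have hkey : ∀ b y, Ψ b (S b (ι y)) = a b (Z b y) := by
    intro b y
    rw [hS1 b _ (hιre y), hιim]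
    have h1 : ι y + ((τ b y : ℝ) : ℂ) = c b (Z b y) := by
      apply Complex.ext
      · rw [Complex.add_re, hιre, Complex.ofReal_re, zero_add]
      · rw [Complex.add_im, hιim, Complex.ofReal_im, add_zero]
        exact (hZ2 b y).symm
    rw [h1, hΨ1 b _ (hT b y), hVc]
  refine ⟨fun b z => Ψ b (S b z), hΨ.comp hS, fun b z => ⟨fun hz => ?_, fun hz => ?_⟩⟩
  · -- the point is in the image of the line
    obtain ⟨q, hq⟩ := hW3.2 (b, Ψ b (S b z))
    have h1 : q.2.re = 0 := by
      rw [← hW5, hq]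
      exact hz
    have h2 : q.1 = b := by
      rw [← hW4, hq]
    have h3 : W (b, ι q.2.im) = (b, Ψ b (S b z)) := by
      rw [hιz _ h1, ← hq, ← h2]
    rw [haW] at h3
    have h4 : a b q.2.im = Ψ b (S b z) := congrArg Prod.snd h3
    have h5 : Ψ b (S b (ι (Y b q.2.im))) = Ψ b (S b z) := by
      rw [hkey, hZ1, h4]
    have h6 := ((hΨ.comp hS).bij b).1 h5
    rw [← h6, hιre]
  · change F (b, Ψ b (S b z)) = 0
    rw [← hιz z hz, hkey]
    exact haF b _

end Pool.Agent.H822.TH
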