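import Pool.Agent.H822.TH.Fix
import Pool.Agent.H822.SM.Real

/-!
# Hypersurfaces transverse to planes: the horizontal flow
-/

set_option autoImplicit false

open scoped ContDiff
open Set Filter Topology Function Metric
open Pool.Agent.GR.Flow Pool.Agent.H822.Par

namespace Pool.Agent.H822.TH

open Pool.Agent.H822.SM

section ode

theorem linear_ode {φ a : ℝ → ℝ} (ha : Continuous a) (h : ∀ t, HasDerivAt φ (a t * φ t) t)
    (t₀ t : ℝ) : ∃ c : ℝ, 0 < c ∧ φ t = c * φ t₀ := by
  let I : ℝ → ℝ := fun t => ∫ u in t₀..t, a u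
  have hI : ∀ t, HasDerivAt I (a t) t := fun t =>
    intervalIntegral.integral_hasDerivAt_right (ha.intervalIntegrable _ _)
      ha.aestronglyMeasurable.stronglyMeasurableAtFilter ha.continuousAt
  have hD : ∀ t, HasDerivAt (fun t => φ t * Real.exp (-I t)) 0 t := by
    intro t
    have h1 := (h t).mul ((hI t).neg.exp)
    have h2 : a t * φ t * Real.exp (-I t) + φ t * (Real.exp (-I t) * -a t) = 0 := by ring
    rw [← h2]
    exact h1
  have h3 := is_const_of_deriv_eq_zero (fun s => (hD s).differentiableAt)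
    (fun s => (hD s).deriv) t t₀
  have h4 : I t₀ = 0 := intervalIntegral.integral_same
  refine ⟨Real.exp (I t), Real.exp_pos _, ?_⟩
  simp only [h4, neg_zero, Real.exp_zero, mul_one] at h3
  rw [← h3, mul_comm (φ t), ← mul_assoc, ← Real.exp_add, add_neg_cancel, Real.exp_zero, one_mul]

end ode

variable {B : Type} [NormedAddCommGroup B] [NormedSpace ℝ B] [FiniteDimensional ℝ B]

/-- the gradient along the plane -/
noncomputable def grad (F : B × ℂ → ℝ) (q : B × ℂ) : ℂ :=
  ⟨fderiv ℝ F q (0, 1), fderiv ℝ F q (0, Complex.I)⟩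

omit [FiniteDimensional ℝ B] in
theorem fderiv_plane (F : B × ℂ → ℝ) (q : B × ℂ) (v : ℂ) :
    fderiv ℝ F q (0, v) = (grad F q).re * v.re + (grad F q).im * v.im := by
  have h1 : ((0, v) : B × ℂ) = v.re • ((0, 1) : B × ℂ) + v.im • ((0, Complex.I) : B × ℂ) := by
    ext
    · simp
    · simp
  rw [h1, map_add, map_smul, map_smul]
  simp only [grad, smul_eq_mul]
  ring

omit [FiniteDimensional ℝ B] in
theorem grad_smooth {F : B × ℂ → ℝ} (hF : ContDiff ℝ ∞ F) : ContDiff ℝ ∞ (grad F) := by
  have h1 : ContDiff ℝ ∞ fun q => fderiv ℝ F q (0, 1) :=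
    (hF.fderiv_right (m := ∞) (by simp)).clm_apply contDiff_const
  have h2 : ContDiff ℝ ∞ fun q => fderiv ℝ F q (0, Complex.I) :=
    (hF.fderiv_right (m := ∞) (by simp)).clm_apply contDiff_const
  have h3 : grad F = fun q => ((fderiv ℝ F q (0, 1) : ℝ) : ℂ)
      + ((fderiv ℝ F q (0, Complex.I) : ℝ) : ℂ) * Complex.I := by
    funext q
    apply Complex.ext <;> simp [grad]
  rw [h3]
  exact (Complex.ofRealCLM.contDiff.comp h1).add
    ((Complex.ofRealCLM.contDiff.comp h2).mul contDiff_const)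

/-- the data: a function, the real part off a ball, whose zero set is transverse to the planes -/
structure HData (F : B × ℂ → ℝ) (R : ℝ) : Prop where
  smooth : ContDiff ℝ ∞ F
  pos : 0 < R
  off : ∀ q, R < ‖q‖ → F q = q.2.re
  trans : ∀ q, F q = 0 → grad F q ≠ 0

variable {F : B × ℂ → ℝ} {R : ℝ}

omit [FiniteDimensional ℝ B] in
theorem HData.fderiv_off (h : HData F R) {q : B × ℂ} (hq : R < ‖q‖) (v : B × ℂ) :
    fderiv ℝ F q v = v.2.re := by
  have h1 : F =ᶠ[𝓝 q] fun q => q.2.re := by
    filter_upwards [(isOpen_lt continuous_const continuous_norm).mem_nhds hq] with y hy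
      using h.off y hy
  have h2 : HasFDerivAt (fun q : B × ℂ => q.2.re)
      (Complex.reCLM.comp (ContinuousLinearMap.snd ℝ B ℂ)) q :=
    (Complex.reCLM.comp (ContinuousLinearMap.snd ℝ B ℂ)).hasFDerivAt
  rw [h1.fderiv_eq, h2.fderiv]
  rfl

omit [FiniteDimensional ℝ B] in
theorem HData.grad_off (h : HData F R) {q : B × ℂ} (hq : R < ‖q‖) : grad F q = 1 := by
  apply Complex.ext
  · change fderiv ℝ F q (0, 1) = 1
    rw [h.fderiv_off hq]
    simp
  · change fderiv ℝ F q (0, Complex.I) = 0
    rw [h.fderiv_off hq]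
    simp

/-- the denominator -/
noncomputable def den (F : B × ℂ → ℝ) (q : B × ℂ) : ℝ :=
  (grad F q).re * (grad F q).re + (grad F q).im * (grad F q).im + F q * F q

omit [FiniteDimensional ℝ B] in
theorem HData.den_pos (h : HData F R) (q : B × ℂ) : 0 < den F q := by
  unfold den
  by_cases h1 : F q = 0
  · have h2 := h.trans q h1
    have h3 : 0 < Complex.normSq (grad F q) := Complex.normSq_pos.2 h2
    rw [Complex.normSq_apply] at h3
    nlinarith [mul_self_nonneg (F q)]
  · have h3 := mul_self_pos.2 h1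
    nlinarith [mul_self_nonneg (grad F q).re, mul_self_nonneg (grad F q).im]

/-- the horizontal field -/
noncomputable def hor (F : B × ℂ → ℝ) (b : B) (q : B × ℂ) : B × ℂ :=
  (b, (-(fderiv ℝ F q (b, 0) / den F q)) • grad F q)

omit [FiniteDimensional ℝ B] in
theorem HData.den_smooth (h : HData F R) : ContDiff ℝ ∞ (den F) := by
  have h1 := grad_smooth h.smooth
  have h2 : ContDiff ℝ ∞ fun q => (grad F q).re := Complex.reCLM.contDiff.comp h1
  have h3 : ContDiff ℝ ∞ fun q => (grad F q).im := Complex.imCLM.contDiff.comp h1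
  exact ((h2.mul h2).add (h3.mul h3)).add (h.smooth.mul h.smooth)

omit [FiniteDimensional ℝ B] in
theorem HData.hor_smooth (h : HData F R) (b : B) : ContDiff ℝ ∞ (hor F b) := by
  have h1 : ContDiff ℝ ∞ fun q => fderiv ℝ F q (b, 0) :=
    (h.smooth.fderiv_right (m := ∞) (by simp)).clm_apply contDiff_const
  exact contDiff_const.prodMk (((h1.div h.den_smooth fun q => (h.den_pos q).ne').neg).smul
    (grad_smooth h.smooth))

omit [FiniteDimensional ℝ B] in
theorem HData.fderiv_hor (h : HData F R) (b : B) (q : B × ℂ) :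
    fderiv ℝ F q (hor F b q) = (fderiv ℝ F q (b, 0) * F q / den F q) * F q := by
  have h1 : hor F b q = (b, 0) + (0, (-(fderiv ℝ F q (b, 0) / den F q)) • grad F q) := by
    simp [hor]
  rw [h1, map_add, fderiv_plane]
  simp only [Complex.real_smul, Complex.mul_re, Complex.mul_im, Complex.ofReal_re,
    Complex.ofReal_im, zero_mul, sub_zero, add_zero]
  have h2 := (h.den_pos q).ne'
  field_simp
  unfold den
  ring

/-- the horizontal parametrisation -/
theorem HData.exists_param (h : HData F R) {η : B →L[ℝ] ℝ} {b₁ : B} (hd : Dir η b₁) :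
    ∃ W : B × ℂ → B × ℂ, ContDiff ℝ ∞ W ∧ (∀ q v, fderiv ℝ W q v = 0 → v = 0) ∧ Bijective W ∧
      (∀ q, (W q).1 = q.1) ∧ (∀ q, F (W q) = 0 ↔ q.2.re = 0) ∧ ∀ q, R < ‖q.2‖ → W q = q := by
  set ξ : B × ℂ →L[ℝ] ℝ := η.comp (ContinuousLinearMap.fst ℝ B ℂ) with hξ
  set e : B × ℂ := (b₁, 0) with he
  have hξa : ∀ q : B × ℂ, ξ q = η q.1 := fun q => rfl
  have hD : Dir ξ e := ⟨hd.one, fun q => (hd.le q.1).trans (norm_fst_le q)⟩
  have hV : VFam (P := ℝ) e (fun _ => hor F b₁) R := by
    refine ⟨h.pos, (h.hor_smooth b₁).comp contDiff_snd, fun _ q hq => ?_, fun _ γ hγ hb => ?_⟩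
    · unfold hor
      rw [h.fderiv_off hq]
      simp [he]
    · -- the coordinate grows
      obtain ⟨C, hC⟩ := hb.exists_norm_le
      have h1 : ∀ t, HasDerivAt (fun t => ξ (γ t)) 1 t := by
        intro t
        have h2 := ξ.hasFDerivAt.comp_hasDerivAt t (hγ t)
        have h3 : ξ (hor F b₁ (γ t)) = 1 := hd.one
        rwa [h3] at h2
      have h2 : ∀ t, HasDerivAt (fun t => ξ (γ t) - t) 0 t := by
        intro t
        have h3 := (h1 t).sub (hasDerivAt_id t)
        rw [sub_self] at h3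
        exact h3
      have h3 := is_const_of_deriv_eq_zero (fun s => (h2 s).differentiableAt)
        (fun s => (h2 s).deriv) (2 * |C| + 1) 0
      simp only [sub_zero] at h3
      have h4 := (hD.le _).trans (hC _ ⟨2 * |C| + 1, rfl⟩)
      have h5 := (hD.le _).trans (hC _ ⟨0, rfl⟩)
      have h6 := abs_le.1 (h4.trans (le_abs_self C))
      have h7 := abs_le.1 (h5.trans (le_abs_self C))
      linarith [h6.2, h7.1]
  obtain ⟨W, hW⟩ := hV.exists_wave hD
  have hte : ∀ (q : B × ℂ) (t : ℝ), ξ (q + t • e) = ξ q + t := by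
    intro q t
    rw [map_add, map_smul, hD.one, smul_eq_mul, mul_one]
  refine ⟨W 0, hW.smooth.comp (contDiff_const.prodMk contDiff_id), hW.inj 0, hW.bij 0, fun q => ?_,
    fun q => ?_, fun q hq => hW.tube 0 q fun r => ?_⟩
  · -- the first component
    have h1 : ∀ t, HasDerivAt (fun t : ℝ => (W 0 (q + t • e)).1 - t • b₁) 0 t := by
      intro t
      have h2 := (hasFDerivAt_fst (𝕜 := ℝ) (p := W 0 (q + t • e))).comp_hasDerivAt t
        (hW.orbit 0 q t)
      have h3 := h2.sub ((hasDerivAt_id t).smul_const b₁)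
      have h4 : (ContinuousLinearMap.fst ℝ B ℂ) (hor F b₁ (W 0 (q + t • e))) - (1 : ℝ) • b₁ = 0 := by
        rw [one_smul]
        exact sub_self _
      rw [h4] at h3
      exact h3
    have h2 := is_const_of_deriv_eq_zero (fun s => (h1 s).differentiableAt)
      (fun s => (h1 s).deriv) 0 (-(R + 1 + |ξ q|))
    have h3 : W 0 (q + (-(R + 1 + |ξ q|)) • e) = q + (-(R + 1 + |ξ q|)) • e := by
      refine hW.left 0 _ ?_
      rw [hte]
      linarith [le_abs_self (ξ q)]
    simp only [h3, zero_smul, add_zero, sub_zero] at h2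
    rw [h2]
    simp [he]
  · -- the sign
    set a : ℝ → ℝ := fun t => fderiv ℝ F (W 0 (q + t • e)) (b₁, 0) * F (W 0 (q + t • e))
      / den F (W 0 (q + t • e)) with ha
    have hWc : Continuous fun t : ℝ => W 0 (q + t • e) :=
      continuous_iff_continuousAt.2 fun t => (hW.orbit 0 q t).continuousAt
    have hac : Continuous a := by
      have h1 : ContDiff ℝ ∞ fun q => fderiv ℝ F q (b₁, 0) :=
        (h.smooth.fderiv_right (m := ∞) (by simp)).clm_apply contDiff_const
      exact ((h1.continuous.comp hWc).mul (h.smooth.continuous.comp hWc)).div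
        (h.den_smooth.continuous.comp hWc) fun t => (h.den_pos _).ne'
    have hφ : ∀ t, HasDerivAt (fun t : ℝ => F (W 0 (q + t • e)))
        (a t * F (W 0 (q + t • e))) t := by
      intro t
      have h1 := ((h.smooth.differentiable (by simp) (W 0 (q + t • e))).hasFDerivAt).comp_hasDerivAt
        t (hW.orbit 0 q t)
      have h2 := h.fderiv_hor b₁ (W 0 (q + t • e))
      change fderiv ℝ F (W 0 (q + t • e)) (hor F b₁ (W 0 (q + t • e))) = _ at h2
      rw [h2] at h1
      exact h1
    obtain ⟨c, hc, hceq⟩ := linear_ode hac hφ (-(R + 1 + |ξ q|)) 0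
    have h3 : W 0 (q + (-(R + 1 + |ξ q|)) • e) = q + (-(R + 1 + |ξ q|)) • e := by
      refine hW.left 0 _ ?_
      rw [hte]
      linarith [le_abs_self (ξ q)]
    have h4 : R < ‖q + (-(R + 1 + |ξ q|)) • e‖ := by
      refine norm_gt hD ?_
      rw [hte, abs_of_neg (by linarith [le_abs_self (ξ q), h.pos])]
      linarith [le_abs_self (ξ q)]
    simp only [h3, zero_smul, add_zero] at hceq
    rw [hceq, h.off _ h4]
    have h5 : (q + (-(R + 1 + |ξ q|)) • e).2.re = q.2.re := by simp [he]
    rw [h5]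
    constructor
    · exact fun h => (mul_eq_zero.1 h).resolve_left hc.ne'
    · intro h
      rw [h, mul_zero]
  · have h1 : (q + r • e).2 = q.2 := by simp [he]
    calc R < ‖q.2‖ := hq
      _ = ‖(q + r • e).2‖ := by rw [h1]
      _ ≤ ‖q + r • e‖ := norm_snd_le _

end Pool.Agent.H822.TH
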