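import Pool.Agent.H822.TH.Graph
import Pool.Agent.H822.TH.Defs
import Pool.Agent.H822.SM.Real
import Pool.Agent.H822.SM.LUHtp

/-!
# Long hypersurfaces transverse to planes
-/

set_option autoImplicit false

open scoped ContDiff
open Set Filter Topology Function Metric

namespace Pool.Agent.H822.TH

open Pool.Agent.H822.SM Pool.Agent.H822.LD

variable {B : Type} [NormedAddCommGroup B] [NormedSpace ℝ B] [FiniteDimensional ℝ B]
  {P : Type} [NormedAddCommGroup P] [NormedSpace ℝ P] [FiniteDimensional ℝ P]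
  {F : P → B × ℂ → ℝ}

omit [FiniteDimensional ℝ B] [FiniteDimensional ℝ P] in
theorem LongFamily.slice (hF : LongFamily F) (p : P) : ContDiff ℝ ∞ (F p) :=
  hF.smooth.comp (contDiff_const.prodMk contDiff_id)

omit [FiniteDimensional ℝ B] [FiniteDimensional ℝ P] in
theorem transverse_base {G : B × ℂ → ℝ} : Transverse G (toBase B) ↔
    ∀ q, G q = 0 → ∃ z : ℂ, fderiv ℝ G q (0, z) ≠ 0 := by
  constructor
  · intro h q hq
    obtain ⟨v, hv, hv'⟩ := h q hq
    rw [(toBase B).fderiv] at hv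
    have h1 : v = (0, v.2) := Prod.ext hv rfl
    rw [h1] at hv'
    exact ⟨v.2, hv'⟩
  · intro h q hq
    obtain ⟨z, hz⟩ := h q hq
    refine ⟨(0, z), ?_, hz⟩
    rw [(toBase B).fderiv]
    rfl

/-- **hypersurfaces transverse to the planes** -/
theorem exists_parallel [Nontrivial B] (hF : LongFamily F)
    (hT : ∀ p, Transverse (F p) (toBase B)) :
    ∃ φ : P → Equiv.Perm (B × ℂ), Diffs φ ∧ (∀ p, Parallel (planes B) (φ p)) ∧
      Straightens φ F := by
  let G : (P × B) × ℂ → ℝ := fun x => F x.1.1 (x.1.2, x.2)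
  have hG : ContDiff ℝ ∞ G := hF.smooth.comp ((contDiff_fst.comp contDiff_fst).prodMk
    ((contDiff_snd.comp contDiff_fst).prodMk contDiff_snd))
  have hslice : ∀ p b z (v : B × ℂ), fderiv ℝ (F p) (b, z) v
      = fderiv ℝ G ((p, b), z) ((0, v.1), v.2) := by
    intro p b z v
    have h1 : HasFDerivAt (fun q : B × ℂ => (((p, q.1), q.2) : (P × B) × ℂ))
        (((0 : B × ℂ →L[ℝ] P).prod (ContinuousLinearMap.fst ℝ B ℂ)).prod
          (ContinuousLinearMap.snd ℝ B ℂ)) (b, z) :=
      ((hasFDerivAt_const p _).prodMk hasFDerivAt_fst).prodMk hasFDerivAt_snd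
    have h2 : HasFDerivAt (F p) _ (b, z) :=
      HasFDerivAt.comp (g := G) (b, z) ((hG.differentiable (by simp) _).hasFDerivAt) h1
    rw [h2.fderiv]
    rfl
  obtain ⟨K, hK, hKoff⟩ := hF.flat
  obtain ⟨R, hR⟩ := hK.isBounded.exists_norm_le
  have hdata : HData G (max R 1) := by
    refine ⟨hG, lt_of_lt_of_le one_pos (le_max_right _ _), fun x hx => ?_, fun x hx => ?_⟩
    · refine hKoff _ _ fun hcon => ?_
      have h1 := hR _ hcon
      have h2 : ‖x‖ ≤ ‖((x.1.1, (x.1.2, x.2)) : P × (B × ℂ))‖ := by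
        rw [Prod.norm_def, Prod.norm_def, Prod.norm_def, Prod.norm_def]
        simp only
        rw [max_assoc]
      linarith [le_max_left R 1]
    · obtain ⟨⟨p, b⟩, z⟩ := x
      obtain ⟨v, hv⟩ := transverse_base.1 (hT p) (b, z) hx
      intro h0
      apply hv
      rw [hslice]
      have h1 := fderiv_plane G ((p, b), z) v
      rw [h0] at h1
      simp only [Complex.zero_re, Complex.zero_im, zero_mul, add_zero] at h1
      exact h1
  obtain ⟨Φ, hΦ, hΦ0⟩ := hdata.straighten
  have hD : DFam fun (p : P) (q : B × ℂ) => (q.1, Φ (p, q.1) q.2) := by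
    obtain ⟨K', hK', hoff'⟩ := hΦ.supp
    refine ⟨?_, fun p q v hv => ?_, (fun x : (P × B) × ℂ => (x.1.1, (x.1.2, x.2))) '' K',
      hK'.image (by fun_prop), fun p q hq => ?_⟩
    · exact (contDiff_fst.comp contDiff_snd).prodMk (hΦ.smooth.comp
        ((contDiff_fst.prodMk (contDiff_fst.comp contDiff_snd)).prodMk
          (contDiff_snd.comp contDiff_snd)))
    · refine fib_inj (c := fun b z => Φ (p, b) z) ?_ (fun b z w hw => hΦ.inj (p, b) z w hw) q v hv
      exact hΦ.smooth.comp ((contDiff_const.prodMk contDiff_fst).prodMk contDiff_snd)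
    · refine Prod.ext rfl (hoff' _ _ fun hcon => hq ⟨((p, q.1), q.2), hcon, rfl⟩)
  obtain ⟨φ, hφ, hφe⟩ := exists_diffs hD
  refine ⟨φ, hφ, fun p q => ?_, fun p q => ?_⟩
  · rw [hφe, LinearMap.mem_ker]
    exact sub_self q.1
  · rw [hφe]
    exact hΦ0 (p, q.1) q.2

omit [FiniteDimensional ℝ B] [FiniteDimensional ℝ P] in
theorem Diffs.comp_fderiv {M : Type} [NormedAddCommGroup M] [NormedSpace ℝ M]
    {φ : P → Equiv.Perm M} (h : Diffs φ) (p : P) (q : M) :
    (∀ v, fderiv ℝ (φ p).symm (φ p q) (fderiv ℝ (φ p) q v) = v) ∧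
    ∀ v, fderiv ℝ (φ p) q (fderiv ℝ (φ p).symm (φ p q) v) = v := by
  have h1 : ContDiff ℝ ∞ (φ p) := h.smooth.comp (contDiff_const.prodMk contDiff_id)
  have h2 : ContDiff ℝ ∞ (φ p).symm := h.smooth_inv.comp (contDiff_const.prodMk contDiff_id)
  have h3 : (fderiv ℝ (φ p).symm (φ p q)).comp (fderiv ℝ (φ p) q) = ContinuousLinearMap.id ℝ M := by
    have e1 := (h2.differentiable (by simp) (φ p q)).hasFDerivAt.comp q
      (h1.differentiable (by simp) q).hasFDerivAt
    have e2 : ((φ p).symm : M → M) ∘ (φ p) = id := funext (φ p).symm_apply_apply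
    rw [e2] at e1
    exact e1.unique (hasFDerivAt_id q)
  have h4 : (fderiv ℝ (φ p) q).comp (fderiv ℝ (φ p).symm (φ p q)) = ContinuousLinearMap.id ℝ M := by
    have e0 : HasFDerivAt (φ p) (fderiv ℝ (φ p) q) ((φ p).symm (φ p q)) := by
      rw [(φ p).symm_apply_apply]
      exact (h1.differentiable (by simp) q).hasFDerivAt
    have e1 := e0.comp (φ p q) (h2.differentiable (by simp) (φ p q)).hasFDerivAt
    have e2 : (φ p : M → M) ∘ (φ p).symm = id := funext (φ p).apply_symm_apply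
    rw [e2] at e1
    exact e1.unique (hasFDerivAt_id _)
  exact ⟨fun v => congrArg (fun T : M →L[ℝ] M => T v) h3,
    fun v => congrArg (fun T : M →L[ℝ] M => T v) h4⟩

omit [FiniteDimensional ℝ B] [FiniteDimensional ℝ P] in
/-- the normal direction -/
theorem normal_ne (hF : LongFamily F) {φ : P → Equiv.Perm (B × ℂ)} (hφ : Diffs φ)
    (hs : Straightens φ F) (p : P) {q : B × ℂ} (hq : q.2.re = 0) :
    fderiv ℝ (F p) (φ p q) (fderiv ℝ (φ p) q (0, 1)) ≠ 0 := by
  intro h0
  have h1 : ContDiff ℝ ∞ (φ p) := hφ.smooth.comp (contDiff_const.prodMk contDiff_id)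
  have hH : HasFDerivAt (fun x => F p (φ p x))
      ((fderiv ℝ (F p) (φ p q)).comp (fderiv ℝ (φ p) q)) q :=
    (((hF.slice p).differentiable (by simp) (φ p q)).hasFDerivAt).comp q
      (h1.differentiable (by simp) q).hasFDerivAt
  have hline : ∀ w : B × ℂ, w.2.re = 0 →
      fderiv ℝ (F p) (φ p q) (fderiv ℝ (φ p) q w) = 0 := by
    intro w hw
    have e1 : HasDerivAt (fun t : ℝ => q + t • w) w 0 := by
      have := ((hasDerivAt_id (0 : ℝ)).smul_const w).const_add q
      rwa [one_smul] at this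
    have e0 : HasFDerivAt (fun x => F p (φ p x))
        ((fderiv ℝ (F p) (φ p q)).comp (fderiv ℝ (φ p) q)) (q + (0 : ℝ) • w) := by
      rw [zero_smul, add_zero]
      exact hH
    have e2 := e0.comp_hasDerivAt 0 e1
    have e3 : ((fun x => F p (φ p x)) ∘ fun t : ℝ => q + t • w) = fun _ => 0 := by
      funext t
      refine (hs p _).2 ?_
      simp [hq, hw]
    rw [e3] at e2
    exact e2.unique (hasDerivAt_const _ _)
  apply hF.regular p (φ p q) ((hs p q).2 hq)
  refine ContinuousLinearMap.ext fun v => ?_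
  obtain ⟨-, hr⟩ := Diffs.comp_fderiv hφ p q
  set w := fderiv ℝ (φ p).symm (φ p q) v with hw
  have e1 : fderiv ℝ (φ p) q w = v := hr _
  have e2 : w = w.2.re • ((0, 1) : B × ℂ) + (w.1, ((w.2.im : ℝ) : ℂ) * Complex.I) := by
    refine Prod.ext (by simp) ?_
    apply Complex.ext <;> simp
  change fderiv ℝ (F p) (φ p q) v = 0
  rw [← e1, e2, map_add, map_smul, map_add, map_smul, h0, hline _ (by simp), smul_zero, add_zero]

omit [FiniteDimensional ℝ B] in
theorem finrank_planes : Module.finrank ℝ (planes B) ≤ 2 := by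
  have h1 : planes B = LinearMap.range (LinearMap.inr ℝ B ℂ) := by
    ext x
    constructor
    · intro hx
      have hx1 : x.1 = 0 := hx
      exact ⟨x.2, Prod.ext hx1.symm rfl⟩
    · rintro ⟨z, rfl⟩
      rfl
  rw [h1]
  have h2 := LinearMap.finrank_range_le (LinearMap.inr ℝ B ℂ)
  rwa [Complex.finrank_real_complex] at h2

/-- **transverse families** -/
theorem iff_parallel [Nontrivial B] (hF : LongFamily F) :
    (∀ p, Transverse (F p) (toBase B)) ↔
    ∃ φ : P → Equiv.Perm (B × ℂ), Diffs φ ∧ (∀ p, Parallel (planes B) (φ p)) ∧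
      HtpThrough (Parallel (planes B)) φ 1 ∧ Straightens φ F := by
  constructor
  · intro h
    obtain ⟨φ, h1, h2, h3⟩ := exists_parallel hF h
    have h4 : HtpThrough (Parallel (planes B)) φ 1 :=
      small_block (V := planes B) (finrank_planes (B := B)) h1 h2
    exact ⟨φ, h1, h2, h4, h3⟩
  · rintro ⟨φ, hφ, hp, -, hs⟩ p q hq
    set z := (φ p).symm q with hz
    have hqz : φ p z = q := (φ p).apply_symm_apply q
    have hre : z.2.re = 0 := by
      rw [← hs p z, hqz]
      exact hq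
    have h1 := normal_ne hF hφ hs p hre
    rw [hqz] at h1
    refine ⟨fderiv ℝ (φ p) z (0, 1), ?_, h1⟩
    rw [(toBase B).fderiv]
    have h2 : ContDiff ℝ ∞ (φ p) := hφ.smooth.comp (contDiff_const.prodMk contDiff_id)
    have h3 := (toBase B).hasFDerivAt.comp z (h2.differentiable (by simp) z).hasFDerivAt
    have h4 : (toBase B : B × ℂ → B) ∘ (φ p) = toBase B := by
      funext x
      have := hp p x
      rw [LinearMap.mem_ker] at this
      change (φ p x - x).1 = 0 at this
      exact sub_eq_zero.1 this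
    rw [h4] at h3
    have h5 := h3.unique (toBase B).hasFDerivAt
    have h6 := congrArg (fun T : B × ℂ →L[ℝ] B => T (0, 1)) h5
    exact h6

omit [FiniteDimensional ℝ B] [FiniteDimensional ℝ P] in
theorem submersions_of_unknotted (hF : LongFamily F) (h : Unknotted F) :
    HasSubmersions (toPlane B) F := by
  obtain ⟨φ, hφ, hs⟩ := h
  have hsymm : ∀ p, ContDiff ℝ ∞ (φ p).symm := fun p =>
    hφ.smooth_inv.comp (contDiff_const.prodMk contDiff_id)
  have hder : ∀ p q v, fderiv ℝ (fun q => toPlane B ((φ p).symm q)) q v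
      = toPlane B (fderiv ℝ (φ p).symm q v) := by
    intro p q v
    have h3 := (toPlane B).hasFDerivAt.comp q ((hsymm p).differentiable (by simp) q).hasFDerivAt
    have h4 : fderiv ℝ (fun q => toPlane B ((φ p).symm q)) q
        = (toPlane B).comp (fderiv ℝ (φ p).symm q) := h3.fderiv
    rw [h4]
    rfl
  refine ⟨fun p q => toPlane B ((φ p).symm q), (toPlane B).contDiff.comp hφ.smooth_inv, ?_,
    fun p q => ?_, fun p q hq => ?_⟩
  · obtain ⟨K, hK, hoff⟩ := hφ.supp
    refine ⟨K, hK, fun p q hq => ?_⟩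
    have h1 : (φ p).symm q = q := by
      conv_lhs => rw [← hoff p q hq]
      exact (φ p).symm_apply_apply q
    change toPlane B ((φ p).symm q) = toPlane B q
    rw [h1]
  · intro y
    have hqz : φ p ((φ p).symm q) = q := (φ p).apply_symm_apply q
    obtain ⟨hl, -⟩ := Diffs.comp_fderiv hφ p ((φ p).symm q)
    rw [hqz] at hl
    refine ⟨fderiv ℝ (φ p) ((φ p).symm q) (y.1, (y.2 : ℂ) * Complex.I), ?_⟩
    rw [hder, hl]
    refine Prod.ext rfl ?_
    change ((y.2 : ℂ) * Complex.I).im = y.2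
    simp
  · set z := (φ p).symm q with hz
    have hqz : φ p z = q := (φ p).apply_symm_apply q
    have hre : z.2.re = 0 := by
      rw [← hs p z, hqz]
      exact hq
    have h1 := normal_ne hF hφ hs p hre
    obtain ⟨hl, -⟩ := Diffs.comp_fderiv hφ p z
    rw [hqz] at h1 hl
    refine ⟨fderiv ℝ (φ p) z (0, 1), ?_, h1⟩
    rw [hder, hl]
    refine Prod.ext rfl ?_
    change (1 : ℂ).im = 0
    simp

omit [FiniteDimensional ℝ B] [FiniteDimensional ℝ P] in
theorem base_of_plane (h : HasSubmersions (toPlane B) F) : HasSubmersions (toBase B) F := by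
  obtain ⟨f, h1, ⟨K, hK, h2⟩, h3, h4⟩ := h
  have hf : ∀ p, ContDiff ℝ ∞ (f p) := fun p => h1.comp (contDiff_const.prodMk contDiff_id)
  have hder : ∀ p q v, fderiv ℝ (fun q => (f p q).1) q v = (fderiv ℝ (f p) q v).1 := by
    intro p q v
    have e1 : HasFDerivAt (fun q => (f p q).1)
        ((ContinuousLinearMap.fst ℝ B ℝ).comp (fderiv ℝ (f p) q)) q :=
      (ContinuousLinearMap.fst ℝ B ℝ).hasFDerivAt.comp q
        ((hf p).differentiable (by simp) q).hasFDerivAt
    rw [e1.fderiv]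
    rfl
  refine ⟨fun p q => (f p q).1, contDiff_fst.comp h1, ⟨K, hK, fun p q hq => congrArg Prod.fst (h2 p q hq)⟩,
    fun p q y => ?_, fun p q hq => ?_⟩
  · obtain ⟨v, hv⟩ := h3 p q (y, 0)
    refine ⟨v, ?_⟩
    rw [hder, hv]
  · obtain ⟨v, hv, hv'⟩ := h4 p q hq
    refine ⟨v, ?_, hv'⟩
    rw [hder, hv]
    rfl

theorem unknotted_of_submersions [Nontrivial B] (hF : LongFamily F)
    (h : HasSubmersions (toBase B) F) : Unknotted F := by
  obtain ⟨f, h1, h2, h3, h4⟩ := h
  obtain ⟨φ₀, hφ₀, hφf⟩ := realize (F := f) ⟨h1, h3, h2⟩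
  obtain ⟨φ, hφ, hφe⟩ := exists_diffs hφ₀
  have hfφ : ∀ p z, f p (φ p z) = z.1 := fun p z => by rw [hφe, hφf]
  have hfs : ∀ p, ContDiff ℝ ∞ (f p) := fun p => h1.comp (contDiff_const.prodMk contDiff_id)
  have hφs : ∀ p, ContDiff ℝ ∞ (φ p) := fun p =>
    hφ.smooth.comp (contDiff_const.prodMk contDiff_id)
  let G : P → B × ℂ → ℝ := fun p z => F p (φ p z)
  have hGs : ContDiff ℝ ∞ (fun x : P × (B × ℂ) => G x.1 x.2) :=
    hF.smooth.comp (contDiff_fst.prodMk hφ.smooth)
  have hGd : ∀ p z w, fderiv ℝ (G p) z w = fderiv ℝ (F p) (φ p z) (fderiv ℝ (φ p) z w) := by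
    intro p z w
    have e1 : HasFDerivAt (G p) ((fderiv ℝ (F p) (φ p z)).comp (fderiv ℝ (φ p) z)) z :=
      (((hF.slice p).differentiable (by simp) (φ p z)).hasFDerivAt).comp z
        ((hφs p).differentiable (by simp) z).hasFDerivAt
    rw [e1.fderiv]
    rfl
  have hkey : ∀ p z, G p z = 0 → ∃ w : B × ℂ, w.1 = 0 ∧ fderiv ℝ (G p) z w ≠ 0 := by
    intro p z hz
    obtain ⟨v, hv, hv'⟩ := h4 p (φ p z) hz
    obtain ⟨-, hr⟩ := Diffs.comp_fderiv hφ p z
    refine ⟨fderiv ℝ (φ p).symm (φ p z) v, ?_, ?_⟩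
    · have e1 : HasFDerivAt (fun z => f p (φ p z))
          ((fderiv ℝ (f p) (φ p z)).comp (fderiv ℝ (φ p) z)) z :=
        (((hfs p).differentiable (by simp) (φ p z)).hasFDerivAt).comp z
          ((hφs p).differentiable (by simp) z).hasFDerivAt
      have e2 : (fun z => f p (φ p z)) = fun z : B × ℂ => z.1 := funext (hfφ p)
      rw [e2] at e1
      have e3 := e1.unique (hasFDerivAt_fst (𝕜 := ℝ) (p := z))
      have e4 := congrArg (fun T : B × ℂ →L[ℝ] B => T (fderiv ℝ (φ p).symm (φ p z) v)) e3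
      change fderiv ℝ (f p) (φ p z) (fderiv ℝ (φ p) z (fderiv ℝ (φ p).symm (φ p z) v))
        = (fderiv ℝ (φ p).symm (φ p z) v).1 at e4
      rw [← e4, hr, hv]
    · rw [hGd, hr]
      exact hv'
  have hG : LongFamily G := by
    obtain ⟨K, hK, hoff⟩ := hF.flat
    obtain ⟨K', hK', hoff'⟩ := hφ.supp
    refine ⟨hGs, ⟨K ∪ K', hK.union hK', fun p q hq => ?_⟩, fun p q hq h0 => ?_⟩
    · rw [mem_union, not_or] at hq
      change F p (φ p q) = q.2.re
      rw [hoff' p q hq.2, hoff p q hq.1]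
    · obtain ⟨w, -, hw⟩ := hkey p q hq
      rw [h0] at hw
      exact hw rfl
  have hT : ∀ p, Transverse (G p) (toBase B) := by
    intro p
    rw [transverse_base]
    intro q hq
    obtain ⟨w, hw1, hw2⟩ := hkey p q hq
    refine ⟨w.2, ?_⟩
    have : w = (0, w.2) := Prod.ext hw1 rfl
    rwa [this] at hw2
  obtain ⟨ψ, hψ, -, hs⟩ := exists_parallel hG hT
  exact ⟨φ * ψ, hφ.mul hψ, fun p q => hs p q⟩

/-- **the theorem** -/
theorem tfae [Nontrivial B] (hF : LongFamily F) : List.TFAE [Unknotted F,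
    HasSubmersions (toBase B) F, HasSubmersions (toPlane B) F] := by
  tfae_have 1 → 3 := submersions_of_unknotted hF
  tfae_have 3 → 2 := base_of_plane
  tfae_have 2 → 1 := unknotted_of_submersions hF
  tfae_finish

end Pool.Agent.H822.TH
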