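import Pool.Agent.H822.TH.One

/-!
# One-sided functions and null-homotopic families of long hypersurfaces
-/

set_option autoImplicit false

open scoped ContDiff Manifold
open Set Filter Topology Function Metric

namespace Pool.Agent.H822.TH

open Pool.Agent.H822.SM Pool.Agent.H822.LD

variable {B : Type} [NormedAddCommGroup B] [NormedSpace ℝ B] [FiniteDimensional ℝ B]
  {P : Type} [NormedAddCommGroup P] [NormedSpace ℝ P] [FiniteDimensional ℝ P]
  {F f : P → B × ℂ → ℝ} {μ : B × ℂ →L[ℝ] ℝ}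

theorem null_of_field_aux [Nontrivial B] (hF : LongFamily F) {V : P → B × ℂ → B × ℂ} {R : ℝ}
    (hfam : VFam (dn B) V R) (hVp : ∀ p z, R < ‖p‖ → V p z = dn B)
    (hFR : ∀ p z, R < ‖z‖ → F p z = z.2.re)
    (hVF : ∀ p z, F p z = 0 → fderiv ℝ (F p) z (V p z) ≠ 0) : NullHomotopic F := by
  obtain ⟨G, hG, hG1, hGT⟩ := exists_push hF hfam hVp hFR hVF
  have hGs : ∀ p, ContDiff ℝ ∞ (G p) := fun p =>
    hG.smooth.comp (contDiff_const.prodMk contDiff_id)
  have hF' : LongFamily fun p z => F p (G p z) := by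
    obtain ⟨K, hK, hoff⟩ := hF.flat
    obtain ⟨K', hK', hoff'⟩ := hG.supp
    refine ⟨hF.smooth.comp (contDiff_fst.prodMk hG.smooth), ⟨K ∪ K', hK.union hK',
      fun p q hq => ?_⟩, fun p q hq h0 => ?_⟩
    · rw [mem_union, not_or] at hq
      rw [hoff' p q hq.2, hoff p q hq.1]
    · apply hGT p q hq
      rw [h0]
      rfl
  have hT : ∀ p, Transverse (fun z => F p (G p z)) (toBase B) := by
    intro p
    rw [transverse_base]
    exact fun q hq => ⟨-1, hGT p q hq⟩
  obtain ⟨ψ, hψ, hψp, hs⟩ := exists_parallel hF' hT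
  have h4 : HtpThrough (Parallel (planes B)) ψ 1 :=
    small_block (V := planes B) (finrank_planes (B := B)) hψ hψp
  have h5 : Htp ψ 1 := h4.mono fun _ _ => trivial
  refine ⟨G * ψ, hG.mul hψ, ?_, fun p q => hs p q⟩
  have h6 := hG1.mul h5
  rwa [mul_one] at h6

theorem null_of_oneSided_aux [Nontrivial B] (hF : LongFamily F) (h : OneSided μ F f)
    (hμ : 0 < μ (dn B)) : NullHomotopic F := by
  obtain ⟨V, R, hR, hVs, hVf, hVF, hVz, hVp, hFR⟩ := exists_field1 hF h hμ
  exact null_of_field_aux hF ⟨hR, hVs, hVz, nt_of_function hVs h.smooth hVf⟩ hVp hFR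
    fun p z hz => (hVF p z hz).ne

omit [FiniteDimensional ℝ B] [FiniteDimensional ℝ P] in
/-- conjugation by a shear -/
theorem null_of_shear {u : B × ℂ} (hu : u.2.re = 0)
    (h : NullHomotopic fun p (q : B × ℂ) => F p (q + q.2.re • u)) : NullHomotopic F := by
  obtain ⟨φ, hφ, ⟨H, K, hK, k1, k2, k3, k4, k5, -⟩, hs⟩ := h
  let L : B × ℂ ≃ B × ℂ :=
    { toFun := fun q => q + q.2.re • u
      invFun := fun q => q - q.2.re • u
      left_inv := fun q => by
        have : (q + q.2.re • u).2.re = q.2.re := by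
          simp [hu]
        simp only [this, add_sub_cancel_right]
      right_inv := fun q => by
        have : (q - q.2.re • u).2.re = q.2.re := by
          simp [hu]
        simp only [this, sub_add_cancel] }
  have hre : ContDiff ℝ ∞ (fun q : B × ℂ => q.2.re) := (reL B).contDiff
  have hL : ContDiff ℝ ∞ L := contDiff_id.add (hre.smul contDiff_const)
  have hL' : ContDiff ℝ ∞ L.symm := contDiff_id.sub (hre.smul contDiff_const)
  let c : Equiv.Perm (B × ℂ) → Equiv.Perm (B × ℂ) := fun g => (L.symm.trans g).trans L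
  have hc : ∀ g x, c g x = L (g (L.symm x)) := fun g x => rfl
  have hc' : ∀ g x, (c g).symm x = L (g.symm (L.symm x)) := fun g x => rfl
  have hc1 : c 1 = 1 := by
    ext1 x
    rw [hc]
    exact L.apply_symm_apply x
  let K' : Set (P × (B × ℂ)) := (fun x : P × (B × ℂ) => (x.1, L x.2)) '' K
  have hK' : IsCompact K' := hK.image (continuous_fst.prodMk (hL.continuous.comp continuous_snd))
  have hoffc : ∀ p x, (p, x) ∉ K' → (p, L.symm x) ∉ K := by
    intro p x hx hcon
    exact hx ⟨(p, L.symm x), hcon, Prod.ext rfl (L.apply_symm_apply x)⟩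
  refine ⟨fun p => c (φ p), ?_, ?_, fun p q => ?_⟩
  · obtain ⟨K₀, hK₀, hoff₀⟩ := hφ.supp
    refine ⟨?_, ?_, (fun x : P × (B × ℂ) => (x.1, L x.2)) '' K₀,
      hK₀.image (continuous_fst.prodMk (hL.continuous.comp continuous_snd)), fun p x hx => ?_⟩
    · exact hL.comp (hφ.smooth.comp (contDiff_fst.prodMk (hL'.comp contDiff_snd)))
    · exact hL.comp (hφ.smooth_inv.comp (contDiff_fst.prodMk (hL'.comp contDiff_snd)))
    · rw [hc, hoff₀ p _ fun hcon => hx ⟨(p, L.symm x), hcon, Prod.ext rfl (L.apply_symm_apply x)⟩]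
      exact L.apply_symm_apply x
  · refine ⟨fun y => c (H y), K', hK', ?_, ?_, fun s p x hx => ?_, fun p => ?_, fun p => ?_,
      fun _ => trivial⟩
    · exact hL.comp (k1.comp (contDiff_fst.prodMk (hL'.comp contDiff_snd)))
    · exact hL.comp (k2.comp (contDiff_fst.prodMk (hL'.comp contDiff_snd)))
    · change c (H (s, p)) x = x
      rw [hc, k3 s p _ (hoffc p x hx)]
      exact L.apply_symm_apply x
    · change c (H (0, p)) = c (φ p)
      rw [k4]
    · change c (H (1, p)) = _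
      rw [k5]
      exact hc1
  · have h1 := hs p (L.symm q)
    have h2 : (L.symm q).2.re = q.2.re := by
      change (q - q.2.re • u).2.re = q.2.re
      simp [hu]
    rw [h2] at h1
    exact h1

omit [FiniteDimensional ℝ B] in
/-- composition with a shear -/
theorem fderiv_shear {G : B × ℂ → ℝ} (hG : ContDiff ℝ ∞ G) (u q v : B × ℂ) :
    fderiv ℝ (fun q : B × ℂ => G (q + q.2.re • u)) q v
      = fderiv ℝ G (q + q.2.re • u) (v + v.2.re • u) := by
  have h1 : HasFDerivAt (fun q : B × ℂ => q + q.2.re • u)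
      (ContinuousLinearMap.id ℝ (B × ℂ) + (reL B).smulRight u) q :=
    (hasFDerivAt_id q).add (((reL B).hasFDerivAt).smul_const u)
  have h2 := ((hG.differentiable (by simp) (q + q.2.re • u)).hasFDerivAt).comp q h1
  have h3 : fderiv ℝ (fun q : B × ℂ => G (q + q.2.re • u)) q = _ := h2.fderiv
  rw [h3]
  rfl

set_option linter.unusedSectionVars false in
/-- a point of the hyperplane near infinity -/
theorem exists_far {K : Set (P × (B × ℂ))} (hK : IsCompact K) :
    ∃ q₀ : B × ℂ, q₀.2.re = 0 ∧ ((0, q₀) : P × (B × ℂ)) ∉ K := by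
  obtain ⟨ρ, hρ⟩ := hK.isBounded.exists_norm_le
  refine ⟨(0, ((|ρ| + 1 : ℝ) : ℂ) * Complex.I), by simp, fun hcon => ?_⟩
  set q₀ : B × ℂ := (0, ((|ρ| + 1 : ℝ) : ℂ) * Complex.I) with hq₀
  have h1 := hρ _ hcon
  have h2 : |ρ| + 1 ≤ ‖((0, q₀) : P × (B × ℂ))‖ := by
    refine le_trans ?_ ((norm_snd_le q₀).trans (norm_snd_le ((0, q₀) : P × (B × ℂ))))
    change |ρ| + 1 ≤ ‖((|ρ| + 1 : ℝ) : ℂ) * Complex.I‖
    rw [norm_mul, Complex.norm_I, mul_one, Complex.norm_real, Real.norm_eq_abs]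
    exact le_abs_self _
  have := le_abs_self ρ
  linarith

set_option linter.unusedSectionVars false in
theorem shear_compact {u : B × ℂ} (hure : u.2.re = 0) {K : Set (P × (B × ℂ))}
    (hK : IsCompact K) : ∃ K' : Set (P × (B × ℂ)), IsCompact K' ∧
      ∀ p q, (p, q) ∉ K' → (p, q + q.2.re • u) ∉ K := by
  have hc : Continuous (fun x : P × (B × ℂ) => (x.1, x.2 - x.2.2.re • u)) :=
    continuous_fst.prodMk (continuous_snd.sub ((Complex.continuous_re.comp
      (continuous_snd.comp continuous_snd)).smul continuous_const))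
  refine ⟨_, hK.image hc, fun p q hq hcon => hq ⟨_, hcon, ?_⟩⟩
  refine Prod.ext rfl ?_
  change (q + q.2.re • u) - (q + q.2.re • u).2.re • u = q
  have : (q + q.2.re • u).2.re = q.2.re := by simp [hure]
  rw [this, add_sub_cancel_right]

set_option linter.unusedSectionVars false in
theorem long_shear {u : B × ℂ} (hure : u.2.re = 0) (hF : LongFamily F) :
    LongFamily fun p (q : B × ℂ) => F p (q + q.2.re • u) := by
  obtain ⟨K₁, hK₁, hoff₁⟩ := hF.flat
  obtain ⟨K', hK', hoff'⟩ := shear_compact (P := P) hure hK₁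
  set M : B × ℂ →L[ℝ] B × ℂ := ContinuousLinearMap.id ℝ (B × ℂ) + (reL B).smulRight u with hM
  have hsm : ContDiff ℝ ∞ (fun x : P × (B × ℂ) => (x.1, x.2 + x.2.2.re • u)) :=
    contDiff_fst.prodMk (M.contDiff.comp contDiff_snd)
  refine ⟨hF.smooth.comp hsm, ⟨K', hK', fun p q hq => ?_⟩, fun p q hq h0 => ?_⟩
  · rw [hoff₁ p _ (hoff' p q hq)]
    simp [hure]
  · refine hF.regular p _ hq (ContinuousLinearMap.ext fun v => ?_)
    have e1 := fderiv_shear (hF.slice p) u q (v - v.2.re • u)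
    have e2 : (v - v.2.re • u) + (v - v.2.re • u).2.re • u = v := by
      have : (v - v.2.re • u).2.re = v.2.re := by simp [hure]
      rw [this, sub_add_cancel]
    rw [e2, h0] at e1
    exact e1.symm

/-- **vector fields without bounded orbits** -/
theorem null_of_field [Nontrivial B] (hF : LongFamily F) (h : HasFields F) : NullHomotopic F := by
  obtain ⟨e, V, hVs, ⟨K, hK, hVoff⟩, hnt, hVF⟩ := h
  obtain ⟨K₁, hK₁, hoff₁⟩ := hF.flat
  have he : e.2.re ≠ 0 := by
    obtain ⟨q₀, hre0, hn⟩ := exists_far (P := P) (B := B) (hK₁.union hK)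
    rw [mem_union, not_or] at hn
    have hd₁ : fderiv ℝ (F 0) q₀ = reL B := fderiv_flat (ν := reL B) hK₁ hoff₁ hn.1
    have h1 := hVF 0 q₀ (by rw [hoff₁ 0 q₀ hn.1, hre0])
    rw [hd₁, hVoff 0 q₀ hn.2] at h1
    exact h1
  set a : ℝ := (-e.2.re)⁻¹ with ha
  have ha0 : a ≠ 0 := inv_ne_zero (neg_ne_zero.2 he)
  have hae : (a • e).2.re = -1 := by
    change (a • e.2).re = -1
    rw [Complex.smul_re, smul_eq_mul, ha, inv_neg, neg_mul, inv_mul_cancel₀ he]
  set u : B × ℂ := dn B - a • e with hu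
  have hure : u.2.re = 0 := by
    change (dn B).2.re - (a • e).2.re = 0
    rw [hae]
    simp
  have hinv : ∀ v : B × ℂ, (v - v.2.re • u) + (v - v.2.re • u).2.re • u = v := by
    intro v
    have : (v - v.2.re • u).2.re = v.2.re := by simp [hure]
    rw [this, sub_add_cancel]
  refine null_of_shear hure ?_
  set M : B × ℂ →L[ℝ] B × ℂ := ContinuousLinearMap.id ℝ (B × ℂ) + (reL B).smulRight u with hM
  set N : B × ℂ →L[ℝ] B × ℂ := ContinuousLinearMap.id ℝ (B × ℂ) - (reL B).smulRight u with hN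
  have hMe : ∀ q, M q = q + q.2.re • u := fun q => rfl
  have hNe : ∀ q, N q = q - q.2.re • u := fun q => rfl
  have hMN : ∀ v, M (N v) = v := fun v => hinv v
  have hNae : N (a • e) = dn B := by
    rw [hNe, hae, neg_smul, one_smul, sub_neg_eq_add, hu]
    abel
  have hsm : ContDiff ℝ ∞ (fun x : P × (B × ℂ) => (x.1, M x.2)) :=
    contDiff_fst.prodMk (M.contDiff.comp contDiff_snd)
  let V' : P → B × ℂ → B × ℂ := fun p q => N (a • V p (M q))
  have hVM : ContDiff ℝ ∞ (fun x : P × (B × ℂ) => V x.1 (M x.2)) := hVs.comp hsm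
  have hVa : ContDiff ℝ ∞ (fun x : P × (B × ℂ) => a • V x.1 (M x.2)) := hVM.const_smul a
  have hV's : ContDiff ℝ ∞ (fun x : P × (B × ℂ) => V' x.1 x.2) := N.contDiff.comp hVa
  obtain ⟨K', hK', hoff'⟩ := shear_compact (P := P) hure hK
  obtain ⟨K₁', hK₁', hoff₁'⟩ := (long_shear hure hF).flat
  obtain ⟨ρ, hρ⟩ := (hK'.union hK₁').isBounded.exists_norm_le
  set R : ℝ := max ρ 1 with hR
  have hR0 : 0 < R := lt_of_lt_of_le one_pos (le_max_right _ _)
  have hbig : ∀ (p : P) (z : B × ℂ), (R < ‖p‖ ∨ R < ‖z‖) → (p, z) ∉ K' ∪ K₁' := by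
    intro p z hz hcon
    have h1 := hρ _ hcon
    have h2 := norm_fst_le (p, z)
    have h3 := norm_snd_le (p, z)
    have h4 : ρ ≤ R := le_max_left _ _
    rcases hz with hz | hz
    · change ‖p‖ ≤ ‖(p, z)‖ at h2
      linarith
    · change ‖z‖ ≤ ‖(p, z)‖ at h3
      linarith
  have hV'off : ∀ (p : P) (z : B × ℂ), (R < ‖p‖ ∨ R < ‖z‖) → V' p z = dn B := by
    intro p z hz
    have h1 := hbig p z hz
    rw [mem_union, not_or] at h1
    change N (a • V p (M z)) = dn B
    rw [hVoff p (M z) (hoff' p z h1.1), hNae]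
  refine null_of_field_aux (V := V') (R := R) (long_shear hure hF)
    ⟨hR0, hV's, fun p z hz => hV'off p z (Or.inr hz), fun p γ hγ hb => ?_⟩
    (fun p z hz => hV'off p z (Or.inl hz)) (fun p z hz => ?_) fun p z hz => ?_
  · -- no bounded orbits
    refine hnt p (fun t => M (γ (a⁻¹ * t))) (fun t => ?_) ?_
    · have h1 : HasDerivAt (fun t : ℝ => a⁻¹ * t) a⁻¹ t := by
        simpa using (hasDerivAt_id t).const_mul a⁻¹
      have h2 := (hγ (a⁻¹ * t)).scomp t h1
      have h3 := M.hasFDerivAt.comp_hasDerivAt t h2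
      have h4 : M (a⁻¹ • V' p (γ (a⁻¹ * t))) = V p (M (γ (a⁻¹ * t))) := by
        change M (a⁻¹ • N (a • V p (M (γ (a⁻¹ * t))))) = _
        rw [← map_smul, smul_smul, inv_mul_cancel₀ ha0, one_smul, hMN]
      rw [h4] at h3
      exact h3
    · have hproper : ProperSpace (B × ℂ) := FiniteDimensional.proper_real _
      obtain ⟨C, hC⟩ := hb.exists_norm_le
      refine (((isCompact_closedBall (0 : B × ℂ) C).image M.continuous).isBounded).subset ?_
      rintro _ ⟨t, rfl⟩
      exact ⟨γ (a⁻¹ * t), by simpa using hC _ ⟨_, rfl⟩, rfl⟩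
  · have h1 := hbig p z (Or.inr hz)
    rw [mem_union, not_or] at h1
    exact hoff₁' p z h1.2
  · have e1 := fderiv_shear (hF.slice p) u z (V' p z)
    have e2 : V' p z + (V' p z).2.re • u = a • V p (M z) := hMN _
    rw [e2, map_smul, smul_eq_mul] at e1
    rw [e1]
    exact mul_ne_zero ha0 (hVF p _ hz)

omit [FiniteDimensional ℝ P] in
theorem fields_of_unknotted (hF : LongFamily F) (h : Unknotted F) : HasFields F := by
  obtain ⟨φ, hφ, hs⟩ := h
  have hφs : ∀ p, ContDiff ℝ ∞ (φ p) := fun p =>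
    hφ.smooth.comp (contDiff_const.prodMk contDiff_id)
  have hsymm : ∀ p, ContDiff ℝ ∞ (φ p).symm := fun p =>
    hφ.smooth_inv.comp (contDiff_const.prodMk contDiff_id)
  have hD : ∀ p z v, fderiv ℝ (fun x : P × (B × ℂ) => φ x.1 x.2) (p, z) (0, v)
      = fderiv ℝ (φ p) z v := fun p z v =>
    (BK.fderiv_slice (Φ := fun p z => φ p z) hφ.smooth p z v).symm
  refine ⟨(0, 1), fun p y => fderiv ℝ (φ p) ((φ p).symm y) (0, 1), ?_, ?_,
    fun p γ hγ hb => ?_, fun p q hq => ?_⟩
  · have h1 : ContDiff ℝ ∞ fun x : P × (B × ℂ) =>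
        fderiv ℝ (fun x : P × (B × ℂ) => φ x.1 x.2) (x.1, (φ x.1).symm x.2) (0, (0, 1)) :=
      ((hφ.smooth.fderiv_right (m := ∞) (by simp)).comp
        (contDiff_fst.prodMk hφ.smooth_inv)).clm_apply contDiff_const
    have h2 : (fun x : P × (B × ℂ) => fderiv ℝ (φ x.1) ((φ x.1).symm x.2) (0, 1)) =
        fun x : P × (B × ℂ) =>
        fderiv ℝ (fun x : P × (B × ℂ) => φ x.1 x.2) (x.1, (φ x.1).symm x.2) (0, (0, 1)) :=
      funext fun x => (hD x.1 _ _).symm
    rw [h2]
    exact h1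
  · obtain ⟨K, hK, hoff⟩ := hφ.supp
    refine ⟨K, hK, fun p q hq => ?_⟩
    have h1 : (φ p).symm q = q := by
      rw [Equiv.symm_apply_eq, hoff p q hq]
    have h2 : φ p =ᶠ[𝓝 q] id := by
      have h3 : ∀ᶠ w in 𝓝 q, (p, w) ∉ K :=
        (Continuous.tendsto (by fun_prop : Continuous fun w : B × ℂ => (p, w)) q).eventually
          (hK.isClosed.isOpen_compl.mem_nhds hq)
      filter_upwards [h3] with w hw using hoff p w hw
    change fderiv ℝ (φ p) ((φ p).symm q) (0, 1) = (0, 1)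
    rw [h1, h2.fderiv_eq, fderiv_id]
    rfl
  · -- the orbits are images of lines
    have h1 : ∀ t, HasDerivAt (fun t => (φ p).symm (γ t)) ((0, 1) : B × ℂ) t := by
      intro t
      have e1 := ((hsymm p).differentiable (by simp) (γ t)).hasFDerivAt.comp_hasDerivAt t (hγ t)
      obtain ⟨hl, -⟩ := Diffs.comp_fderiv hφ p ((φ p).symm (γ t))
      rw [(φ p).apply_symm_apply] at hl
      rw [hl] at e1
      exact e1
    have hproper : ProperSpace (B × ℂ) := FiniteDimensional.proper_real _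
    obtain ⟨C, hC⟩ := hb.exists_norm_le
    obtain ⟨C', hC'⟩ := ((isCompact_closedBall (0 : B × ℂ) C).image
      (hsymm p).continuous).isBounded.exists_norm_le
    have h2 : ∀ t, HasDerivAt (fun t => ((φ p).symm (γ t)).2.re - t) 0 t := by
      intro t
      have e1 := (reL B).hasFDerivAt.comp_hasDerivAt t (h1 t)
      have e2 : (reL B) ((0, 1) : B × ℂ) = 1 := by
        change (1 : ℂ).re = 1
        simp
      rw [e2] at e1
      have e3 := e1.sub (hasDerivAt_id t)
      rw [sub_self] at e3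
      exact e3
    have h3 := is_const_of_deriv_eq_zero (fun s => (h2 s).differentiableAt)
      (fun s => (h2 s).deriv) (2 * |C'| + 1) 0
    simp only [sub_zero] at h3
    have hb' : ∀ t, |((φ p).symm (γ t)).2.re| ≤ |C'| := fun t =>
      ((Complex.abs_re_le_norm _).trans ((norm_snd_le _).trans
        (hC' _ ⟨γ t, by simpa using hC _ ⟨t, rfl⟩, rfl⟩))).trans (le_abs_self C')
    have h4 := abs_le.1 (hb' (2 * |C'| + 1))
    have h5 := abs_le.1 (hb' 0)
    linarith [h4.2, h5.1, abs_nonneg C']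
  · have hqz : φ p ((φ p).symm q) = q := (φ p).apply_symm_apply q
    have hre : ((φ p).symm q).2.re = 0 := by
      rw [← hs p _, hqz]
      exact hq
    have h1 := normal_ne hF hφ hs p hre
    rw [hqz] at h1
    exact h1

theorem null_of_oneSided [Nontrivial B] (hF : LongFamily F) (h : OneSided μ F f) :
    NullHomotopic F := by
  -- a point of the hyperplane near infinity
  obtain ⟨K₁, hK₁, hoff₁⟩ := hF.flat
  obtain ⟨K₂, hK₂, hoff₂⟩ := h.flat
  obtain ⟨ρ, hρ⟩ := (hK₁.union hK₂).isBounded.exists_norm_le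
  set q₀ : B × ℂ := (0, ((|ρ| + 1 : ℝ) : ℂ) * Complex.I) with hq₀
  have hn : ((0, q₀) : P × (B × ℂ)) ∉ K₁ ∪ K₂ := by
    intro hcon
    have h1 := hρ _ hcon
    have h2 : |ρ| + 1 ≤ ‖((0, q₀) : P × (B × ℂ))‖ := by
      refine le_trans ?_ ((norm_snd_le q₀).trans (norm_snd_le ((0, q₀) : P × (B × ℂ))))
      change |ρ| + 1 ≤ ‖((|ρ| + 1 : ℝ) : ℂ) * Complex.I‖
      rw [norm_mul, Complex.norm_I, mul_one, Complex.norm_real, Real.norm_eq_abs]
      exact le_abs_self _
    have := le_abs_self ρ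
    linarith
  rw [mem_union, not_or] at hn
  have hre0 : q₀.2.re = 0 := by simp [hq₀]
  have hd₁ : fderiv ℝ (F 0) q₀ = reL B := fderiv_flat (ν := reL B) hK₁ hoff₁ hn.1
  have hd₂ : fderiv ℝ (f 0) q₀ = μ := fderiv_flat hK₂ hoff₂ hn.2
  have hF0 : F 0 q₀ = 0 := by rw [hoff₁ 0 q₀ hn.1, hre0]
  obtain ⟨w, hw1, hw2⟩ : ∃ w, (reL B) w < 0 ∧ 0 < μ w := by
    have e1 := hF.regular 0 q₀ hF0
    have e2 := h.regular 0 q₀
    have e3 := h.oneSided 0 q₀ hF0
    rw [hd₁] at e1
    rw [hd₂] at e2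
    rw [hd₁, hd₂] at e3
    exact exists_vec e1 e2 e3
  have hw1' : w.2.re < 0 := hw1
  set s : ℝ := -w.2.re with hs
  have hs0 : 0 < s := by linarith
  set u : B × ℂ := -((1 / s) • (w + (0, (s : ℂ)))) with hu
  have hure : u.2.re = 0 := by
    simp [hu, hs]
  have hμu : 0 < μ (dn B + (dn B).2.re • u) := by
    have e1 : dn B + (dn B).2.re • u = (1 / s) • w := by
      have e2 : ((dn B).2).re = -1 := by simp
      rw [e2, hu, neg_smul, one_smul, neg_neg, smul_add]
      have e3 : (1 / s) • ((0, (s : ℂ)) : B × ℂ) = -dn B := by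
        refine Prod.ext (by simp) ?_
        change (1 / s) • (s : ℂ) = -(-1)
        rw [Complex.real_smul, neg_neg]
        push_cast
        rw [one_div, inv_mul_cancel₀ (Complex.ofReal_ne_zero.2 hs0.ne')]
      rw [e3]
      abel
    rw [e1, map_smul, smul_eq_mul]
    positivity
  refine null_of_shear hure ?_
  set M : B × ℂ →L[ℝ] B × ℂ := ContinuousLinearMap.id ℝ (B × ℂ) + (reL B).smulRight u with hM
  have hMe : ∀ q, M q = q + q.2.re • u := fun q => rfl
  have hMre : ∀ q : B × ℂ, (q + q.2.re • u).2.re = q.2.re := fun q => by simp [hure]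
  have hMinv : ∀ v : B × ℂ, (v - v.2.re • u) + (v - v.2.re • u).2.re • u = v := by
    intro v
    have : (v - v.2.re • u).2.re = v.2.re := by simp [hure]
    rw [this, sub_add_cancel]
  have hcpt : ∀ K : Set (P × (B × ℂ)), IsCompact K → ∃ K' : Set (P × (B × ℂ)), IsCompact K' ∧
      ∀ p q, (p, q) ∉ K' → (p, q + q.2.re • u) ∉ K := by
    intro K hK
    have hc : Continuous (fun x : P × (B × ℂ) => (x.1, x.2 - x.2.2.re • u)) :=
      continuous_fst.prodMk (continuous_snd.sub ((Complex.continuous_re.comp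
        (continuous_snd.comp continuous_snd)).smul continuous_const))
    refine ⟨_, hK.image hc, fun p q hq hcon => hq ⟨_, hcon, ?_⟩⟩
    refine Prod.ext rfl ?_
    change (q + q.2.re • u) - (q + q.2.re • u).2.re • u = q
    rw [hMre, add_sub_cancel_right]
  have hsm : ContDiff ℝ ∞ (fun x : P × (B × ℂ) => (x.1, x.2 + x.2.2.re • u)) :=
    contDiff_fst.prodMk (M.contDiff.comp contDiff_snd)
  have hf : ∀ p, ContDiff ℝ ∞ (f p) := fun p => h.smooth.comp (contDiff_const.prodMk contDiff_id)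
  have hF' : LongFamily fun p (q : B × ℂ) => F p (q + q.2.re • u) := by
    obtain ⟨K', hK', hoff'⟩ := hcpt K₁ hK₁
    refine ⟨hF.smooth.comp hsm, ⟨K', hK', fun p q hq => ?_⟩, fun p q hq h0 => ?_⟩
    · rw [hoff₁ p _ (hoff' p q hq), hMre]
    · refine hF.regular p _ hq (ContinuousLinearMap.ext fun v => ?_)
      have e1 := fderiv_shear (hF.slice p) u q (v - v.2.re • u)
      rw [hMinv, h0] at e1
      exact e1.symm
  have h' : OneSided (μ.comp M) (fun p (q : B × ℂ) => F p (q + q.2.re • u))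
      (fun p (q : B × ℂ) => f p (q + q.2.re • u)) := by
    obtain ⟨K', hK', hoff'⟩ := hcpt K₂ hK₂
    refine ⟨h.smooth.comp hsm, ⟨K', hK', fun p q hq => ?_⟩, fun p q h0 => ?_,
      fun p q hq c hc h0 => ?_⟩
    · rw [hoff₂ p _ (hoff' p q hq)]
      rfl
    · refine h.regular p (q + q.2.re • u) (ContinuousLinearMap.ext fun v => ?_)
      have e1 := fderiv_shear (hf p) u q (v - v.2.re • u)
      rw [hMinv, h0] at e1
      exact e1.symm
    · refine h.oneSided p _ hq c hc (ContinuousLinearMap.ext fun v => ?_)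
      have e1 := fderiv_shear (hF.slice p) u q (v - v.2.re • u)
      have e2 := fderiv_shear (hf p) u q (v - v.2.re • u)
      rw [hMinv] at e1 e2
      have e3 := congrArg (fun A : (B × ℂ) →L[ℝ] ℝ => A (v - v.2.re • u)) h0
      change fderiv ℝ (fun q : B × ℂ => F p (q + q.2.re • u)) q (v - v.2.re • u)
        = c * fderiv ℝ (fun q : B × ℂ => f p (q + q.2.re • u)) q (v - v.2.re • u) at e3
      rw [e1, e2] at e3
      exact e3
  exact null_of_oneSided_aux hF' h' hμu

/-- **the Gauss map** -/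
theorem null_of_gauss [Nontrivial B] (hF : LongFamily F) (hμ : μ ≠ 0)
    (h : ∀ p q, F p q = 0 → ∀ c : ℝ, 0 < c → fderiv ℝ (F p) q ≠ c • μ) : NullHomotopic F := by
  have hd : ∀ q, fderiv ℝ μ q = μ := fun q => μ.fderiv
  refine null_of_oneSided (f := fun _ q => μ q) (μ := μ) hF ⟨μ.contDiff.comp contDiff_snd,
    ⟨∅, isCompact_empty, fun _ _ _ => rfl⟩, fun p q => ?_, fun p q hq c hc => ?_⟩
  · change fderiv ℝ μ q ≠ 0
    rw [hd]
    exact hμ
  · change fderiv ℝ (F p) q ≠ c • fderiv ℝ μ q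
    rw [hd]
    exact h p q hq c hc

omit [FiniteDimensional ℝ B] [FiniteDimensional ℝ P] in
theorem oneSided_of_unknotted (hF : LongFamily F) (h : Unknotted F) :
    ∃ (μ : B × ℂ →L[ℝ] ℝ) (f : P → B × ℂ → ℝ), OneSided μ F f := by
  obtain ⟨φ, hφ, hs⟩ := h
  set μ : B × ℂ →L[ℝ] ℝ := Complex.imCLM.comp (ContinuousLinearMap.snd ℝ B ℂ) with hμ
  have hsymm : ∀ p, ContDiff ℝ ∞ (φ p).symm := fun p =>
    hφ.smooth_inv.comp (contDiff_const.prodMk contDiff_id)
  have hder : ∀ p q v, fderiv ℝ (fun q => μ ((φ p).symm q)) q v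
      = μ (fderiv ℝ (φ p).symm q v) := by
    intro p q v
    have h3 := μ.hasFDerivAt.comp q ((hsymm p).differentiable (by simp) q).hasFDerivAt
    have h4 : fderiv ℝ (fun q => μ ((φ p).symm q)) q = μ.comp (fderiv ℝ (φ p).symm q) := h3.fderiv
    rw [h4]
    rfl
  refine ⟨μ, fun p q => μ ((φ p).symm q), μ.contDiff.comp hφ.smooth_inv, ?_,
    fun p q h0 => ?_, fun p q hq c hc h0 => ?_⟩
  · obtain ⟨K, hK, hoff⟩ := hφ.supp
    refine ⟨K, hK, fun p q hq => ?_⟩
    have h1 : (φ p).symm q = q := by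
      conv_lhs => rw [← hoff p q hq]
      exact (φ p).symm_apply_apply q
    change μ ((φ p).symm q) = μ q
    rw [h1]
  · have hqz : φ p ((φ p).symm q) = q := (φ p).apply_symm_apply q
    obtain ⟨hl, -⟩ := Diffs.comp_fderiv hφ p ((φ p).symm q)
    rw [hqz] at hl
    have h1 := hder p q (fderiv ℝ (φ p) ((φ p).symm q) (0, Complex.I))
    rw [h0, hl] at h1
    change (0 : ℝ) = Complex.I.im at h1
    simp at h1
  · set z := (φ p).symm q with hz
    have hqz : φ p z = q := (φ p).apply_symm_apply q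
    have hre : z.2.re = 0 := by
      rw [← hs p z, hqz]
      exact hq
    have h1 := normal_ne hF hφ hs p hre
    obtain ⟨hl, -⟩ := Diffs.comp_fderiv hφ p z
    rw [hqz] at h1 hl
    apply h1
    rw [h0]
    change c * fderiv ℝ (fun q => μ ((φ p).symm q)) q (fderiv ℝ (φ p) z (0, 1)) = 0
    rw [hder, hl]
    change c * (1 : ℂ).im = 0
    simp

/-- **the theorem** -/
theorem tfae_all [Nontrivial B] (hF : LongFamily F) : List.TFAE [Unknotted F, NullHomotopic F,
    ∃ (μ : B × ℂ →L[ℝ] ℝ) (f : P → B × ℂ → ℝ), OneSided μ F f, HasFields F,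
    HasSubmersions (toBase B) F, HasSubmersions (toPlane B) F] := by
  tfae_have 1 → 4 := fields_of_unknotted hF
  tfae_have 4 → 2 := null_of_field hF
  tfae_have 1 → 3 := oneSided_of_unknotted hF
  tfae_have 3 → 2 := fun ⟨_, _, h⟩ => null_of_oneSided hF h
  tfae_have 2 → 1 := fun ⟨φ, h1, _, h2⟩ => ⟨φ, h1, h2⟩
  tfae_have 1 → 6 := submersions_of_unknotted hF
  tfae_have 6 → 5 := base_of_plane
  tfae_have 5 → 1 := unknotted_of_submersions hF
  tfae_finish

end Pool.Agent.H822.TH
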