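import Pool.Agent.H822.TH.Wc

/-!
# Gauss maps which omit a direction: the theorem
-/

set_option autoImplicit false

open scoped ContDiff Manifold
open Set Filter Topology Function Metric

namespace Pool.Agent.H822.TH

open Pool.Agent.H822.SM Pool.Agent.H822.LD

variable {B : Type} [NormedAddCommGroup B] [NormedSpace ℝ B] [FiniteDimensional ℝ B]
  {P : Type} [NormedAddCommGroup P] [NormedSpace ℝ P] [FiniteDimensional ℝ P]
  {F : P → B × ℂ → ℝ} {μ : B × ℂ →L[ℝ] ℝ}

omit [FiniteDimensional ℝ B] [FiniteDimensional ℝ P] in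
/-- conjugation by a shear -/
theorem wc_of_shear {u : B × ℂ} (hu : u.2.re = 0)
    (h : ∃ φ : P → Equiv.Perm (B × ℂ), Diffs φ ∧
      HtpThrough (MapOmits (μ.comp (ContinuousLinearMap.id ℝ (B × ℂ) + (reL B).smulRight u))) φ 1 ∧
      Straightens φ fun p (q : B × ℂ) => F p (q + q.2.re • u)) :
    ∃ φ : P → Equiv.Perm (B × ℂ), Diffs φ ∧ HtpThrough (MapOmits μ) φ 1 ∧ Straightens φ F := by
  obtain ⟨φ, hφ, ⟨H, K, hK, k1, k2, k3, k4, k5, k6⟩, hs⟩ := h
  let L : B × ℂ ≃ B × ℂ :=
    { toFun := fun q => q + q.2.re • u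
      invFun := fun q => q - q.2.re • u
      left_inv := fun q => by
        have : (q + q.2.re • u).2.re = q.2.re := by
          simp [hu]
        simp only [this, add_sub_cancel_right]
      right_inv := fun q => by
        have : (q - q.2.re • u).2.re = q.2.re := by
          simp [hu]
        simp only [this, sub_add_cancel] }
  set M : B × ℂ →L[ℝ] B × ℂ := ContinuousLinearMap.id ℝ (B × ℂ) + (reL B).smulRight u with hM
  set N : B × ℂ →L[ℝ] B × ℂ := ContinuousLinearMap.id ℝ (B × ℂ) - (reL B).smulRight u with hN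
  have hLM : ∀ q, L q = M q := fun q => rfl
  have hLN : ∀ q, L.symm q = N q := fun q => rfl
  have hre : ContDiff ℝ ∞ (fun q : B × ℂ => q.2.re) := (reL B).contDiff
  have hL : ContDiff ℝ ∞ L := contDiff_id.add (hre.smul contDiff_const)
  have hL' : ContDiff ℝ ∞ L.symm := contDiff_id.sub (hre.smul contDiff_const)
  let c : Equiv.Perm (B × ℂ) → Equiv.Perm (B × ℂ) := fun g => (L.symm.trans g).trans L
  have hc : ∀ g x, c g x = L (g (L.symm x)) := fun g x => rfl
  have hc' : ∀ g x, (c g).symm x = L (g.symm (L.symm x)) := fun g x => rfl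
  have hc1 : c 1 = 1 := by
    ext1 x
    rw [hc]
    exact L.apply_symm_apply x
  let K' : Set (P × (B × ℂ)) := (fun x : P × (B × ℂ) => (x.1, L x.2)) '' K
  have hK' : IsCompact K' := hK.image (continuous_fst.prodMk (hL.continuous.comp continuous_snd))
  have hoffc : ∀ p x, (p, x) ∉ K' → (p, L.symm x) ∉ K := by
    intro p x hx hcon
    exact hx ⟨(p, L.symm x), hcon, Prod.ext rfl (L.apply_symm_apply x)⟩
  refine ⟨fun p => c (φ p), ?_, ?_, fun p q => ?_⟩
  · obtain ⟨K₀, hK₀, hoff₀⟩ := hφ.supp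
    refine ⟨?_, ?_, (fun x : P × (B × ℂ) => (x.1, L x.2)) '' K₀,
      hK₀.image (continuous_fst.prodMk (hL.continuous.comp continuous_snd)), fun p x hx => ?_⟩
    · exact hL.comp (hφ.smooth.comp (contDiff_fst.prodMk (hL'.comp contDiff_snd)))
    · exact hL.comp (hφ.smooth_inv.comp (contDiff_fst.prodMk (hL'.comp contDiff_snd)))
    · rw [hc, hoff₀ p _ fun hcon => hx ⟨(p, L.symm x), hcon, Prod.ext rfl (L.apply_symm_apply x)⟩]
      exact L.apply_symm_apply x
  · refine ⟨fun y => c (H y), K', hK', ?_, ?_, fun s p x hx => ?_, fun p => ?_, fun p => ?_,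
      fun y q hq cc hcc h0 => ?_⟩
    · exact hL.comp (k1.comp (contDiff_fst.prodMk (hL'.comp contDiff_snd)))
    · exact hL.comp (k2.comp (contDiff_fst.prodMk (hL'.comp contDiff_snd)))
    · change c (H (s, p)) x = x
      rw [hc, k3 s p _ (hoffc p x hx)]
      exact L.apply_symm_apply x
    · change c (H (0, p)) = c (φ p)
      rw [k4]
    · change c (H (1, p)) = _
      rw [k5]
      exact hc1
    · have hHy : ContDiff ℝ ∞ (H y) := k1.comp (contDiff_const.prodMk contDiff_id)
      have hNq : N q = q := by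
        change q - q.2.re • u = q
        rw [hq, zero_smul, sub_zero]
      have e1 : HasFDerivAt (fun x => M (H y (N x))) (M.comp ((fderiv ℝ (H y) (N q)).comp N)) q :=
        M.hasFDerivAt.comp q ((hHy.differentiable (by simp) (N q)).hasFDerivAt.comp q
          N.hasFDerivAt)
      have e2 : fderiv ℝ (c (H y)) q = M.comp ((fderiv ℝ (H y) (N q)).comp N) := e1.fderiv
      refine k6 y q hq cc hcc (ContinuousLinearMap.ext fun w => ?_)
      have e3 := congrArg (fun A : (B × ℂ) →L[ℝ] ℝ => A (M w)) h0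
      change μ (fderiv ℝ (c (H y)) q (M w)) = cc * (M w).2.re at e3
      rw [e2, hNq] at e3
      change μ (M (fderiv ℝ (H y) q (N (M w)))) = cc * (M w).2.re at e3
      have e4 : N (M w) = w := L.symm_apply_apply w
      have e5 : (M w).2.re = w.2.re := by
        change (w + w.2.re • u).2.re = w.2.re
        simp [hu]
      rw [e4, e5] at e3
      exact e3
  · have h1 := hs p (L.symm q)
    have h2 : (L.symm q).2.re = q.2.re := by
      change (q - q.2.re • u).2.re = q.2.re
      simp [hu]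
    rw [h2] at h1
    exact h1

/-- **the Gauss map** -/
theorem wc_of_gauss (hF : LongFamily F) (hμ : μ ≠ 0)
    (h : ∀ p q, F p q = 0 → ∀ c : ℝ, 0 < c → fderiv ℝ (F p) q ≠ c • μ) :
    ∃ φ : P → Equiv.Perm (B × ℂ), Diffs φ ∧ HtpThrough (MapOmits μ) φ 1 ∧ Straightens φ F := by
  -- a point of the hyperplane near infinity
  obtain ⟨K₁, hK₁, hoff₁⟩ := hF.flat
  obtain ⟨q₀, hre0, hn⟩ := exists_far (P := P) (B := B) hK₁
  have hd₁ : fderiv ℝ (F 0) q₀ = reL B := fderiv_flat (ν := reL B) hK₁ hoff₁ hn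
  have hF0 : F 0 q₀ = 0 := by rw [hoff₁ 0 q₀ hn, hre0]
  obtain ⟨w, hw1, hw2⟩ : ∃ w, (reL B) w < 0 ∧ 0 < μ w := by
    have e1 := hF.regular 0 q₀ hF0
    have e3 := h 0 q₀ hF0
    rw [hd₁] at e1
    rw [hd₁] at e3
    exact exists_vec e1 hμ e3
  have hw1' : w.2.re < 0 := hw1
  set s : ℝ := -w.2.re with hs
  have hs0 : 0 < s := by linarith
  set u : B × ℂ := -((1 / s) • (w + (0, (s : ℂ)))) with hu
  have hure : u.2.re = 0 := by
    simp [hu, hs]
  have hμu : 0 < μ (dn B + (dn B).2.re • u) := by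
    have e1 : dn B + (dn B).2.re • u = (1 / s) • w := by
      have e2 : ((dn B).2).re = -1 := by simp
      rw [e2, hu, neg_smul, one_smul, neg_neg, smul_add]
      have e3 : (1 / s) • ((0, (s : ℂ)) : B × ℂ) = -dn B := by
        refine Prod.ext (by simp) ?_
        change (1 / s) • (s : ℂ) = -(-1)
        rw [Complex.real_smul, neg_neg]
        push_cast
        rw [one_div, inv_mul_cancel₀ (Complex.ofReal_ne_zero.2 hs0.ne')]
      rw [e3]
      abel
    rw [e1, map_smul, smul_eq_mul]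
    positivity
  refine wc_of_shear hure ?_
  set M : B × ℂ →L[ℝ] B × ℂ := ContinuousLinearMap.id ℝ (B × ℂ) + (reL B).smulRight u with hM
  have hMinv : ∀ v : B × ℂ, (v - v.2.re • u) + (v - v.2.re • u).2.re • u = v := by
    intro v
    have : (v - v.2.re • u).2.re = v.2.re := by simp [hure]
    rw [this, sub_add_cancel]
  have hF' := long_shear hure hF
  have h' : ∀ p (q : B × ℂ), F p (q + q.2.re • u) = 0 → ∀ c : ℝ, 0 < c →
      fderiv ℝ (fun q : B × ℂ => F p (q + q.2.re • u)) q ≠ c • (μ.comp M) := by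
    intro p q hq c hc h0
    refine h p _ hq c hc (ContinuousLinearMap.ext fun v => ?_)
    have e1 := fderiv_shear (hF.slice p) u q (v - v.2.re • u)
    rw [hMinv] at e1
    have e3 := congrArg (fun A : (B × ℂ) →L[ℝ] ℝ => A (v - v.2.re • u)) h0
    change fderiv ℝ (fun q : B × ℂ => F p (q + q.2.re • u)) q (v - v.2.re • u)
      = c * μ ((v - v.2.re • u) + (v - v.2.re • u).2.re • u) at e3
    rw [e1, hMinv] at e3
    exact e3
  obtain ⟨G, hG⟩ := exists_push2 (μ := μ.comp M) hF' hμu h'
  exact wc_aux hF' hG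

end Pool.Agent.H822.TH
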