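import Pool.Agent.H822.TH.Vec

/-!
# One-sided functions: the diffeomorphisms
-/

set_option autoImplicit false

open scoped ContDiff Manifold
open Set Filter Topology Function Metric

namespace Pool.Agent.H822.TH

open Pool.Agent.H822.SM Pool.Agent.H822.LD

variable {B : Type} [NormedAddCommGroup B] [NormedSpace ℝ B] [FiniteDimensional ℝ B]
  {P : Type} [NormedAddCommGroup P] [NormedSpace ℝ P] [FiniteDimensional ℝ P]
  {F f : P → B × ℂ → ℝ} {μ : B × ℂ →L[ℝ] ℝ}

omit [FiniteDimensional ℝ B] in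
theorem dir_dn : Dir (-(reL B)) (dn B) := by
  refine ⟨?_, fun z => ?_⟩
  · change -((-1 : ℂ).re) = 1
    simp
  · change |-(z.2.re)| ≤ ‖z‖
    rw [abs_neg]
    exact (Complex.abs_re_le_norm z.2).trans (norm_snd_le z)

/-- the diffeomorphism: flow back along the constant field, then forward along `V` -/
noncomputable def gm (e : B × ℂ) (W Ψ : P → B × ℂ → B × ℂ) (τ : ℝ) (p : P) (z : B × ℂ) : B × ℂ :=
  W p (Ψ p (z - τ • e) + τ • e)

/-- its inverse -/
noncomputable def qm (e : B × ℂ) (W Ψ : P → B × ℂ → B × ℂ) (τ : ℝ) (p : P) (y : B × ℂ) : B × ℂ :=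
  W p (Ψ p y - τ • e) + τ • e

section wave

variable {e : B × ℂ} {ξ : B × ℂ →L[ℝ] ℝ} {V W Ψ : P → B × ℂ → B × ℂ} {R : ℝ}

set_option linter.unusedSectionVars false in
theorem qm_gm (h1 : ∀ p z, Ψ p (W p z) = z) (h2 : ∀ p z, W p (Ψ p z) = z)
    (τ : ℝ) (p : P) (z : B × ℂ) : qm e W Ψ τ p (gm e W Ψ τ p z) = z := by
  unfold qm gm
  rw [h1, add_sub_cancel_right, h2, sub_add_cancel]

set_option linter.unusedSectionVars false in
theorem gm_qm (h1 : ∀ p z, Ψ p (W p z) = z) (h2 : ∀ p z, W p (Ψ p z) = z)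
    (τ : ℝ) (p : P) (z : B × ℂ) : gm e W Ψ τ p (qm e W Ψ τ p z) = z := by
  unfold qm gm
  rw [add_sub_cancel_right, h1, sub_add_cancel, h2]

/-- the support -/
theorem qm_supp (hd : Dir ξ e) (hW : IsWave ξ e V R W) (hR : 0 < R)
    (h1 : ∀ p z, Ψ p (W p z) = z) (h2 : ∀ p z, W p (Ψ p z) = z)
    (hid : ∀ p, R < ‖p‖ → ∀ z, W p z = z) (T : ℝ) :
    ∃ K : Set (P × (B × ℂ)), IsCompact K ∧ ∀ τ, 0 ≤ τ → τ ≤ T → ∀ p y, (p, y) ∉ K →
      qm e W Ψ τ p y = y := by
  have hproper : ProperSpace (B × ℂ) := FiniteDimensional.proper_real _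
  have hproperP : ProperSpace P := FiniteDimensional.proper_real _
  obtain ⟨m, hm⟩ := hW.out _ (isCompact_closedBall (0 : P) R)
  set a : ℝ := R + |m| + |T| with ha
  set R₂ : ℝ := R + (R + a) * ‖e‖ with hR₂
  obtain ⟨M₀, hM₀⟩ := (((isCompact_closedBall (0 : P) R).prod
    (isCompact_closedBall (0 : B × ℂ) R₂)).image hW.smooth.continuous).isBounded.exists_norm_le
  set M₁ : ℝ := max M₀ 0 with hM₁
  set R₃ : ℝ := R + (R + (R + M₁)) * ‖e‖ with hR₃
  have hM₁0 : 0 ≤ M₁ := le_max_right _ _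
  refine ⟨closedBall 0 R ×ˢ closedBall 0 R₃, (isCompact_closedBall _ _).prod
    (isCompact_closedBall _ _), fun τ hτ hτT p y hy => ?_⟩
  have hself : ∀ z, W p z = z → Ψ p z = z := fun z hz => by
    conv_lhs => rw [← hz]
    exact h1 p z
  by_cases hp : ‖p‖ ≤ R
  swap
  · have h3 := hid p (not_le.1 hp)
    unfold qm
    rw [h3, hself y (h3 y), sub_add_cancel]
  by_cases hT : Tube e R y
  · unfold qm
    rw [hself y (hW.tube p y hT), hW.tube p (y - τ • e) ?_, sub_add_cancel]
    rw [sub_eq_add_neg, ← neg_smul]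
    exact hT.add _
  by_cases hl : ξ y < -R
  · unfold qm
    rw [hself y (hW.left p y hl), hW.left p (y - τ • e) ?_, sub_add_cancel]
    rw [map_sub, map_smul, hd.one, smul_eq_mul, mul_one]
    linarith
  rw [not_lt] at hl
  by_cases hr : M₁ < ξ y
  · set x := Ψ p y with hx
    have hWx : W p x = y := h2 p y
    have hxT : ¬ Tube e R x := fun h => hT (by
      have h3 := hW.tube p x h
      rw [hWx] at h3
      rwa [h3])
    have hxl : -R ≤ ξ x := by
      by_contra h
      rw [not_le] at h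
      have h3 := hW.left p x h
      rw [hWx] at h3
      rw [h3] at hr
      linarith
    have hxm : m + T ≤ ξ x := by
      by_contra h
      rw [not_le] at h
      have h4 : |ξ x| ≤ a := by
        rw [abs_le]
        constructor
        · have := abs_nonneg m
          have := abs_nonneg T
          linarith
        · have := le_abs_self m
          have := le_abs_self T
          linarith
      have h5 := norm_le_of_not_tube hd hxT h4
      have h6 := hM₀ (W p x) ⟨(p, x), ⟨by simpa using hp, by simpa using h5⟩, rfl⟩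
      rw [hWx] at h6
      have h7 := (le_abs_self _).trans (hd.le y)
      have h8 : M₀ ≤ M₁ := le_max_left _ _
      linarith
    have h3 : m ≤ ξ (x - τ • e) := by
      rw [map_sub, map_smul, hd.one, smul_eq_mul, mul_one]
      linarith
    have h4 := (hm p (by simpa using hp) _ h3).2 τ hτ
    rw [sub_add_cancel, hWx] at h4
    unfold qm
    rw [← hx, ← h4]
  · exfalso
    rw [not_lt] at hr
    refine hy ⟨by simpa using hp, ?_⟩
    rw [mem_closedBall_zero_iff]
    refine norm_le_of_not_tube hd hT ?_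
    rw [abs_le]
    constructor <;> linarith

omit [FiniteDimensional ℝ B] [FiniteDimensional ℝ P] in
/-- the derivative of `W` along the lines -/
theorem fderiv_W (hW : IsWave ξ e V R W) (p : P) (x : B × ℂ) :
    fderiv ℝ (W p) x e = V p (W p x) := by
  have hWs : ContDiff ℝ ∞ (W p) := hW.smooth.comp (contDiff_const.prodMk contDiff_id)
  have h1 := hW.orbit p x 0
  have h2 : HasDerivAt (fun t : ℝ => x + t • e) e 0 := by
    have := ((hasDerivAt_id (0 : ℝ)).smul_const e).const_add x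
    rwa [one_smul] at this
  have h0 : HasFDerivAt (W p) (fderiv ℝ (W p) x) (x + (0 : ℝ) • e) := by
    rw [zero_smul, add_zero]
    exact (hWs.differentiable (by simp) x).hasFDerivAt
  have h3 := h0.comp_hasDerivAt 0 h2
  have h4 := h3.unique h1
  rw [zero_smul, add_zero] at h4
  exact h4

omit [FiniteDimensional ℝ B] [FiniteDimensional ℝ P] in
/-- the derivative of the diffeomorphism along the lines -/
theorem fderiv_gm (hW : IsWave ξ e V R W) (hΨ : ContDiff ℝ ∞ (fun q : P × (B × ℂ) => Ψ q.1 q.2))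
    (h2 : ∀ p z, W p (Ψ p z) = z) (τ : ℝ) (p : P) (z : B × ℂ) (hz : V p (z - τ • e) = e) :
    fderiv ℝ (gm e W Ψ τ p) z e = V p (gm e W Ψ τ p z) := by
  have hWs : ContDiff ℝ ∞ (W p) := hW.smooth.comp (contDiff_const.prodMk contDiff_id)
  have hΨs : ContDiff ℝ ∞ (Ψ p) := hΨ.comp (contDiff_const.prodMk contDiff_id)
  set z' := z - τ • e with hz'
  have e1 : fderiv ℝ (W p) (Ψ p z') (fderiv ℝ (Ψ p) z' e) = e := by
    have h3 := (hWs.differentiable (by simp) (Ψ p z')).hasFDerivAt.comp z'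
      (hΨs.differentiable (by simp) z').hasFDerivAt
    have h4 : (W p) ∘ (Ψ p) = id := funext (h2 p)
    rw [h4] at h3
    have h5 := h3.unique (hasFDerivAt_id z')
    exact congrArg (fun T : (B × ℂ) →L[ℝ] (B × ℂ) => T e) h5
  have e2 : fderiv ℝ (W p) (Ψ p z') e = e := by
    rw [fderiv_W hW, h2, hz]
  have e3 : fderiv ℝ (Ψ p) z' e = e := by
    have h3 := hW.inj p (Ψ p z') (fderiv ℝ (Ψ p) z' e - e) (by rw [map_sub, e1, e2, sub_self])
    exact sub_eq_zero.1 h3
  have h3 : HasFDerivAt (fun z => Ψ p (z - τ • e) + τ • e) (fderiv ℝ (Ψ p) z') z := by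
    have h4 : HasFDerivAt (Ψ p) (fderiv ℝ (Ψ p) z') (z - τ • e) :=
      (hΨs.differentiable (by simp) z').hasFDerivAt
    have h5 : HasFDerivAt (fun z : B × ℂ => z - τ • e) (ContinuousLinearMap.id ℝ (B × ℂ)) z :=
      (hasFDerivAt_id z).sub_const _
    have h6 := (h4.comp z h5).add_const (τ • e)
    rw [ContinuousLinearMap.comp_id] at h6
    exact h6
  have h4 : HasFDerivAt (gm e W Ψ τ p)
      ((fderiv ℝ (W p) (Ψ p z' + τ • e)).comp (fderiv ℝ (Ψ p) z')) z :=
    (hWs.differentiable (by simp) (Ψ p z' + τ • e)).hasFDerivAt.comp z h3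
  rw [h4.fderiv]
  change fderiv ℝ (W p) (Ψ p z' + τ • e) (fderiv ℝ (Ψ p) z' e) = _
  rw [e3, fderiv_W hW]
  rfl

end wave

omit [FiniteDimensional ℝ P] in
/-- no bounded orbits -/
theorem nt_of_function {V : P → B × ℂ → B × ℂ}
    (hV : ContDiff ℝ ∞ (fun q : P × (B × ℂ) => V q.1 q.2))
    (hf : ContDiff ℝ ∞ (fun q : P × (B × ℂ) => f q.1 q.2))
    (h : ∀ p z, 0 < fderiv ℝ (f p) z (V p z)) (p : P) : NT (V p) := by
  intro γ hγ hb
  have hproper : ProperSpace (B × ℂ) := FiniteDimensional.proper_real _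
  obtain ⟨C, hC⟩ := hb.exists_norm_le
  have hfs : ContDiff ℝ ∞ (f p) := hf.comp (contDiff_const.prodMk contDiff_id)
  have hVs : ContDiff ℝ ∞ (V p) := hV.comp (contDiff_const.prodMk contDiff_id)
  have hmem : ∀ t, γ t ∈ closedBall (0 : B × ℂ) C := fun t => by simpa using hC _ ⟨t, rfl⟩
  have hcont : Continuous fun z => fderiv ℝ (f p) z (V p z) :=
    (hfs.continuous_fderiv (by simp)).clm_apply hVs.continuous
  obtain ⟨z₀, -, hz₀⟩ := (isCompact_closedBall (0 : B × ℂ) C).exists_isMinOn ⟨γ 0, hmem 0⟩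
    hcont.continuousOn
  set δ := fderiv ℝ (f p) z₀ (V p z₀) with hδ
  have hδ0 : 0 < δ := h p z₀
  obtain ⟨M, hM⟩ := ((isCompact_closedBall (0 : B × ℂ) C).image hfs.continuous).isBounded.exists_norm_le
  have h1 : ∀ t, HasDerivAt (fun t => f p (γ t) - t * δ)
      (fderiv ℝ (f p) (γ t) (V p (γ t)) - δ) t := by
    intro t
    have e1 := (hfs.differentiable (by simp) (γ t)).hasFDerivAt.comp_hasDerivAt t (hγ t)
    have e2 := e1.sub ((hasDerivAt_id t).mul_const δ)
    rw [one_mul] at e2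
    exact e2
  have h2 : Monotone fun t => f p (γ t) - t * δ := by
    refine monotone_of_deriv_nonneg (fun t => (h1 t).differentiableAt) fun t => ?_
    rw [(h1 t).deriv, sub_nonneg]
    exact hz₀ (hmem t)
  have h3 := h2 (show (0 : ℝ) ≤ (2 * |M| + 1) / δ by positivity)
  simp only [zero_mul, sub_zero] at h3
  rw [div_mul_cancel₀ _ hδ0.ne'] at h3
  have h4 := abs_le.1 ((hM _ ⟨γ 0, hmem 0, rfl⟩).trans (le_abs_self M))
  have h5 := abs_le.1 ((hM _ ⟨γ ((2 * |M| + 1) / δ), hmem _, rfl⟩).trans (le_abs_self M))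
  linarith [h4.1, h5.2]

/-- the diffeomorphisms which make the hypersurfaces transverse to the planes -/
theorem exists_push (hF : LongFamily F) {V : P → B × ℂ → B × ℂ} {R : ℝ} (hfam : VFam (dn B) V R)
    (hVp : ∀ p z, R < ‖p‖ → V p z = dn B) (hFR : ∀ p z, R < ‖z‖ → F p z = z.2.re)
    (hVF : ∀ p z, F p z = 0 → fderiv ℝ (F p) z (V p z) ≠ 0) :
    ∃ G : P → Equiv.Perm (B × ℂ), Diffs G ∧ Htp G 1 ∧
      ∀ p z, F p (G p z) = 0 → fderiv ℝ (fun z => F p (G p z)) z (dn B) ≠ 0 := by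
  have hR : 0 < R := hfam.pos
  have hVz := hfam.off
  have hd : Dir (-(reL B)) (dn B) := dir_dn
  obtain ⟨W, hW⟩ := hfam.exists_wave hd
  obtain ⟨Ψ, hΨ, h1, h2⟩ := BK.inv_fam hW.smooth hW.inj hW.bij
  have hid : ∀ p, R < ‖p‖ → ∀ z, W p z = z := by
    intro p hp z
    refine wave_unique hd (hfam.slice p) (hW.orbit p) (W' := fun z => z) (fun z t => ?_) (R := R)
      (fun z hz => hW.left _ _ hz) z
    rw [hVp p _ hp]
    have := ((hasDerivAt_id t).smul_const (dn B)).const_add z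
    rwa [one_smul] at this
  have hproperP : ProperSpace P := FiniteDimensional.proper_real _
  obtain ⟨m, hm⟩ := hW.out _ (isCompact_closedBall (0 : P) R)
  set T : ℝ := |m| + R with hT
  have hT0 : 0 ≤ T := by positivity
  obtain ⟨K, hK, hKoff⟩ := qm_supp hd hW hR h1 h2 hid T
  -- the time
  let τ : ℝ → ℝ := fun s => T * (1 - Real.smoothTransition s)
  have hτs : ContDiff ℝ ∞ τ := contDiff_const.mul (contDiff_const.sub Real.smoothTransition.contDiff)
  have hτ0 : τ 0 = T := by simp [τ]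
  have hτ1 : τ 1 = 0 := by simp [τ]
  have hτle : ∀ s, 0 ≤ τ s ∧ τ s ≤ T := by
    intro s
    have e1 := Real.smoothTransition.nonneg s
    have e2 := Real.smoothTransition.le_one s
    constructor
    · exact mul_nonneg hT0 (by linarith)
    · nlinarith
  let H : ℝ × P → Equiv.Perm (B × ℂ) := fun y =>
    ⟨gm (dn B) W Ψ (τ y.1) y.2, qm (dn B) W Ψ (τ y.1) y.2, qm_gm h1 h2 _ _, gm_qm h1 h2 _ _⟩
  have hsub : ContDiff ℝ ∞ (fun y : (ℝ × P) × (B × ℂ) => τ y.1.1 • dn B) :=
    (hτs.comp (contDiff_fst.comp contDiff_fst)).smul contDiff_const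
  have hp2 : ContDiff ℝ ∞ (fun y : (ℝ × P) × (B × ℂ) => y.1.2) := contDiff_snd.comp contDiff_fst
  have hH1 : ContDiff ℝ ∞ (fun y : (ℝ × P) × (B × ℂ) => H y.1 y.2) :=
    hW.smooth.comp (hp2.prodMk ((hΨ.comp (hp2.prodMk (contDiff_snd.sub hsub))).add hsub))
  have hH2 : ContDiff ℝ ∞ (fun y : (ℝ × P) × (B × ℂ) => (H y.1).symm y.2) :=
    (hW.smooth.comp (hp2.prodMk ((hΨ.comp (hp2.prodMk contDiff_snd)).sub hsub))).add hsub
  have hHoff : ∀ s p x, (p, x) ∉ K → H (s, p) x = x := by
    intro s p x hx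
    have e1 : (H (s, p)).symm x = x := hKoff (τ s) (hτle s).1 (hτle s).2 p x hx
    rw [Equiv.symm_apply_eq] at e1
    exact e1.symm
  refine ⟨fun p => H (0, p), ⟨hH1.comp ((contDiff_const.prodMk contDiff_fst).prodMk contDiff_snd),
    hH2.comp ((contDiff_const.prodMk contDiff_fst).prodMk contDiff_snd), K, hK,
    fun p x hx => hHoff 0 p x hx⟩, ⟨H, K, hK, hH1, hH2, hHoff, fun _ => rfl, fun p => ?_,
    fun _ => trivial⟩, fun p z hz => ?_⟩
  · ext1 z
    change gm (dn B) W Ψ (τ 1) p z = z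
    rw [hτ1]
    unfold gm
    rw [zero_smul, sub_zero, add_zero, h2]
  · change F p (gm (dn B) W Ψ (τ 0) p z) = 0 at hz
    change fderiv ℝ (fun z => F p (gm (dn B) W Ψ (τ 0) p z)) z (dn B) ≠ 0
    rw [hτ0] at hz ⊢
    have hVe : V p (z - T • dn B) = dn B := by
      by_cases hp : ‖p‖ ≤ R
      swap
      · exact hVp p _ (not_le.1 hp)
      refine hVz p _ ?_
      by_contra hcon
      rw [not_lt] at hcon
      set z' := z - T • dn B with hz'
      set x' := Ψ p z' with hx'
      have hWx : W p x' = z' := h2 p z'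
      have e1 : -R ≤ (-(reL B)) x' := by
        by_contra h3
        rw [not_le] at h3
        have h4 := hW.left p x' h3
        rw [hWx] at h4
        rw [← h4] at h3
        have h5 := (neg_le_abs _).trans (hd.le z')
        linarith
      have e2 : m ≤ (-(reL B)) (x' + T • dn B) := by
        rw [map_add, map_smul, hd.one, smul_eq_mul, mul_one]
        have := le_abs_self m
        linarith
      have e3 := (hm p (by simpa using hp) _ e2).1
      change R < (-(reL B)) (gm (dn B) W Ψ T p z) at e3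
      have e4 : R < ‖gm (dn B) W Ψ T p z‖ := norm_gt hd (e3.trans_le (le_abs_self _))
      rw [hFR p _ e4] at hz
      change R < -((gm (dn B) W Ψ T p z).2.re) at e3
      rw [hz] at e3
      linarith
    have e1 := fderiv_gm hW hΨ h2 T p z hVe
    have hgs : ContDiff ℝ ∞ (gm (dn B) W Ψ T p) := by
      have h3 := hH1.comp (((contDiff_const (c := (0 : ℝ))).prodMk
        (contDiff_const (c := p))).prodMk (contDiff_id (E := B × ℂ)))
      have h4 : (fun z : B × ℂ => H (0, p) z) = gm (dn B) W Ψ T p := by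
        funext z
        change gm (dn B) W Ψ (τ 0) p z = _
        rw [hτ0]
      rw [← h4]
      exact h3
    have e2 : HasFDerivAt (fun z => F p (gm (dn B) W Ψ T p z))
        ((fderiv ℝ (F p) (gm (dn B) W Ψ T p z)).comp (fderiv ℝ (gm (dn B) W Ψ T p) z)) z :=
      ((hF.slice p).differentiable (by simp) _).hasFDerivAt.comp z
        (hgs.differentiable (by simp) z).hasFDerivAt
    rw [e2.fderiv]
    change fderiv ℝ (F p) (gm (dn B) W Ψ T p z) (fderiv ℝ (gm (dn B) W Ψ T p) z (dn B)) ≠ 0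
    rw [e1]
    exact hVF p _ hz

end Pool.Agent.H822.TH
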