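import Pool.Agent.H822.TH.Null

/-!
# Gauss maps which omit a direction: the path of diffeomorphisms
-/

set_option autoImplicit false

open scoped ContDiff Manifold
open Set Filter Topology Function Metric

namespace Pool.Agent.H822.TH

open Pool.Agent.H822.SM Pool.Agent.H822.LD

variable {B : Type} [NormedAddCommGroup B] [NormedSpace ℝ B] [FiniteDimensional ℝ B]
  {P : Type} [NormedAddCommGroup P] [NormedSpace ℝ P] [FiniteDimensional ℝ P]
  {F : P → B × ℂ → ℝ} {μ : B × ℂ →L[ℝ] ℝ}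

/-- the diffeomorphisms `G (s, p)` -/
structure PushData (μ : B × ℂ →L[ℝ] ℝ) (F : P → B × ℂ → ℝ) (G : ℝ × P → B × ℂ → B × ℂ) :
    Prop where
  smooth : ContDiff ℝ ∞ (fun x : (ℝ × P) × (B × ℂ) => G x.1 x.2)
  inj : ∀ y z v, fderiv ℝ (G y) z v = 0 → v = 0
  supp : ∃ K : Set (P × (B × ℂ)), IsCompact K ∧ ∀ s p z, (p, z) ∉ K → G (s, p) z = z
  one : ∀ p z, G (1, p) z = z
  right : ∀ y z, 0 ≤ z.2.re → 0 < μ (fderiv ℝ (G y) z (dn B))
  pos : ∀ p z, 0 ≤ F p (G (0, p) z) → 0 < μ (fderiv ℝ (G (0, p)) z (dn B))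
  neg : ∀ p z, F p (G (0, p) z) = 0 → fderiv ℝ (fun z => F p (G (0, p) z)) z (dn B) < 0

theorem exists_push2 (hF : LongFamily F) (hμ : 0 < μ (dn B))
    (h : ∀ p q, F p q = 0 → ∀ c : ℝ, 0 < c → fderiv ℝ (F p) q ≠ c • μ) :
    ∃ G : ℝ × P → B × ℂ → B × ℂ, PushData μ F G := by
  have hμ0 : μ ≠ 0 := by
    rintro rfl
    exact lt_irrefl _ hμ
  have hdμ : ∀ q, fderiv ℝ μ q = μ := fun q => μ.fderiv
  have hone : OneSided μ F (fun _ q => μ q) := by
    refine ⟨μ.contDiff.comp contDiff_snd, ⟨∅, isCompact_empty, fun _ _ _ => rfl⟩, fun p q => ?_,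
      fun p q hq c hc => ?_⟩
    · change fderiv ℝ μ q ≠ 0
      rw [hdμ]
      exact hμ0
    · change fderiv ℝ (F p) q ≠ c • fderiv ℝ μ q
      rw [hdμ]
      exact h p q hq c hc
  obtain ⟨V, R₀, hR₀, hVs, hVf, hVF, hVz, hVp, hFR⟩ := exists_field1 hF hone hμ
  have hVμ : ∀ p z, 0 < μ (V p z) := by
    intro p z
    have h1 := hVf p z
    change 0 < fderiv ℝ μ z (V p z) at h1
    rwa [hdμ] at h1
  set R : ℝ := max R₀ 1 with hRdef
  have hR : 0 < R := lt_of_lt_of_le one_pos (le_max_right _ _)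
  have hRR₀ : R₀ ≤ R := le_max_left _ _
  have hR1 : 1 ≤ R := le_max_right _ _
  let ρ : ℝ → ℝ := fun u => Real.smoothTransition (u ^ 2)
  have hρs : ContDiff ℝ ∞ ρ := Real.smoothTransition.contDiff.comp (contDiff_id.pow 2)
  have hρ0 : ρ 0 = 0 := by
    change Real.smoothTransition ((0 : ℝ) ^ 2) = 0
    simp
  have hρ1 : ∀ u : ℝ, 1 ≤ |u| → ρ u = 1 := by
    intro u hu
    refine Real.smoothTransition.one_of_one_le ?_
    rw [← sq_abs]
    nlinarith
  have hρle : ∀ u, 0 ≤ ρ u ∧ ρ u ≤ 1 := fun u =>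
    ⟨Real.smoothTransition.nonneg _, Real.smoothTransition.le_one _⟩
  let V' : ℝ × P → B × ℂ → B × ℂ := fun y z => (1 - ρ y.1) • V y.2 z + ρ y.1 • dn B
  have hV'e : ∀ (y : ℝ × P) z, V y.2 z = dn B → V' y z = dn B := by
    intro y z hz
    change (1 - ρ y.1) • V y.2 z + ρ y.1 • dn B = dn B
    rw [hz, ← add_smul, sub_add_cancel, one_smul]
  have hV's : ContDiff ℝ ∞ (fun q : (ℝ × P) × (B × ℂ) => V' q.1 q.2) := by
    have h1 : ContDiff ℝ ∞ (fun q : (ℝ × P) × (B × ℂ) => ρ q.1.1) :=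
      hρs.comp (contDiff_fst.comp contDiff_fst)
    have h2 : ContDiff ℝ ∞ (fun q : (ℝ × P) × (B × ℂ) => V q.1.2 q.2) :=
      hVs.comp ((contDiff_snd.comp contDiff_fst).prodMk contDiff_snd)
    exact ((contDiff_const.sub h1).smul h2).add (h1.smul contDiff_const)
  have hV'z : ∀ (y : ℝ × P) (z : B × ℂ), R < ‖z‖ → V' y z = dn B := fun y z hz =>
    hV'e y z (hVz _ _ (hRR₀.trans_lt hz))
  have hV'p : ∀ (y : ℝ × P) (z : B × ℂ), R < ‖y‖ → V' y z = dn B := by
    intro y z hy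
    rw [Prod.norm_def, lt_max_iff] at hy
    rcases hy with hy | hy
    · have h1 : ρ y.1 = 1 := hρ1 _ (by
        rw [Real.norm_eq_abs] at hy
        linarith)
      change (1 - ρ y.1) • V y.2 z + ρ y.1 • dn B = dn B
      rw [h1, sub_self, zero_smul, zero_add, one_smul]
    · exact hV'e y z (hVp _ _ (hRR₀.trans_lt hy))
  have hV'μ : ∀ y z, 0 < μ (V' y z) := by
    intro y z
    change 0 < μ ((1 - ρ y.1) • V y.2 z + ρ y.1 • dn B)
    rw [map_add, map_smul, map_smul, smul_eq_mul, smul_eq_mul]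
    obtain ⟨h1, h2⟩ := hρle y.1
    have h3 := hVμ y.2 z
    rcases h1.eq_or_lt with h4 | h4
    · rw [← h4]
      linarith
    · have h5 := mul_pos h4 hμ
      have h6 := mul_nonneg (sub_nonneg.2 h2) h3.le
      linarith
  have hV'0 : ∀ p z, V' (0, p) z = V p z := by
    intro p z
    change (1 - ρ 0) • V p z + ρ 0 • dn B = V p z
    rw [hρ0, sub_zero, one_smul, zero_smul, add_zero]
  have hd : Dir (-(reL B)) (dn B) := dir_dn
  have hnt : ∀ y, NT (V' y) := nt_of_function (f := fun _ z => μ z) hV's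
    (μ.contDiff.comp contDiff_snd) fun y z => by
      change 0 < fderiv ℝ μ z (V' y z)
      rw [hdμ]
      exact hV'μ y z
  have hfam : VFam (dn B) V' R := ⟨hR, hV's, hV'z, hnt⟩
  obtain ⟨W, hW⟩ := hfam.exists_wave hd
  obtain ⟨Ψ, hΨ, h1, h2⟩ := BK.inv_fam hW.smooth hW.inj hW.bij
  have hid' : ∀ y : ℝ × P, (∀ z, V' y z = dn B) → ∀ z, W y z = z := by
    intro y hy z
    refine wave_unique hd (hfam.slice y) (hW.orbit y) (W' := fun z => z) (fun z t => ?_) (R := R)
      (fun z hz => hW.left _ _ hz) z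
    rw [hy]
    have := ((hasDerivAt_id t).smul_const (dn B)).const_add z
    rwa [one_smul] at this
  have hid : ∀ y : ℝ × P, R < ‖y‖ → ∀ z, W y z = z := fun y hy => hid' y fun z => hV'p y z hy
  have hproperP : ProperSpace (ℝ × P) := FiniteDimensional.proper_real _
  obtain ⟨m, hm⟩ := hW.out _ (isCompact_closedBall (0 : ℝ × P) R)
  set T : ℝ := |m| + R + 1 with hT
  have hT0 : 0 ≤ T := by positivity
  obtain ⟨K, hK, hKoff⟩ := qm_supp hd hW hR h1 h2 hid T
  have hTs : ContDiff ℝ ∞ (fun x : (ℝ × P) × (B × ℂ) => T • dn B) := contDiff_const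
  have hGs : ContDiff ℝ ∞ (fun x : (ℝ × P) × (B × ℂ) => gm (dn B) W Ψ T x.1 x.2) :=
    hW.smooth.comp (contDiff_fst.prodMk
      ((hΨ.comp (contDiff_fst.prodMk (contDiff_snd.sub hTs))).add hTs))
  have hQs : ContDiff ℝ ∞ (fun x : (ℝ × P) × (B × ℂ) => qm (dn B) W Ψ T x.1 x.2) :=
    (hW.smooth.comp (contDiff_fst.prodMk (hΨ.sub hTs))).add hTs
  have hGy : ∀ y, ContDiff ℝ ∞ (gm (dn B) W Ψ T y) := fun y =>
    hGs.comp (contDiff_const.prodMk contDiff_id)
  have hQy : ∀ y, ContDiff ℝ ∞ (qm (dn B) W Ψ T y) := fun y =>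
    hQs.comp (contDiff_const.prodMk contDiff_id)
  -- the derivative
  have hder : ∀ y z, V' y (z - T • dn B) = dn B →
      fderiv ℝ (gm (dn B) W Ψ T y) z (dn B) = V' y (gm (dn B) W Ψ T y z) := fun y z hz =>
    fderiv_gm hW hΨ h2 T y z hz
  have hfar : ∀ p z, 0 ≤ F p (gm (dn B) W Ψ T (0, p) z) → V' (0, p) (z - T • dn B) = dn B := by
    intro p z hz
    by_cases hp : ‖((0, p) : ℝ × P)‖ ≤ R
    swap
    · exact hV'p _ _ (not_le.1 hp)
    refine hV'z _ _ ?_
    by_contra hcon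
    rw [not_lt] at hcon
    set z' := z - T • dn B with hz'
    set x' := Ψ (0, p) z' with hx'
    have hWx : W (0, p) x' = z' := h2 (0, p) z'
    have e1 : -R ≤ (-(reL B)) x' := by
      by_contra h3
      rw [not_le] at h3
      have h4 := hW.left (0, p) x' h3
      rw [hWx] at h4
      rw [← h4] at h3
      have h5 := (neg_le_abs _).trans (hd.le z')
      linarith
    have e2 : m ≤ (-(reL B)) (x' + T • dn B) := by
      rw [map_add, map_smul, hd.one, smul_eq_mul, mul_one]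
      have := le_abs_self m
      linarith
    have e3 := (hm (0, p) (by simpa using hp) _ e2).1
    change R < (-(reL B)) (gm (dn B) W Ψ T (0, p) z) at e3
    have e4 : R < ‖gm (dn B) W Ψ T (0, p) z‖ := norm_gt hd (e3.trans_le (le_abs_self _))
    rw [hFR p _ (hRR₀.trans_lt e4)] at hz
    change R < -((gm (dn B) W Ψ T (0, p) z).2.re) at e3
    linarith
  refine ⟨fun y => gm (dn B) W Ψ T y, ⟨hGs, fun y z v hv => ?_, ?_, fun p z => ?_, fun y z hz => ?_,
    fun p z hz => ?_, fun p z hz => ?_⟩⟩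
  · exact inj_of_right (hQy y) (hGy y) (fun z => qm_gm h1 h2 T y z) z v hv
  · refine ⟨(fun x : (ℝ × P) × (B × ℂ) => (x.1.2, x.2)) '' K, hK.image (by fun_prop),
      fun s p z hz => ?_⟩
    have e1 : qm (dn B) W Ψ T (s, p) z = z :=
      hKoff T hT0 le_rfl (s, p) z fun hcon => hz ⟨_, hcon, rfl⟩
    have e2 := gm_qm (e := dn B) h1 h2 T (s, p) z
    rw [e1] at e2
    exact e2
  · have e1 : ∀ z, V' (1, p) z = dn B := by
      intro z
      change (1 - ρ 1) • V p z + ρ 1 • dn B = dn B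
      rw [hρ1 1 (by simp), sub_self, zero_smul, zero_add, one_smul]
    have e2 := hid' (1, p) e1
    change W (1, p) (Ψ (1, p) (z - T • dn B) + T • dn B) = z
    rw [e2]
    have e3 := h2 (1, p) (z - T • dn B)
    rw [e2] at e3
    rw [e3, sub_add_cancel]
  · rw [hder y z]
    · exact hV'μ _ _
    · refine hV'z _ _ ?_
      have e1 : (z - T • dn B).2.re = z.2.re + T := by simp
      have e2 : (z - T • dn B).2.re ≤ ‖z - T • dn B‖ :=
        (le_abs_self _).trans ((Complex.abs_re_le_norm _).trans (norm_snd_le _))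
      have := abs_nonneg m
      linarith
  · rw [hder _ z (hfar p z hz)]
    exact hV'μ _ _
  · have e1 := hder (0, p) z (hfar p z hz.ge)
    have e2 : HasFDerivAt (fun z => F p (gm (dn B) W Ψ T (0, p) z))
        ((fderiv ℝ (F p) (gm (dn B) W Ψ T (0, p) z)).comp
          (fderiv ℝ (gm (dn B) W Ψ T (0, p)) z)) z :=
      ((hF.slice p).differentiable (by simp) _).hasFDerivAt.comp z
        ((hGy (0, p)).differentiable (by simp) z).hasFDerivAt
    rw [e2.fderiv]
    change fderiv ℝ (F p) (gm (dn B) W Ψ T (0, p) z)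
      (fderiv ℝ (gm (dn B) W Ψ T (0, p)) z (dn B)) < 0
    rw [e1, hV'0]
    exact hVF p _ hz

end Pool.Agent.H822.TH
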