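import Pool.Agent.H822.TH.Main
import Pool.Agent.H822.SM.Wave

/-!
# One-sided functions: the vector field
-/

set_option autoImplicit false

open scoped ContDiff Manifold
open Set Filter Topology Function Metric

namespace Pool.Agent.H822.TH

open Pool.Agent.H822.SM Pool.Agent.H822.LD

theorem exists_vec {M : Type} [NormedAddCommGroup M] [NormedSpace ℝ M] {φ ψ : M →L[ℝ] ℝ}
    (hφ : φ ≠ 0) (hψ : ψ ≠ 0) (h : ∀ c : ℝ, 0 < c → φ ≠ c • ψ) : ∃ v, φ v < 0 ∧ 0 < ψ v := by
  by_contra hcon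
  push Not at hcon
  obtain ⟨a, hψa⟩ : ∃ a, ψ a = 1 := by
    obtain ⟨a₀, ha₀⟩ : ∃ a, ψ a ≠ 0 := by
      by_contra h1
      push Not at h1
      exact hψ (ContinuousLinearMap.ext h1)
    exact ⟨(ψ a₀)⁻¹ • a₀, by rw [map_smul, smul_eq_mul, inv_mul_cancel₀ ha₀]⟩
  have hpos : ∀ v, 0 < ψ v → 0 ≤ φ v := fun v hv => by
    by_contra h1
    exact absurd hv (not_lt.2 (hcon v (not_le.1 h1)))
  have hker : ∀ k, ψ k = 0 → φ k = 0 := by
    intro k hk
    by_contra hne
    have h1 := hpos (a + (-(φ a + 1) / φ k) • k) (by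
      rw [map_add, map_smul, hk, smul_zero, add_zero, hψa]; exact one_pos)
    rw [map_add, map_smul, smul_eq_mul, div_mul_cancel₀ _ hne] at h1
    linarith
  have heq : φ = (φ a) • ψ := by
    ext x
    have h1 := hker (x - ψ x • a) (by
      rw [map_sub, map_smul, hψa, smul_eq_mul, mul_one, sub_self])
    rw [map_sub, map_smul, smul_eq_mul, sub_eq_zero] at h1
    rw [h1]
    change ψ x * φ a = φ a * ψ x
    ring
  rcases (hpos a (by rw [hψa]; exact one_pos)).eq_or_lt with h1 | h1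
  · rw [← h1, zero_smul] at heq
    exact hφ heq
  · exact h _ h1 heq

/-- the direction of the flow near infinity -/
noncomputable abbrev dn (B : Type) [NormedAddCommGroup B] : B × ℂ := (0, -1)

section field

variable {B : Type} [NormedAddCommGroup B] [NormedSpace ℝ B] [FiniteDimensional ℝ B]
  {P : Type} [NormedAddCommGroup P] [NormedSpace ℝ P] [FiniteDimensional ℝ P]
  {F f : P → B × ℂ → ℝ} {μ : B × ℂ →L[ℝ] ℝ}

omit [FiniteDimensional ℝ B] [NormedSpace ℝ P] [FiniteDimensional ℝ P] in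
theorem fderiv_flat {G : P → B × ℂ → ℝ} {ν : B × ℂ →L[ℝ] ℝ} {K : Set (P × (B × ℂ))}
    (hK : IsCompact K) (hoff : ∀ p q, (p, q) ∉ K → G p q = ν q) {p : P} {q : B × ℂ}
    (h : (p, q) ∉ K) : fderiv ℝ (G p) q = ν := by
  have h1 : G p =ᶠ[𝓝 q] ν := by
    have h2 : ∀ᶠ w in 𝓝 q, (p, w) ∉ K :=
      (Continuous.tendsto (by fun_prop : Continuous fun w : B × ℂ => (p, w)) q).eventually
        (hK.isClosed.isOpen_compl.mem_nhds h)
    filter_upwards [h2] with w hw using hoff p w hw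
  rw [h1.fderiv_eq, ν.fderiv]

/-- the real part -/
noncomputable abbrev reL (B : Type) [NormedAddCommGroup B] [NormedSpace ℝ B] : B × ℂ →L[ℝ] ℝ :=
  Complex.reCLM.comp (ContinuousLinearMap.snd ℝ B ℂ)

theorem exists_field1 (hF : LongFamily F) (h : OneSided μ F f) (hμ : 0 < μ (dn B)) :
    ∃ (V : P → B × ℂ → B × ℂ) (R : ℝ), 0 < R ∧
      ContDiff ℝ ∞ (fun q : P × (B × ℂ) => V q.1 q.2) ∧
      (∀ p z, 0 < fderiv ℝ (f p) z (V p z)) ∧
      (∀ p z, F p z = 0 → fderiv ℝ (F p) z (V p z) < 0) ∧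
      (∀ p z, R < ‖z‖ → V p z = dn B) ∧ (∀ p z, R < ‖p‖ → V p z = dn B) ∧
      ∀ p z, R < ‖z‖ → F p z = z.2.re := by
  obtain ⟨K₁, hK₁, hoff₁⟩ := hF.flat
  obtain ⟨K₂, hK₂, hoff₂⟩ := h.flat
  obtain ⟨ρ₁, hρ₁⟩ := hK₁.isBounded.exists_norm_le
  obtain ⟨ρ₂, hρ₂⟩ := hK₂.isBounded.exists_norm_le
  set ρ : ℝ := max (max ρ₁ ρ₂) 1 with hρ
  have hρ1 : 0 < ρ := lt_of_lt_of_le one_pos (le_max_right _ _)
  have hn₁ : ∀ x : P × (B × ℂ), ρ < ‖x‖ → x ∉ K₁ := fun x hx hx' => by
    have := hρ₁ x hx'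
    have h2 : ρ₁ ≤ ρ := (le_max_left _ _).trans (le_max_left _ _)
    linarith
  have hn₂ : ∀ x : P × (B × ℂ), ρ < ‖x‖ → x ∉ K₂ := fun x hx hx' => by
    have := hρ₂ x hx'
    have h2 : ρ₂ ≤ ρ := (le_max_right _ _).trans (le_max_left _ _)
    linarith
  let F' : P × (B × ℂ) → ℝ := fun x => F x.1 x.2
  let f' : P × (B × ℂ) → ℝ := fun x => f x.1 x.2
  let DF : P × (B × ℂ) → (B × ℂ →L[ℝ] ℝ) := fun x =>
    (fderiv ℝ F' x).comp (ContinuousLinearMap.inr ℝ P (B × ℂ))
  let Df : P × (B × ℂ) → (B × ℂ →L[ℝ] ℝ) := fun x =>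
    (fderiv ℝ f' x).comp (ContinuousLinearMap.inr ℝ P (B × ℂ))
  have hDF : Continuous DF :=
    ((hF.smooth.continuous_fderiv (by simp)).clm_comp continuous_const)
  have hDf : Continuous Df :=
    ((h.smooth.continuous_fderiv (by simp)).clm_comp continuous_const)
  have hDFe : ∀ q z v, DF (q, z) v = fderiv ℝ (F q) z v := by
    intro q z v
    exact (BK.fderiv_slice hF.smooth q z v).symm
  have hDfe : ∀ q z v, Df (q, z) v = fderiv ℝ (f q) z v := by
    intro q z v
    exact (BK.fderiv_slice h.smooth q z v).symm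
  have hDF' : ∀ q z, DF (q, z) = fderiv ℝ (F q) z := fun q z => ContinuousLinearMap.ext (hDFe q z)
  have hDf' : ∀ q z, Df (q, z) = fderiv ℝ (f q) z := fun q z => ContinuousLinearMap.ext (hDfe q z)
  let t : P × (B × ℂ) → Set (B × ℂ) := fun x =>
    {v | (ρ + 1 < ‖x‖ → v = dn B) ∧ 0 < Df x v ∧ (F' x = 0 → DF x v < 0)}
  have ht : ∀ x, Convex ℝ (t x) := by
    intro x v hv w hw a b ha hb hab
    obtain ⟨v1, v2, v3⟩ := hv
    obtain ⟨w1, w2, w3⟩ := hw
    have key : ∀ r s : ℝ, 0 < r → 0 < s → 0 < a * r + b * s := by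
      intro r s hr hs
      rcases ha.eq_or_lt with h1 | h1
      · have hb1 : b = 1 := by linarith
        rw [← h1, hb1]
        linarith
      · have := mul_pos h1 hr
        have := mul_nonneg hb hs.le
        linarith
    refine ⟨fun hx => ?_, ?_, fun hx => ?_⟩
    · rw [v1 hx, w1 hx, ← add_smul, hab, one_smul]
    · rw [map_add, map_smul, map_smul]
      exact key _ _ v2 w2
    · rw [map_add, map_smul, map_smul]
      have := key _ _ (neg_pos.2 (v3 hx)) (neg_pos.2 (w3 hx))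
      simp only [smul_eq_mul]
      linarith
  have hcf : ∀ c : B × ℂ, Continuous fun x => Df x c := fun c => hDf.clm_apply continuous_const
  have hcF : ∀ c : B × ℂ, Continuous fun x => DF x c := fun c => hDF.clm_apply continuous_const
  have hloc : ∀ x : P × (B × ℂ), ∃ c : B × ℂ, ∀ᶠ y in 𝓝 x, c ∈ t y := by
    rintro ⟨p, z⟩
    rcases le_or_gt ‖((p, z) : P × (B × ℂ))‖ ρ with hx | hx
    · have e1 : ∀ᶠ y : P × (B × ℂ) in 𝓝 (p, z), ‖y‖ < ρ + 1 :=
        continuous_norm.continuousAt.eventually_lt continuousAt_const (by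
          change ‖((p, z) : P × (B × ℂ))‖ < ρ + 1
          linarith)
      by_cases h0 : F p z = 0
      · obtain ⟨c, hc1, hc2⟩ := exists_vec (hF.regular p z h0) (h.regular p z) (h.oneSided p z h0)
        refine ⟨c, ?_⟩
        have e2 : ∀ᶠ y in 𝓝 (p, z), 0 < Df y c :=
          continuousAt_const.eventually_lt (hcf c).continuousAt (by
            change 0 < Df (p, z) c
            rw [hDfe]
            exact hc2)
        have e3 : ∀ᶠ y in 𝓝 (p, z), DF y c < 0 :=
          (hcF c).continuousAt.eventually_lt continuousAt_const (by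
            change DF (p, z) c < 0
            rw [hDFe]
            exact hc1)
        filter_upwards [e1, e2, e3] with y y1 y2 y3
        exact ⟨fun hy => absurd y1 (not_lt.2 hy.le), y2, fun _ => y3⟩
      · obtain ⟨a, ha⟩ : ∃ a, fderiv ℝ (f p) z a ≠ 0 := by
          by_contra h1
          push Not at h1
          exact h.regular p z (ContinuousLinearMap.ext h1)
        refine ⟨(fderiv ℝ (f p) z a) • a, ?_⟩
        have e2 : ∀ᶠ y in 𝓝 (p, z), 0 < Df y ((fderiv ℝ (f p) z a) • a) :=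
          continuousAt_const.eventually_lt (hcf _).continuousAt (by
            change 0 < Df (p, z) _
            rw [hDfe, map_smul, smul_eq_mul]
            exact mul_self_pos.2 ha)
        have e3 : ∀ᶠ y in 𝓝 (p, z), F' y ≠ 0 :=
          hF.smooth.continuous.continuousAt.eventually_ne h0
        filter_upwards [e1, e2, e3] with y y1 y2 y3
        exact ⟨fun hy => absurd y1 (not_lt.2 hy.le), y2, fun hy => absurd hy y3⟩
    · refine ⟨dn B, ?_⟩
      have e1 : ∀ᶠ y : P × (B × ℂ) in 𝓝 (p, z), ρ < ‖y‖ :=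
        continuousAt_const.eventually_lt continuous_norm.continuousAt hx
      filter_upwards [e1] with y hy
      obtain ⟨p', z'⟩ := y
      refine ⟨fun _ => rfl, ?_, fun _ => ?_⟩
      · rw [hDfe, fderiv_flat hK₂ hoff₂ (hn₂ _ hy)]
        exact hμ
      · rw [hDFe, fderiv_flat (ν := reL B) hK₁ hoff₁ (hn₁ _ hy)]
        change (-1 : ℂ).re < 0
        simp
  obtain ⟨S, hS⟩ := exists_contMDiffMap_forall_mem_convex_of_local_const
    (n := (⊤ : ℕ∞)) 𝓘(ℝ, P × (B × ℂ)) ht hloc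
  refine ⟨fun p z => S (p, z), ρ + 1, by linarith, S.contMDiff.contDiff, fun p z => ?_,
    fun p z h0 => ?_, fun p z hz => ?_, fun p z hz => ?_, fun p z hz => ?_⟩
  · rw [← hDfe]
    exact (hS (p, z)).2.1
  · rw [← hDFe]
    exact (hS (p, z)).2.2 h0
  · exact (hS (p, z)).1 (lt_of_lt_of_le hz (norm_snd_le (p, z)))
  · exact (hS (p, z)).1 (lt_of_lt_of_le hz (norm_fst_le (p, z)))
  · exact hoff₁ p z (hn₁ _ (by
      have := norm_snd_le (p, z)
      change ‖z‖ ≤ ‖(p, z)‖ at this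
      linarith))

end field

end Pool.Agent.H822.TH
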