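import Pool.Agent.H822.TH.Defs

/-!
# Long hypersurfaces whose Gauss map omits a direction
-/

set_option autoImplicit false

namespace Pool.Agent.H822.TH

/-- The Gauss map of the long hypersurface `g {re z = 0}` (the image of the hyperplane under the
diffeomorphism `g`, which is the zero set of `F = re ∘ g⁻¹`) omits the direction of the linear
function `μ`: at no point `g q` of it the differential of `F` is a positive multiple of `μ`. Here
this is written as `μ ∘ dg_q ≠ c • re` for `c > 0` and `re q = 0`. -/
def MapOmits {B : Type} [NormedAddCommGroup B] [NormedSpace ℝ B] (μ : B × ℂ →L[ℝ] ℝ)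
    (g : B × ℂ → B × ℂ) : Prop :=
  ∀ q : B × ℂ, q.2.re = 0 → ∀ c : ℝ, 0 < c →
    μ.comp (fderiv ℝ g q) ≠ c • Complex.reCLM.comp (ContinuousLinearMap.snd ℝ B ℂ)

end Pool.Agent.H822.TH
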