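import Pool.Agent.H822.TH.Zero
import Pool.Agent.H822.TH.WcDefs

/-!
# Gauss maps which omit a direction: null-homotopy through such hypersurfaces
-/

set_option autoImplicit false

open scoped ContDiff Manifold
open Set Filter Topology Function Metric

namespace Pool.Agent.H822.TH

open Pool.Agent.H822.SM Pool.Agent.H822.LD

variable {B : Type} [NormedAddCommGroup B] [NormedSpace ℝ B] [FiniteDimensional ℝ B]
  {P : Type} [NormedAddCommGroup P] [NormedSpace ℝ P] [FiniteDimensional ℝ P]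
  {F : P → B × ℂ → ℝ} {μ : B × ℂ →L[ℝ] ℝ} {G : ℝ × P → B × ℂ → B × ℂ}

/-- the graph -/
theorem exists_graph (hF : LongFamily F) (hG : PushData μ F G) :
    ∃ (a : P × (B × ℝ) → ℝ) (R : ℝ), 0 < R ∧ ContDiff ℝ ∞ a ∧
      (∀ p b y, (R < ‖p‖ ∨ R < ‖b‖ ∨ R < |y|) → a (p, (b, y)) = 0) ∧
      (∀ p (z : B × ℂ), F p (G (0, p) z) = 0 ↔ z.2.re = a (p, (z.1, z.2.im))) ∧
      ∀ p (z : B × ℂ), a (p, (z.1, z.2.im)) ≤ z.2.re → 0 ≤ F p (G (0, p) z) := by
  obtain ⟨K, hK, hoff⟩ := hF.flat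
  obtain ⟨K', hK', hoff'⟩ := hG.supp
  obtain ⟨ρ, hρ⟩ := (hK.union hK').isBounded.exists_norm_le
  set R : ℝ := max ρ 1 with hR
  have hR0 : 0 < R := lt_of_lt_of_le one_pos (le_max_right _ _)
  let j : (P × (B × ℝ)) × ℝ → B × ℂ := fun x =>
    (x.1.2.1, (x.2 : ℂ) + (x.1.2.2 : ℂ) * Complex.I)
  have hj : ContDiff ℝ ∞ j := by
    refine (contDiff_fst.comp (contDiff_snd.comp contDiff_fst)).prodMk ?_
    exact (Complex.ofRealCLM.contDiff.comp contDiff_snd).add
      ((Complex.ofRealCLM.contDiff.comp (contDiff_snd.comp (contDiff_snd.comp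
        contDiff_fst))).mul contDiff_const)
  have hjre : ∀ x, (j x).2.re = x.2 := fun x => by simp [j]
  have hjim : ∀ x, (j x).2.im = x.1.2.2 := fun x => by simp [j]
  let g : (P × (B × ℝ)) × ℝ → ℝ := fun x => F x.1.1 (G (0, x.1.1) (j x))
  have hp1 : ContDiff ℝ ∞ (fun x : (P × (B × ℝ)) × ℝ => x.1.1) :=
    contDiff_fst.comp contDiff_fst
  have hg : ContDiff ℝ ∞ g :=
    hF.smooth.comp (hp1.prodMk (hG.smooth.comp ((contDiff_const.prodMk hp1).prodMk hj)))
  have hbig : ∀ (p : P) (z : B × ℂ), R < ‖((p, z) : P × (B × ℂ))‖ →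
      F p (G (0, p) z) = z.2.re := by
    intro p z hz
    have h1 : ((p, z) : P × (B × ℂ)) ∉ K ∪ K' := fun hcon => by
      have h2 := hρ _ hcon
      have h3 : ρ ≤ R := le_max_left _ _
      linarith
    rw [mem_union, not_or] at h1
    rw [hoff' 0 p z h1.2, hoff p z h1.1]
  have hn : ∀ (p : P) (z : B × ℂ), (R < ‖p‖ ∨ R < ‖z.1‖ ∨ R < |z.2.im| ∨ R < |z.2.re|) →
      R < ‖((p, z) : P × (B × ℂ))‖ := by
    intro p z hz
    have e1 := norm_fst_le (p, z)
    have e2 := norm_snd_le (p, z)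
    have e3 := norm_fst_le z
    have e4 := norm_snd_le z
    have e5 := Complex.abs_im_le_norm z.2
    have e6 := Complex.abs_re_le_norm z.2
    change ‖p‖ ≤ _ at e1
    change ‖z‖ ≤ _ at e2
    rcases hz with hz | hz | hz | hz <;> linarith
  have hgR : ∀ t x, R < |x| → g (t, x) = x := by
    intro t x hx
    change F t.1 (G (0, t.1) (j (t, x))) = x
    rw [hbig _ _ (hn _ _ (Or.inr (Or.inr (Or.inr (by rwa [hjre])))))]
    exact hjre _
  have hpos : ∀ t x, g (t, x) = 0 → 0 < fderiv ℝ g (t, x) (0, 1) := by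
    intro t x hx
    have h1 := hG.neg t.1 (j (t, x)) hx
    have hGs : ContDiff ℝ ∞ (G (0, t.1)) := hG.smooth.comp (contDiff_const.prodMk contDiff_id)
    have hFG : ContDiff ℝ ∞ (fun z => F t.1 (G (0, t.1) z)) := (hF.slice t.1).comp hGs
    have e1 : HasDerivAt (fun x : ℝ => g (t, x)) (fderiv ℝ g (t, x) (0, 1)) x := by
      have e2 : HasDerivAt (fun x : ℝ => ((t, x) : (P × (B × ℝ)) × ℝ)) (0, 1) x :=
        (hasDerivAt_const x t).prodMk (hasDerivAt_id x)
      exact ((hg.differentiable (by simp) (t, x)).hasFDerivAt).comp_hasDerivAt x e2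
    have e3 : HasDerivAt (fun x : ℝ => j (t, x)) (-dn B) x := by
      have e4 : HasDerivAt (fun x : ℝ => (x : ℂ) + (t.2.2 : ℂ) * Complex.I) 1 x :=
        ((hasDerivAt_id x).ofReal_comp).add_const _
      have e5 : HasDerivAt (fun x : ℝ => ((t.2.1, (x : ℂ) + (t.2.2 : ℂ) * Complex.I) : B × ℂ))
          (0, 1) x := (hasDerivAt_const x t.2.1).prodMk e4
      have e6 : -dn B = ((0, 1) : B × ℂ) := by simp
      rw [e6]
      exact e5
    have e4 : HasDerivAt (fun x : ℝ => g (t, x))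
        (fderiv ℝ (fun z => F t.1 (G (0, t.1) z)) (j (t, x)) (-dn B)) x := by
      have e5 := HasFDerivAt.comp_hasDerivAt (f := fun x : ℝ => j (t, x)) x
        ((hFG.differentiable (by simp) (j (t, x))).hasFDerivAt) e3
      exact e5
    rw [e1.unique e4, map_neg]
    linarith
  obtain ⟨a, ha, ha1, ha2⟩ := exists_zero hg hR0 hgR hpos
  have hjz : ∀ p (z : B × ℂ), j ((p, (z.1, z.2.im)), z.2.re) = z := by
    intro p z
    refine Prod.ext rfl ?_
    change (z.2.re : ℂ) + (z.2.im : ℂ) * Complex.I = z.2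
    exact Complex.re_add_im z.2
  refine ⟨a, R, hR0, ha, fun p b y h => ?_, fun p z => ?_, fun p z hz => ?_⟩
  · refine ((ha1 (p, (b, y)) 0).1 ?_).symm
    change F p (G (0, p) (j ((p, (b, y)), 0))) = 0
    rw [hbig, hjre]
    refine hn _ _ ?_
    rw [hjim]
    rcases h with h | h | h
    · exact Or.inl h
    · exact Or.inr (Or.inl h)
    · exact Or.inr (Or.inr (Or.inl h))
  · have h1 := ha1 (p, (z.1, z.2.im)) z.2.re
    change F p (G (0, p) (j ((p, (z.1, z.2.im)), z.2.re))) = 0 ↔ _ at h1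
    rwa [hjz] at h1
  · have h1 := ha2 (p, (z.1, z.2.im)) z.2.re hz
    change 0 ≤ F p (G (0, p) (j ((p, (z.1, z.2.im)), z.2.re))) at h1
    rwa [hjz] at h1

theorem wc_aux (hF : LongFamily F) (hG : PushData μ F G) :
    ∃ φ : P → Equiv.Perm (B × ℂ), Diffs φ ∧ HtpThrough (MapOmits μ) φ 1 ∧ Straightens φ F := by
  obtain ⟨a, R, hR0, has, haoff, ha0, hapos⟩ := exists_graph hF hG
  have hproper : ProperSpace B := FiniteDimensional.proper_real _
  have hproperP : ProperSpace P := FiniteDimensional.proper_real _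
  let κ : ContDiffBump (0 : ℝ) := ⟨1 / 4, 1 / 2, by norm_num, by norm_num⟩
  have hκs : ContDiff ℝ ∞ (fun x => κ x) := κ.contDiff
  have hκ0 : κ 0 = 1 := κ.one_of_mem_closedBall (mem_closedBall_self (by norm_num))
  have hκoff : ∀ s : ℝ, 1 / 2 ≤ |s| → κ s = 0 := fun s hs => κ.zero_of_le_dist (by
    rw [dist_zero_right, Real.norm_eq_abs]
    exact hs)
  have hκle : ∀ s : ℝ, 0 ≤ κ s ∧ κ s ≤ 1 := fun s => ⟨κ.nonneg, κ.le_one⟩
  let τ : (ℝ × P) × B → ℝ → ℝ := fun q y => κ q.1.1 * a (q.1.2, (q.2, y))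
  have hτ : ContDiff ℝ ∞ (fun x : ((ℝ × P) × B) × ℝ => τ x.1 x.2) := by
    have e1 : ContDiff ℝ ∞ (fun x : ((ℝ × P) × B) × ℝ => κ x.1.1.1) :=
      hκs.comp (contDiff_fst.comp (contDiff_fst.comp contDiff_fst))
    have e2 : ContDiff ℝ ∞ (fun x : ((ℝ × P) × B) × ℝ => a (x.1.1.2, (x.1.2, x.2))) :=
      has.comp ((contDiff_snd.comp (contDiff_fst.comp contDiff_fst)).prodMk
        ((contDiff_snd.comp contDiff_fst).prodMk contDiff_snd))
    exact e1.mul e2
  have hKc : IsCompact ((closedBall (0 : ℝ) 1 ×ˢ closedBall (0 : P) R) ×ˢ closedBall (0 : B) R) :=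
    ((isCompact_closedBall _ _).prod (isCompact_closedBall _ _)).prod (isCompact_closedBall _ _)
  obtain ⟨S, hS, ⟨δ, hδ, hSδ⟩, hS0⟩ := exists_shear2 hτ hKc (R := R) (fun q hq y => by
    change κ q.1.1 * a (q.1.2, (q.2, y)) = 0
    by_cases h1 : 1 / 2 ≤ |q.1.1|
    · rw [hκoff _ h1, zero_mul]
    · rw [not_le] at h1
      by_cases h2 : R < ‖q.1.2‖
      · rw [haoff _ _ _ (Or.inl h2), mul_zero]
      by_cases h3 : R < ‖q.2‖
      · rw [haoff _ _ _ (Or.inr (Or.inl h3)), mul_zero]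
      exfalso
      refine hq ⟨⟨?_, ?_⟩, ?_⟩
      · rw [mem_closedBall_zero_iff, Real.norm_eq_abs]
        linarith
      · rw [mem_closedBall_zero_iff]
        exact not_lt.1 h2
      · rw [mem_closedBall_zero_iff]
        exact not_lt.1 h3) (fun q y hy => by
    change κ q.1.1 * a (q.1.2, (q.2, y)) = 0
    rw [haoff _ _ _ (Or.inr (Or.inr hy)), mul_zero])
  let Γ : ℝ × P → B × ℂ → B × ℂ := fun y z => (z.1, S (y, z.1) z.2)
  have hΓs : ContDiff ℝ ∞ (fun x : (ℝ × P) × (B × ℂ) => Γ x.1 x.2) :=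
    (contDiff_fst.comp contDiff_snd).prodMk (hS.smooth.comp
      ((contDiff_fst.prodMk (contDiff_fst.comp contDiff_snd)).prodMk
        (contDiff_snd.comp contDiff_snd)))
  have hΓi : ∀ y z v, fderiv ℝ (Γ y) z v = 0 → v = 0 := by
    intro y z v hv
    refine fib_inj (c := fun b z => S (y, b) z) ?_ (fun b z w hw => hS.inj (y, b) z w hw) z v hv
    exact hS.smooth.comp ((contDiff_const.prodMk contDiff_fst).prodMk contDiff_snd)
  have hΓy : ∀ y, ContDiff ℝ ∞ (Γ y) := fun y => hΓs.comp (contDiff_const.prodMk contDiff_id)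
  have hΓre : ∀ y (z : B × ℂ), z.2.re = 0 →
      Γ y z = z + (0, ((τ (y, z.1) z.2.im : ℝ) : ℂ)) := by
    intro y z hz
    refine Prod.ext (by simp [Γ]) ?_
    change S (y, z.1) z.2 = z.2 + ((τ (y, z.1) z.2.im : ℝ) : ℂ)
    exact hSδ _ _ (by rwa [hz, abs_zero])
  have hΓd : ∀ y (z : B × ℂ), z.2.re = 0 → fderiv ℝ (Γ y) z (dn B) = dn B := by
    intro y z hz
    have e1 : HasDerivAt (fun t : ℝ => z + t • dn B) (dn B) 0 := by
      have := ((hasDerivAt_id (0 : ℝ)).smul_const (dn B)).const_add z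
      rwa [one_smul] at this
    have e0 : HasFDerivAt (Γ y) (fderiv ℝ (Γ y) z) (z + (0 : ℝ) • dn B) := by
      rw [zero_smul, add_zero]
      exact ((hΓy y).differentiable (by simp) z).hasFDerivAt
    have e2 := e0.comp_hasDerivAt 0 e1
    have e3 : ((Γ y) ∘ fun t : ℝ => z + t • dn B) =ᶠ[𝓝 0]
        fun t : ℝ => (z + t • dn B) + (0, ((τ (y, z.1) z.2.im : ℝ) : ℂ)) := by
      filter_upwards [Metric.ball_mem_nhds (0 : ℝ) hδ] with t ht
      rw [mem_ball_zero_iff, Real.norm_eq_abs] at ht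
      have f1 : (z + t • dn B).2.re = -t := by simp [hz]
      have f2 : (z + t • dn B).2.im = z.2.im := by simp
      have f3 : (z + t • dn B).1 = z.1 := by simp
      change (((z + t • dn B).1, S (y, (z + t • dn B).1) (z + t • dn B).2) : B × ℂ) = _
      rw [hSδ _ _ (by rwa [f1, abs_neg]), f2, f3]
      refine Prod.ext (by simp) ?_
      rfl
    have e4 := (e1.add_const ((0, ((τ (y, z.1) z.2.im : ℝ) : ℂ)) : B × ℂ)).congr_of_eventuallyEq e3
    exact e2.unique e4
  let r : ℝ → ℝ := fun s => Real.smoothTransition (2 * s - 1)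
  have hrs : ContDiff ℝ ∞ r :=
    Real.smoothTransition.contDiff.comp ((contDiff_const.mul contDiff_id).sub contDiff_const)
  have hr0 : ∀ s, s ≤ 1 / 2 → r s = 0 := fun s hs =>
    Real.smoothTransition.zero_of_nonpos (by linarith)
  have hr1 : r 1 = 1 := Real.smoothTransition.one_of_one_le (by norm_num)
  let Bf : ℝ × P → B × ℂ → B × ℂ := fun y z => G (r y.1, y.2) (Γ y z)
  have hBs : ContDiff ℝ ∞ (fun x : (ℝ × P) × (B × ℂ) => Bf x.1 x.2) :=
    hG.smooth.comp (((hrs.comp (contDiff_fst.comp contDiff_fst)).prodMk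
      (contDiff_snd.comp contDiff_fst)).prodMk hΓs)
  have hGy : ∀ y, ContDiff ℝ ∞ (G y) := fun y => hG.smooth.comp (contDiff_const.prodMk contDiff_id)
  have hBd : ∀ y z v, fderiv ℝ (Bf y) z v
      = fderiv ℝ (G (r y.1, y.2)) (Γ y z) (fderiv ℝ (Γ y) z v) := by
    intro y z v
    have e1 : HasFDerivAt (Bf y) ((fderiv ℝ (G (r y.1, y.2)) (Γ y z)).comp
        (fderiv ℝ (Γ y) z)) z :=
      ((hGy (r y.1, y.2)).differentiable (by simp) (Γ y z)).hasFDerivAt.comp z
        ((hΓy y).differentiable (by simp) z).hasFDerivAt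
    rw [e1.fderiv]
    rfl
  have hBi : ∀ y z v, fderiv ℝ (Bf y) z v = 0 → v = 0 := by
    intro y z v hv
    rw [hBd] at hv
    exact hΓi _ _ _ (hG.inj _ _ _ hv)
  obtain ⟨K₁, hK₁, hoff₁⟩ := hG.supp
  obtain ⟨K₂, hK₂, hoff₂⟩ := hS.supp
  let K : Set (P × (B × ℂ)) :=
    K₁ ∪ (fun x : ((ℝ × P) × B) × ℂ => (x.1.1.2, (x.1.2, x.2))) '' K₂
  have hK : IsCompact K := hK₁.union (hK₂.image (by fun_prop))
  have hBoff : ∀ s p z, (p, z) ∉ K → Bf (s, p) z = z := by
    intro s p z hz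
    rw [mem_union, not_or] at hz
    have e1 : Γ (s, p) z = z :=
      Prod.ext rfl (hoff₂ ((s, p), z.1) z.2 fun hcon => hz.2 ⟨_, hcon, rfl⟩)
    change G (r s, p) (Γ (s, p) z) = z
    rw [e1]
    exact hoff₁ _ _ _ hz.1
  have hBone : ∀ p, Bf (1, p) = fun z => z := by
    intro p
    funext z
    have e1 : Γ (1, p) z = z := by
      refine Prod.ext rfl (hS0 ((1, p), z.1) (fun y => ?_) z.2)
      change κ 1 * _ = 0
      rw [hκoff 1 (by norm_num), zero_mul]
    change G (r 1, p) (Γ (1, p) z) = z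
    rw [e1, hr1]
    exact hG.one p z
  have hBA : ∀ y, MapOmits μ (Bf y) := by
    rintro ⟨s, p⟩ q hq c hc h0
    have e1 := congrArg (fun A : (B × ℂ) →L[ℝ] ℝ => A (dn B)) h0
    have e2 : μ (fderiv ℝ (Bf (s, p)) q (dn B)) = c * ((-1 : ℂ).re) := e1
    rw [hBd, hΓd _ _ hq] at e2
    change μ (fderiv ℝ (G (r s, p)) (Γ (s, p) q) (dn B)) = c * ((-1 : ℂ).re) at e2
    have e3 : (Γ (s, p) q).2.re = κ s * a (p, (q.1, q.2.im)) := by
      rw [hΓre _ _ hq]
      simp [hq, τ]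
    have e3' : (Γ (s, p) q).2.im = q.2.im := by
      rw [hΓre _ _ hq]
      simp
    have e4 : 0 < μ (fderiv ℝ (G (r s, p)) (Γ (s, p) q) (dn B)) := by
      by_cases h1 : 0 ≤ κ s * a (p, (q.1, q.2.im))
      · refine hG.right _ _ ?_
        rw [e3]
        exact h1
      · rw [not_le] at h1
        have h2 : |s| < 1 / 2 := by
          by_contra hcon
          rw [hκoff s (not_lt.1 hcon), zero_mul] at h1
          exact lt_irrefl _ h1
        have h3 : r s = 0 := hr0 s ((le_abs_self s).trans h2.le)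
        rw [h3]
        refine hG.pos p _ (hapos p _ ?_)
        rw [e3, e3']
        have h4 : (Γ (s, p) q).1 = q.1 := rfl
        rw [h4]
        obtain ⟨k1, k2⟩ := hκle s
        have h5 : a (p, (q.1, q.2.im)) < 0 := by
          by_contra hcon
          exact absurd (mul_nonneg k1 (not_lt.1 hcon)) (not_le.2 h1)
        nlinarith
    rw [e2] at e4
    simp only [Complex.neg_re, Complex.one_re] at e4
    linarith
  have hφD : DFam fun p => Bf (0, p) := by
    refine ⟨hBs.comp ((contDiff_const.prodMk contDiff_fst).prodMk contDiff_snd),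
      fun p => hBi (0, p), K, hK, hBoff 0⟩
  obtain ⟨φ, hφ, hφe⟩ := exists_diffs hφD
  refine ⟨φ, hφ, through_of_nhtp ⟨Bf, K, hK, hBs, hBi, hBoff, fun p => funext fun z =>
    (hφe p z).symm, hBone, hBA⟩, fun p q => ?_⟩
  rw [hφe]
  change F p (G (r 0, p) (Γ (0, p) q)) = 0 ↔ _
  rw [hr0 0 (by norm_num), ha0]
  constructor
  · intro h1
    set w : ℂ := S ((0, p), q.1) q.2 with hw
    change w.re = a (p, (q.1, w.im)) at h1
    have h2 : S ((0, p), q.1) ((w.im : ℂ) * Complex.I) = w := by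
      rw [hSδ _ _ (by simpa using hδ)]
      have h3 : ((w.im : ℂ) * Complex.I).im = w.im := by simp
      rw [h3]
      change (w.im : ℂ) * Complex.I + ((κ 0 * a (p, (q.1, w.im)) : ℝ) : ℂ) = w
      rw [hκ0, one_mul, ← h1, add_comm]
      exact Complex.re_add_im w
    have h3 := (hS.bij ((0, p), q.1)).1 (h2.trans hw)
    rw [← h3]
    simp
  · intro h1
    have e3 : (Γ (0, p) q).2.re = κ 0 * a (p, (q.1, q.2.im)) := by
      rw [hΓre _ _ h1]
      simp [h1, τ]
    have e3' : (Γ (0, p) q).2.im = q.2.im := by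
      rw [hΓre _ _ h1]
      simp
    rw [e3, e3', hκ0, one_mul]

end Pool.Agent.H822.TH
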