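import Pool.Agent.H822.TH.Push2
import Mathlib.Analysis.Calculus.ImplicitContDiff

/-!
# Smooth zeros and shears
-/

set_option autoImplicit false

open scoped ContDiff Manifold
open Set Filter Topology Function Metric

namespace Pool.Agent.H822.TH

open Pool.Agent.H822.SM Pool.Agent.H822.LD

section zero

variable {h h' : ℝ → ℝ}

theorem nonneg_after (hd : ∀ x, HasDerivAt h (h' x) x) (hpos : ∀ x, h x = 0 → 0 < h' x)
    {a : ℝ} (ha : 0 ≤ h a) {x : ℝ} (hx : a ≤ x) : 0 ≤ h x := by
  have hcont : Continuous h := continuous_iff_continuousAt.2 fun x => (hd x).continuousAt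
  have e1 := image_le_of_deriv_right_lt_deriv_boundary' (f := fun _ => (0 : ℝ))
    (f' := fun _ => 0) (a := a) (b := x) continuousOn_const
    (fun x _ => hasDerivWithinAt_const x _ (0 : ℝ)) (B := h) (B' := h') ha hcont.continuousOn
    (fun x _ => (hd x).hasDerivWithinAt) (fun x _ hx => hpos x hx.symm)
  exact e1 ⟨hx, le_rfl⟩

theorem unique_zero (hd : ∀ x, HasDerivAt h (h' x) x) (hpos : ∀ x, h x = 0 → 0 < h' x)
    {a b : ℝ} (ha : h a = 0) (hb : h b = 0) : ¬ a < b := by
  intro hab
  have hk : ∀ x, HasDerivAt (fun x => -h (-x)) (h' (-x)) x := by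
    intro x
    have e1 := ((hd (-x)).comp x ((hasDerivAt_id x).neg)).neg
    convert! e1 using 1
    simp
  have e1 : ∀ x, a ≤ x → x ≤ b → h x = 0 := by
    intro x hax hxb
    have e2 := nonneg_after hd hpos ha.ge hax
    have e3 := nonneg_after (h := fun x => -h (-x)) (h' := fun x => h' (-x)) hk
      (fun x hx => hpos (-x) (neg_eq_zero.1 hx)) (a := -b) (by rw [neg_neg, hb, neg_zero])
      (x := -x) (by linarith)
    simp only [neg_neg] at e3
    linarith
  set m : ℝ := (a + b) / 2 with hm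
  have e4 : h =ᶠ[𝓝 m] fun _ => 0 := by
    filter_upwards [Ioo_mem_nhds (show a < m by linarith) (show m < b by linarith)] with x hx
      using e1 x hx.1.le hx.2.le
  have e5 := (hd m).congr_of_eventuallyEq e4.symm
  have e6 := e5.unique (hasDerivAt_const m (0 : ℝ))
  have e7 := hpos m (e1 m (by linarith) (by linarith))
  linarith

/-- smooth zeros -/
theorem exists_zero {N : Type} [NormedAddCommGroup N] [NormedSpace ℝ N] [FiniteDimensional ℝ N]
    {g : N × ℝ → ℝ} (hg : ContDiff ℝ ∞ g) {R : ℝ} (hR0 : 0 < R)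
    (hR : ∀ t x, R < |x| → g (t, x) = x)
    (hpos : ∀ t x, g (t, x) = 0 → 0 < fderiv ℝ g (t, x) (0, 1)) :
    ∃ a : N → ℝ, ContDiff ℝ ∞ a ∧ (∀ t x, g (t, x) = 0 ↔ x = a t) ∧
      ∀ t x, a t ≤ x → 0 ≤ g (t, x) := by
  have hcomp : CompleteSpace N := FiniteDimensional.complete ℝ N
  have hline : ∀ t x, HasDerivAt (fun x => g (t, x)) (fderiv ℝ g (t, x) (0, 1)) x := by
    intro t x
    have e1 : HasDerivAt (fun x : ℝ => ((t, x) : N × ℝ)) (0, 1) x :=
      (hasDerivAt_const x t).prodMk (hasDerivAt_id x)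
    exact ((hg.differentiable (by simp) (t, x)).hasFDerivAt).comp_hasDerivAt x e1
  have hex : ∀ t, ∃ x, g (t, x) = 0 := by
    intro t
    have hc : Continuous fun x => g (t, x) := hg.continuous.comp (by fun_prop)
    have e1 : g (t, -(R + 1)) = -(R + 1) := hR t _ (by
      rw [abs_neg, abs_of_pos (by linarith)]
      linarith)
    have e2 : g (t, R + 1) = R + 1 := hR t _ (by
      rw [abs_of_pos (by linarith)]
      linarith)
    have e3 := intermediate_value_Icc (show -(R + 1) ≤ R + 1 by linarith) hc.continuousOn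
    obtain ⟨x, -, hx⟩ := e3 (show (0 : ℝ) ∈ Icc (g (t, -(R + 1))) (g (t, R + 1)) by
      rw [e1, e2]
      constructor <;> linarith)
    exact ⟨x, hx⟩
  choose a ha using hex
  have huniq : ∀ t x, g (t, x) = 0 ↔ x = a t := by
    intro t x
    constructor
    · intro hx
      rcases lt_trichotomy x (a t) with h1 | h1 | h1
      · exact absurd h1 (unique_zero (hline t) (hpos t) hx (ha t))
      · exact h1
      · exact absurd h1 (unique_zero (hline t) (hpos t) (ha t) hx)
    · rintro rfl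
      exact ha t
  refine ⟨a, contDiff_iff_contDiffAt.2 fun t₀ => ?_, huniq, fun t x hx =>
    nonneg_after (hline t) (hpos t) (ha t).ge hx⟩
  have cdf : ContDiffAt ℝ ∞ g (t₀, a t₀) := hg.contDiffAt
  set c : ℝ := fderiv ℝ g (t₀, a t₀) (0, 1) with hc
  have hc0 : c ≠ 0 := (hpos t₀ _ (ha t₀)).ne'
  have if₂ : (fderiv ℝ g (t₀, a t₀) ∘L .inr ℝ N ℝ).IsInvertible := by
    refine ⟨ContinuousLinearEquiv.unitsEquivAut ℝ (Units.mk0 c hc0), ?_⟩
    refine ContinuousLinearMap.ext fun x => ?_
    change x * c = fderiv ℝ g (t₀, a t₀) (0, x)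
    have e1 : ((0, x) : N × ℝ) = x • (0, 1) := Prod.ext (by simp) (by simp)
    rw [e1, map_smul, smul_eq_mul]
  have hb := cdf.contDiffAt_implicitFunction (by simp) if₂
  have hev := cdf.eventually_apply_implicitFunction (by simp) if₂
  refine hb.congr_of_eventuallyEq ?_
  filter_upwards [hev] with t ht
  rw [ha t₀] at ht
  exact ((huniq t _).1 ht).symm

end zero

section shear

variable {P : Type} [NormedAddCommGroup P] [NormedSpace ℝ P]

/-- the shear with a compactly supported function -/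
theorem exists_shear2 {τ : P → ℝ → ℝ} (hτ : ContDiff ℝ ∞ (fun q : P × ℝ => τ q.1 q.2))
    {K : Set P} (hK : IsCompact K) {R : ℝ} (h1 : ∀ p, p ∉ K → ∀ y, τ p y = 0)
    (h2 : ∀ p y, R < |y| → τ p y = 0) :
    ∃ S : P → ℂ → ℂ, DFam S ∧ (∃ δ : ℝ, 0 < δ ∧ ∀ p (z : ℂ), |z.re| < δ →
      S p z = z + ((τ p z.im : ℝ) : ℂ)) ∧ ∀ p, (∀ y, τ p y = 0) → ∀ z, S p z = z := by
  obtain ⟨T, hT⟩ := ((hK.prod (isCompact_Icc (a := -R) (b := R))).image
    hτ.continuous).isBounded.exists_norm_le
  have hTb : ∀ p y, |τ p y| ≤ max T 0 := by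
    intro p y
    by_cases hp : p ∈ K
    · by_cases hy : R < |y|
      · rw [h2 p y hy, abs_zero]
        exact le_max_right _ _
      · exact (hT _ ⟨(p, y), ⟨hp, abs_le.1 (not_lt.1 hy)⟩, rfl⟩).trans (le_max_left _ _)
    · rw [h1 p hp, abs_zero]
      exact le_max_right _ _
  let ρ : ContDiffBump (0 : ℝ) := ⟨1, 2, one_pos, one_lt_two⟩
  have hρ : ContDiff ℝ ∞ (fun x => ρ x) := ρ.contDiff
  obtain ⟨C, hC⟩ := hρ.lipschitzWith_of_hasCompactSupport ρ.hasCompactSupport (by simp)
  have hρd : ∀ x, |deriv (fun x => ρ x) x| ≤ C := by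
    intro x
    have := norm_deriv_le_of_lipschitz (x₀ := x) hC
    rwa [Real.norm_eq_abs] at this
  set ε : ℝ := (2 * (1 + C * max T 0))⁻¹ with hε
  have hC0 : (0 : ℝ) ≤ C := C.2
  have hT0 : 0 ≤ max T 0 := le_max_right _ _
  have hden : 0 < 2 * (1 + C * max T 0) := by positivity
  have hε0 : 0 < ε := inv_pos.2 hden
  let S : P → ℂ → ℂ := fun p z => z + (((ρ (ε * z.re)) * τ p z.im : ℝ) : ℂ)
  have hSs : ContDiff ℝ ∞ (fun q : P × ℂ => S q.1 q.2) := by
    have e1 : ContDiff ℝ ∞ fun q : P × ℂ => q.2.re := Complex.reCLM.contDiff.comp contDiff_snd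
    have e2 : ContDiff ℝ ∞ fun q : P × ℂ => q.2.im := Complex.imCLM.contDiff.comp contDiff_snd
    have e3 : ContDiff ℝ ∞ fun q : P × ℂ => ρ (ε * q.2.re) * τ q.1 q.2.im :=
      (hρ.comp (contDiff_const.mul e1)).mul (hτ.comp (contDiff_fst.prodMk e2))
    exact contDiff_snd.add (Complex.ofRealCLM.contDiff.comp e3)
  have hτp : ∀ p, ContDiff ℝ ∞ (τ p) := fun p => hτ.comp (contDiff_const.prodMk contDiff_id)
  refine ⟨S, ⟨hSs, fun p z v hv => ?_, K ×ˢ closedBall (0 : ℂ) (2 / ε + |R|),
    hK.prod (isCompact_closedBall _ _), fun p z hz => ?_⟩, ⟨1 / ε, by positivity,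
    fun p z hz => ?_⟩, fun p hp z => ?_⟩
  · -- the derivative
    have e1 : HasFDerivAt (fun z : ℂ => ε * z.re) (ε • Complex.reCLM) z :=
      Complex.reCLM.hasFDerivAt.const_mul ε
    have e2 : HasFDerivAt (fun z : ℂ => ρ (ε * z.re))
        (deriv (fun x => ρ x) (ε * z.re) • (ε • Complex.reCLM)) z :=
      HasDerivAt.comp_hasFDerivAt z (h₂ := fun x => ρ x)
        ((hρ.differentiable (by simp) (ε * z.re)).hasDerivAt) e1
    have e3 : HasFDerivAt (fun z : ℂ => τ p z.im) (deriv (τ p) z.im • Complex.imCLM) z :=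
      HasDerivAt.comp_hasFDerivAt z (h₂ := τ p)
        (((hτp p).differentiable (by simp) z.im).hasDerivAt) Complex.imCLM.hasFDerivAt
    have e4 := e2.mul e3
    have e5 : HasFDerivAt (S p) _ z := (hasFDerivAt_id z).add (Complex.ofRealCLM.hasFDerivAt.comp z e4)
    rw [e5.fderiv] at hv
    have hi := congrArg Complex.im hv
    have hr := congrArg Complex.re hv
    simp only [ContinuousLinearMap.add_apply, ContinuousLinearMap.comp_apply,
      ContinuousLinearMap.smul_apply, ContinuousLinearMap.id_apply, smul_eq_mul,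
      Complex.add_re, Complex.add_im, Complex.zero_re, Complex.zero_im,
      Complex.ofRealCLM_apply, Complex.ofReal_re, Complex.ofReal_im, add_zero,
      Complex.reCLM_apply, Complex.imCLM_apply] at hi hr
    rw [hi] at hr
    have h3 : v.re * (1 + τ p z.im * (deriv (fun x => ρ x) (ε * z.re) * ε)) = 0 := by
      linarith
    have h4 : 0 < 1 + τ p z.im * (deriv (fun x => ρ x) (ε * z.re) * ε) := by
      have h5 : |τ p z.im * (deriv (fun x => ρ x) (ε * z.re) * ε)| ≤ 1 / 2 := by
        rw [abs_mul, abs_mul, abs_of_pos hε0]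
        calc |τ p z.im| * (|deriv (fun x => ρ x) (ε * z.re)| * ε)
            ≤ max T 0 * (C * ε) := by
              gcongr
              · exact hTb p _
              · exact hρd _
          _ = (C * max T 0) * ε := by ring
          _ ≤ (1 + C * max T 0) * ε := by gcongr; linarith
          _ = 1 / 2 := by
            have h7 : (1 + (C : ℝ) * max T 0) ≠ 0 := by positivity
            rw [hε, mul_inv, mul_comm (2 : ℝ)⁻¹, ← mul_assoc, mul_inv_cancel₀ h7]
            norm_num
      linarith [neg_abs_le (τ p z.im * (deriv (fun x => ρ x) (ε * z.re) * ε))]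
    have h6 := (mul_eq_zero.1 h3).resolve_right h4.ne'
    exact Complex.ext h6 hi
  · have h3 : ρ (ε * z.re) * τ p z.im = 0 := by
      by_cases hp : p ∈ K
      · have hz' : 2 / ε + |R| < ‖z‖ := by
          by_contra hcon
          exact hz ⟨hp, by simpa using not_lt.1 hcon⟩
        by_cases hi : R < |z.im|
        · rw [h2 p _ hi, mul_zero]
        · have h4 : 2 / ε < |z.re| := by
            have := Complex.norm_le_abs_re_add_abs_im z
            linarith [not_lt.1 hi, le_abs_self R]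
          have h5 : ρ (ε * z.re) = 0 := by
            refine ρ.zero_of_le_dist ?_
            rw [dist_zero_right, Real.norm_eq_abs, abs_mul, abs_of_pos hε0]
            rw [div_lt_iff₀' hε0] at h4
            exact h4.le
          rw [h5, zero_mul]
      · rw [h1 p hp, mul_zero]
    change z + ((ρ (ε * z.re) * τ p z.im : ℝ) : ℂ) = z
    rw [h3, Complex.ofReal_zero, add_zero]
  · change z + ((ρ (ε * z.re) * τ p z.im : ℝ) : ℂ) = z + ((τ p z.im : ℝ) : ℂ)
    have h3 : ρ (ε * z.re) = 1 := by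
      refine ρ.one_of_mem_closedBall ?_
      rw [mem_closedBall_zero_iff, Real.norm_eq_abs, abs_mul, abs_of_pos hε0]
      rw [lt_div_iff₀ hε0] at hz
      change ε * |z.re| ≤ 1
      linarith
    rw [h3, one_mul]
  · change z + ((ρ (ε * z.re) * τ p z.im : ℝ) : ℂ) = z
    rw [hp, mul_zero, Complex.ofReal_zero, add_zero]

end shear

end Pool.Agent.H822.TH
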